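import Pool.Agent.H11.CC.FLa

/-! Descent of flat bundles and of real cocycles to the quotient. -/

set_option autoImplicit false

open scoped Topology
open Topology

namespace Pool.Agent.H11.CC

open Pool.Agent.H66.SyL Pool.Agent.H11.SO

section
variable {X Y : Type*} [TopologicalSpace X] [TopologicalSpace Y] {L : Set X} {κ : X → Y}

private theorem dsc_nhds (hR : RedMap L κ) {W : Set Y} (hW : IsOpen W) {P : X} (hP : P ∈ L)
    (hPW : κ P ∈ W) : ∀ᶠ Q in 𝓝[L] P, Q ∈ L ∩ κ ⁻¹' W := by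
  filter_upwards [self_mem_nhdsWithin, (hR.cont P hP).eventually (hW.mem_nhds hPW)] with Q h1 h2
  exact ⟨h1, h2⟩

private theorem dsc_lift (hR : RedMap L κ) {W : Set Y} (hW : IsOpen W) {P : X} (hP : P ∈ L)
    (hPW : κ P ∈ W) {p : X → Prop} (h : ∀ᶠ Q in 𝓝[L ∩ κ ⁻¹' W] P, p Q) :
    ∀ᶠ Q in 𝓝[L] P, p Q := by
  rw [eventually_nhdsWithin_iff] at h
  filter_upwards [h.filter_mono nhdsWithin_le_nhds, dsc_nhds hR hW hP hPW] with Q h1 h2
  exact h1 h2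

private theorem dsc_fibre (hR : RedMap L κ) {W : Set Y} {r : X → Circle}
    (hr : ∀ P ∈ L ∩ κ ⁻¹' W, ∀ᶠ Q in 𝓝[L ∩ κ ⁻¹' W] P, r Q = r P) {P Q : X} (hP : P ∈ L)
    (hQ : Q ∈ L) (hW : κ P ∈ W) (h : κ P = κ Q) : r P = r Q := by
  obtain ⟨c, hcc, h0, h1, hc⟩ := hR.path P hP Q hQ h
  have hcA : ∀ s, c s ∈ L ∩ κ ⁻¹' W := fun s => ⟨(hc s).1, by
    show κ (c s) ∈ W
    rw [(hc s).2]
    exact hW⟩
  have hloc : IsLocallyConstant fun s => r (c s) := by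
    rw [IsLocallyConstant.iff_eventually_eq]
    intro s
    have h2 : Filter.Tendsto c (𝓝 s) (𝓝[L ∩ κ ⁻¹' W] (c s)) :=
      tendsto_nhdsWithin_iff.2 ⟨hcc.continuousAt, Filter.Eventually.of_forall hcA⟩
    exact h2.eventually (hr (c s) (hcA s))
  have h3 := hloc.apply_eq_of_isPreconnected isPreconnected_univ (Set.mem_univ (0 : ℝ))
    (Set.mem_univ (1 : ℝ))
  simp only [h0, h1] at h3
  exact h3

end

/-- Proof: for x in K choose an open W_x and a flat section f_x on L ∩ κ^(-1) W_x (htub), and σ x in L with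
κ (σ x) = x. ψB x y = f_x (σ y). The ratio f_x / f_y is constant on fibres (hR.path, Frame.ratio along the path) and
locally constant, so it is a locally constant function on W_x ∩ W_y (hR.op): ψB is a cocycle. If gB is a flat section of
ψB then g Q = gB (κ Q) * f_{κ Q} Q / f_{κ Q} (σ (κ Q)) is flat: near P with κ P = x, g Q = gB (κ Q) f_x Q / f_x (σ (κ Q)). -/
theorem descent {X Y : Type*} [TopologicalSpace X] [TopologicalSpace Y] {L : Set X} {κ : X → Y}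
    (hR : RedMap L κ) {ψ : X → X → Circle}
    (htub : ∀ P ∈ L, ∃ W : Set Y, IsOpen W ∧ κ P ∈ W ∧ ∃ f, Frame (L ∩ κ ⁻¹' W) ψ f)
    (hB : ∀ ψB : (κ '' L) → (κ '' L) → Circle, Coc Set.univ ψB → ∃ g, Frame Set.univ ψB g) :
    ∃ g, Frame L ψ g := by
  classical
  have hσ : ∀ x : (κ '' L), ∃ P, P ∈ L ∧ κ P = x := fun x => x.2
  choose σ hσL hσκ using hσ
  have hW : ∀ x : (κ '' L), ∃ W : Set Y, IsOpen W ∧ (x : Y) ∈ W ∧ ∃ f, Frame (L ∩ κ ⁻¹' W) ψ f := by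
    intro x
    obtain ⟨W, h1, h2, h3⟩ := htub (σ x) (hσL x)
    rw [hσκ] at h2
    exact ⟨W, h1, h2, h3⟩
  choose W hWo hxW f hf using hW
  -- the ratio
  have hrat : ∀ x y : (κ '' L), ∀ P ∈ L ∩ κ ⁻¹' (W x ∩ W y),
      ∀ᶠ Q in 𝓝[L ∩ κ ⁻¹' (W x ∩ W y)] P, f x Q / f y Q = f x P / f y P := by
    intro x y
    refine Frame.ratio ((hf x).mono ?_) ((hf y).mono ?_)
    · rintro P ⟨h1, h2, h3⟩
      exact ⟨h1, h2⟩
    · rintro P ⟨h1, h2, h3⟩
      exact ⟨h1, h3⟩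
  have hfib : ∀ x y : (κ '' L), ∀ P ∈ L, ∀ Q ∈ L, κ P ∈ W x → κ P ∈ W y → κ P = κ Q →
      f x P / f y P = f x Q / f y Q := by
    intro x y P hP Q hQ h1 h2 h
    exact dsc_fibre (r := fun P => f x P / f y P) hR (hrat x y) hP hQ ⟨h1, h2⟩ h
  have hcoc : Coc Set.univ (fun x y : (κ '' L) => f x (σ y)) := by
    intro x _
    rw [nhdsWithin_univ]
    have e1 : ∀ᶠ y : (κ '' L) in 𝓝 x, (y : Y) ∈ W x :=
      continuous_subtype_val.continuousAt.eventually ((hWo x).mem_nhds (hxW x))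
    filter_upwards [e1] with y hy
    rw [nhdsWithin_univ]
    have hPA : κ (σ y) ∈ W y ∩ W x := by
      rw [hσκ]
      exact ⟨hxW y, hy⟩
    have e2 := dsc_lift hR ((hWo y).inter (hWo x)) (hσL y) hPA
      (hrat y x (σ y) ⟨hσL y, hPA⟩)
    have e3 := e2.and (dsc_nhds hR ((hWo y).inter (hWo x)) (hσL y) hPA)
    have e4 := hR.op (σ y) (hσL y) _ e3
    rw [hσκ] at e4
    have e5 := (eventually_nhds_subtype_iff (κ '' L) y _).2 e4
    filter_upwards [e5] with z hz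
    obtain ⟨Q, ⟨hQL, hQ1, hQ2⟩, hQz⟩ := hz
    have h1 : κ Q ∈ W y ∩ W x := hQ2.2
    have h2 := hfib y x Q hQL (σ z) (hσL z) h1.1 h1.2 (by rw [hQz, hσκ])
    have h3 : f y (σ z) / f x (σ z) = f y (σ y) / f x (σ y) := h2.symm.trans hQ1
    rw [div_eq_div_iff_mul_eq_mul] at h3 ⊢
    rw [h3, mul_comm]
  obtain ⟨gB, hgB⟩ := hB _ hcoc
  refine ⟨fun Q => if h : Q ∈ L then gB ⟨κ Q, Q, h, rfl⟩ *
    (f ⟨κ Q, Q, h, rfl⟩ Q / f ⟨κ Q, Q, h, rfl⟩ (σ ⟨κ Q, Q, h, rfl⟩)) else 1, ?_⟩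
  intro P hP
  set x : (κ '' L) := ⟨κ P, P, hP, rfl⟩ with hx
  have hfr := hgB x (Set.mem_univ _)
  rw [nhdsWithin_univ] at hfr
  have hPx : κ P ∈ W x := hxW x
  -- pull back of the eventual property
  have hpull : ∀ᶠ Q in 𝓝[L] P, ∀ hQ : Q ∈ L,
      gB ⟨κ Q, Q, hQ, rfl⟩ / gB x = f x (σ ⟨κ Q, Q, hQ, rfl⟩) / f x (σ x) := by
    rw [nhds_subtype_eq_comap_nhdsWithin, Filter.eventually_comap] at hfr
    have h2 : Filter.Tendsto κ (𝓝[L] P) (𝓝[κ '' L] (κ P)) := by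
      refine tendsto_nhdsWithin_iff.2 ⟨hR.cont P hP, ?_⟩
      exact eventually_nhdsWithin_of_forall fun Q hQ => ⟨Q, hQ, rfl⟩
    filter_upwards [h2.eventually hfr] with Q hQ hQL
    exact hQ ⟨κ Q, Q, hQL, rfl⟩ rfl
  have hloc : ∀ᶠ Q in 𝓝[L] P, f x Q / f x P = ψ P Q / ψ P P :=
    dsc_lift hR (hWo x) hP hPx (hf x P ⟨hP, hPx⟩)
  filter_upwards [hpull, hloc, dsc_nhds hR (hWo x) hP hPx] with Q h1 h2 h3
  obtain ⟨hQL, hQW⟩ := h3
  have h1' := h1 hQL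
  set y : (κ '' L) := ⟨κ Q, Q, hQL, rfl⟩ with hy
  have h4 := hfib y x Q hQL (σ y) (hσL y) (hxW y) hQW (by rw [hσκ])
  have h5 : gB y * (f y Q / f y (σ y)) = gB x * (f x Q / f x (σ x)) := by
    have h6 : f y Q / f y (σ y) = f x Q / f x (σ y) := by
      rw [div_eq_div_iff_mul_eq_mul] at h4 ⊢
      rw [h4, mul_comm]
    have h7 : gB y = gB x * (f x (σ y) / f x (σ x)) := by
      rw [← h1']
      exact (mul_div_cancel _ _).symm
    rw [h6, h7, mul_assoc, mul_comm (f x (σ y) / f x (σ x)), div_mul_div_cancel]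
  simp only [dif_pos hQL, dif_pos hP]
  show gB y * (f y Q / f y (σ y)) / (gB x * (f x P / f x (σ x))) = _
  rw [h5, mul_div_mul_left_eq_div, div_div_div_cancel_right, h2]

end Pool.Agent.H11.CC
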