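import Pool.Agent.H11.CC.FLa

/-! H^1(K; R) = 0 for the quotient K of L. -/

set_option autoImplicit false

open scoped Topology
open Topology

namespace Pool.Agent.H11.CC

open Pool.Agent.H66.SyL Pool.Agent.H11.SO

private theorem dscr_const_fibre {X Y : Type*} [TopologicalSpace X] [TopologicalSpace Y]
    {L : Set X} {κ : X → Y} (hR : RedMap L κ) {ψ : X → X → ℝ} {G : X → ℝ}
    (hψ : ∀ P Q S : X, κ Q = κ S → ψ P Q = ψ P S)
    (hG : ∀ P ∈ L, ∀ᶠ Q in 𝓝[L] P, G Q - G P = ψ P Q - ψ P P) {P Q : X} (hP : P ∈ L)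
    (hQ : Q ∈ L) (h : κ P = κ Q) : G P = G Q := by
  obtain ⟨c, hcc, h0, h1, hc⟩ := hR.path P hP Q hQ h
  have hcL : ∀ s, c s ∈ L := fun s => (hc s).1
  have hcp : ∀ s, κ (c s) = κ P := fun s => (hc s).2
  have hloc : IsLocallyConstant fun s => G (c s) := by
    rw [IsLocallyConstant.iff_eventually_eq]
    intro s
    have h1 : Filter.Tendsto c (𝓝 s) (𝓝[L] (c s)) :=
      tendsto_nhdsWithin_iff.2 ⟨hcc.continuousAt, Filter.Eventually.of_forall hcL⟩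
    filter_upwards [h1.eventually (hG (c s) (hcL s))] with t ht
    have h2 : ψ (c s) (c t) = ψ (c s) (c s) := hψ _ _ _ ((hcp t).trans (hcp s).symm)
    rw [h2, sub_self] at ht
    linarith
  have h3 := hloc.apply_eq_of_isPreconnected isPreconnected_univ (Set.mem_univ (0 : ℝ))
    (Set.mem_univ (1 : ℝ))
  simp only [h0, h1] at h3
  exact h3

/-- Proof: psi on K gives psi' P Q = psi (κ P) (κ Q) on L (κ continuous on L); H1Zero gives G, constant along the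
paths of hR.path (locally constant), so G = g o κ; hR.op (compare H11/SO/CutH.lean). -/
theorem h1_red {X Y : Type*} [TopologicalSpace X] [TopologicalSpace Y] {L : Set X} {κ : X → Y}
    (hR : RedMap L κ) (h1 : H1Zero L) : H1Zero (Set.univ : Set (κ '' L)) := by
  classical
  intro ψ0 hψ0
  have hmem : ∀ {P : X}, P ∈ L → κ P ∈ κ '' L := fun {P} hP => ⟨P, hP, rfl⟩
  have hpull : ∀ {P : X} (hP : P ∈ L) (p : (κ '' L) → Prop),
      (∀ᶠ y in 𝓝 (⟨κ P, hmem hP⟩ : κ '' L), p y) →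
      ∀ᶠ Q in 𝓝[L] P, ∀ hQ : κ Q ∈ κ '' L, p ⟨κ Q, hQ⟩ := by
    intro P hP p h
    rw [nhds_subtype_eq_comap_nhdsWithin, Filter.eventually_comap] at h
    have h2 : Filter.Tendsto (κ) (𝓝[L] P) (𝓝[κ '' L] (κ P)) := by
      refine tendsto_nhdsWithin_iff.2 ⟨?_, ?_⟩
      · exact hR.cont P hP
      · exact eventually_nhdsWithin_of_forall fun Q hQ => hmem hQ
    filter_upwards [h2.eventually h] with Q hQ hQ'
    exact hQ _ rfl
  set k : Y → Y → ℝ := fun u w => if h : u ∈ κ '' L ∧ w ∈ κ '' L then ψ0 ⟨u, h.1⟩ ⟨w, h.2⟩ else 0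
    with hk
  have hke : ∀ {u w : Y} (hu : u ∈ κ '' L) (hw : w ∈ κ '' L), k u w = ψ0 ⟨u, hu⟩ ⟨w, hw⟩ := by
    intro u w hu hw
    rw [hk]
    exact dif_pos ⟨hu, hw⟩
  set ψ : X → X → ℝ := fun P Q => k (κ P) (κ Q) with hψd
  have hcond : ∀ P ∈ L, ∀ᶠ Q in 𝓝[L] P, ∀ᶠ S in 𝓝[L] Q, ψ Q S - ψ Q Q = ψ P S - ψ P Q := by
    intro P hP
    have h2 := hψ0 ⟨κ P, hmem hP⟩ (Set.mem_univ _)
    simp only [nhdsWithin_univ] at h2
    filter_upwards [hpull hP _ h2, self_mem_nhdsWithin] with Q hQ hQL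
    have h3 := hQ (hmem hQL)
    filter_upwards [hpull hQL _ h3, self_mem_nhdsWithin] with S hS hSL
    have h4 := hS (hmem hSL)
    simp only [hψd]
    rw [hke (hmem hQL) (hmem hSL), hke (hmem hQL) (hmem hQL), hke (hmem hP) (hmem hSL),
      hke (hmem hP) (hmem hQL)]
    exact h4
  obtain ⟨G, hG⟩ := h1 ψ hcond
  have hψc : ∀ P Q S : X, κ Q = κ S → ψ P Q = ψ P S := by
    intro P Q S h
    simp only [hψd, h]
  have hfib : ∀ {P Q : X}, P ∈ L → Q ∈ L → κ P = κ Q → G P = G Q :=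
    fun {P Q} hP hQ h => dscr_const_fibre hR hψc hG hP hQ h
  set σ : (κ '' L) → X := fun x => x.2.choose with hσ
  have hσL : ∀ x, σ x ∈ L := fun x => x.2.choose_spec.1
  have hσp : ∀ x : (κ '' L), κ (σ x) = x.1 := fun x => x.2.choose_spec.2
  refine ⟨fun x => G (σ x), ?_⟩
  intro x _
  rw [nhdsWithin_univ]
  have h2 := hR.op (σ x) (hσL x) _ (hG (σ x) (hσL x))
  rw [hσp x] at h2
  have h3 : ∀ᶠ y : (κ '' L) in 𝓝 x, ∃ Q ∈ L ∩ {Q | G Q - G (σ x) = ψ (σ x) Q - ψ (σ x) (σ x)},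
      κ Q = y.1 := by
    have h4 : Filter.Tendsto (Subtype.val : (κ '' L) → Y) (𝓝 x) (𝓝[κ '' L] x.1) :=
      tendsto_nhdsWithin_iff.2 ⟨continuous_subtype_val.continuousAt,
        Filter.Eventually.of_forall fun y => y.2⟩
    exact h4.eventually h2
  filter_upwards [h3] with y hy
  obtain ⟨Q, ⟨hQL, hQ⟩, hQy⟩ := hy
  have h5 : κ Q = κ (σ y) := hQy.trans (hσp y).symm
  have h6 : G (σ y) - G (σ x) = ψ (σ x) (σ y) - ψ (σ x) (σ x) := by
    rw [← hfib hQL (hσL y) h5, ← hψc (σ x) Q (σ y) h5]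
    exact hQ
  simp only [hψd, hσp] at h6
  rw [hke x.2 y.2, hke x.2 x.2] at h6
  exact h6

end Pool.Agent.H11.CC
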