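import Pool.Agent.H11.CC.Trs

/-! The holonomy of the orbits. -/

set_option autoImplicit false

open scoped Topology
open Topology

namespace Pool.Agent.H11.CC

/-- Proof: T P (2 pi) is locally constant on L by hj with u0 = 2 pi (per), L is connected, and it is 1 at the
fixed point (Trp.fixed). If φ u P = P and P is not fixed then 2 u = 2 pi k, T P (2 u) = (T P u)^2 (Trp.add) and
T P (2 pi k) = 1. -/
theorem hol {X : Type*} [TopologicalSpace X] {L : Set X} {φ : ℝ → X → X}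
    {ψ : X → X → Circle} (hφ : Flw L φ) (hconn : IsConnected L) {T : X → ℝ → Circle}
    (hT : Trp L φ ψ T)
    (hj : ∀ P ∈ L, ∀ u0 : ℝ, ∀ᶠ q : ℝ × X in 𝓝 u0 ×ˢ 𝓝[L] P,
      T q.2 q.1 * ψ P q.2 / ψ (φ u0 P) (φ q.1 q.2) = T P u0 * ψ P P / ψ (φ u0 P) (φ u0 P))
    (hfix : ∃ P ∈ L, ∀ t, φ t P = P)
    (hstab : ∀ P ∈ L, ∀ u : ℝ, φ u P = P → (∀ t, φ t P = P) ∨ ∃ k : ℤ, 2 * u = 2 * Real.pi * k) :
    ∀ P ∈ L, ∀ u : ℝ, φ u P = P → T P u ^ 2 = 1 := by
  have hloc : ∀ P ∈ L, ∀ᶠ Q in 𝓝[L] P, T Q (2 * Real.pi) = T P (2 * Real.pi) := by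
    intro P hP
    have h1 : Filter.Tendsto (fun Q : X => ((2 * Real.pi, Q) : ℝ × X)) (𝓝[L] P)
        (𝓝 (2 * Real.pi) ×ˢ 𝓝[L] P) :=
      Filter.Tendsto.prodMk tendsto_const_nhds Filter.tendsto_id
    filter_upwards [h1.eventually (hj P hP (2 * Real.pi))] with Q hQ
    simp only [hφ.per] at hQ
    rw [mul_div_assoc, mul_div_assoc, div_self', div_self', mul_one, mul_one] at hQ
    exact hQ
  have hconst : ∀ P ∈ L, ∀ Q ∈ L, T P (2 * Real.pi) = T Q (2 * Real.pi) := by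
    intro P hP Q hQ
    refine hconn.isPreconnected.induction₂ (fun x y => T x (2 * Real.pi) = T y (2 * Real.pi))
      (fun x hx => ?_) (fun x y z _ _ _ h1 h2 => h1.trans h2) (fun x y _ _ h => h.symm) hP hQ
    filter_upwards [hloc x hx] with y hy
    exact hy.symm
  obtain ⟨P0, hP0, hf0⟩ := hfix
  have h1 : ∀ P ∈ L, T P (2 * Real.pi) = 1 := fun P hP => by
    rw [hconst P hP P0 hP0, Trp.fixed hφ hT hP0 hf0]
  intro P hP u hu
  have hper : Function.Periodic (T P) (2 * Real.pi) := by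
    intro s
    rw [Trp.add hφ hT hP s (2 * Real.pi), hφ.per, h1 P hP, one_mul]
  rcases hstab P hP u hu with h | ⟨k, hk⟩
  · rw [Trp.fixed hφ hT hP h, one_pow]
  · have h2 : T P (u + u) = T P u * T (φ u P) u := Trp.add hφ hT hP u u
    rw [hu] at h2
    have h3 : u + u = 0 + k * (2 * Real.pi) := by linarith
    have h4 : T P (u + u) = 1 := by
      rw [h3, hper.int_mul k 0, hT.zero P hP]
    rw [sq, ← h2, h4]

end Pool.Agent.H11.CC
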