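import Pool.Agent.H11.CC.Defs

/-! Merging zeros in a disc, removing zeros in a half disc. -/

set_option autoImplicit false

open scoped Topology
open Topology

namespace Pool.Agent.H11.CC

private noncomputable def mob (r : ℝ) (a y : ℂ) : ℂ :=
  (r : ℂ) ^ 2 * (y - a) / ((r : ℂ) ^ 2 - (starRingEnd ℂ) a * y)

private theorem den_ne {r : ℝ} (hr : 0 < r) {a y : ℂ} (ha : ‖a‖ < r) (hy : ‖y‖ ≤ r) :
    (r : ℂ) ^ 2 - (starRingEnd ℂ) a * y ≠ 0 := by
  intro h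
  have h1 : (r : ℂ) ^ 2 = (starRingEnd ℂ) a * y := sub_eq_zero.1 h
  have h2 : r ^ 2 = ‖a‖ * ‖y‖ := by
    have h3 := congrArg (fun z : ℂ => ‖z‖) h1
    simp only [norm_pow, norm_mul, Complex.norm_real, RCLike.norm_conj, Real.norm_eq_abs, sq_abs] at h3
    exact h3
  have h4 : ‖a‖ * ‖y‖ ≤ ‖a‖ * r := mul_le_mul_of_nonneg_left hy (norm_nonneg _)
  have h5 : ‖a‖ * r < r * r := mul_lt_mul_of_pos_right ha hr
  nlinarith

private theorem norm_mob {r : ℝ} (hr : 0 < r) {a y : ℂ} (ha : ‖a‖ < r) (hy : ‖y‖ = r) :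
    ‖mob r a y‖ = r := by
  have h1 : (r : ℂ) ^ 2 = y * (starRingEnd ℂ) y := by
    rw [Complex.mul_conj, Complex.normSq_eq_norm_sq, hy]
    push_cast
    ring
  have h2 : (r : ℂ) ^ 2 - (starRingEnd ℂ) a * y = y * (starRingEnd ℂ) (y - a) := by
    rw [h1, map_sub]
    ring
  have h3 : ‖y - a‖ ≠ 0 := by
    rw [norm_ne_zero_iff, sub_ne_zero]
    intro h
    rw [h] at hy
    exact absurd hy (ne_of_lt ha)
  unfold mob
  rw [h2, norm_div, norm_mul, norm_mul, RCLike.norm_conj, hy, norm_pow, Complex.norm_real, Real.norm_eq_abs,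
    abs_of_pos hr]
  field_simp

private theorem mob_mob {r : ℝ} (hr : 0 < r) {a y : ℂ} (ha : ‖a‖ < r) (hy : ‖y‖ = r) :
    mob r (-a) (mob r a y) = y := by
  have hD := den_ne hr ha hy.le
  have hN : (r : ℂ) ^ 2 - (starRingEnd ℂ) a * a ≠ 0 := den_ne hr ha ha.le
  have hr0 : (r : ℂ) ≠ 0 := by exact_mod_cast hr.ne'
  have e1 : mob r a y - -a = y * ((r : ℂ) ^ 2 - (starRingEnd ℂ) a * a) /
      ((r : ℂ) ^ 2 - (starRingEnd ℂ) a * y) := by
    unfold mob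
    rw [sub_neg_eq_add, eq_div_iff hD, add_mul, div_mul_cancel₀ _ hD]
    ring
  have e2 : (r : ℂ) ^ 2 - (starRingEnd ℂ) (-a) * mob r a y =
      (r : ℂ) ^ 2 * ((r : ℂ) ^ 2 - (starRingEnd ℂ) a * a) /
      ((r : ℂ) ^ 2 - (starRingEnd ℂ) a * y) := by
    unfold mob
    rw [map_neg, eq_div_iff hD]
    have e3 : ((r : ℂ) ^ 2 - -(starRingEnd ℂ) a * ((r : ℂ) ^ 2 * (y - a) /
        ((r : ℂ) ^ 2 - (starRingEnd ℂ) a * y))) * ((r : ℂ) ^ 2 - (starRingEnd ℂ) a * y) =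
        (r : ℂ) ^ 2 * ((r : ℂ) ^ 2 - (starRingEnd ℂ) a * y) + (starRingEnd ℂ) a *
        ((r : ℂ) ^ 2 * (y - a) / ((r : ℂ) ^ 2 - (starRingEnd ℂ) a * y) *
          ((r : ℂ) ^ 2 - (starRingEnd ℂ) a * y)) := by ring
    rw [e3, div_mul_cancel₀ _ hD]
    ring
  have e4 : mob r (-a) (mob r a y) = (r : ℂ) ^ 2 * (mob r a y - -a) /
      ((r : ℂ) ^ 2 - (starRingEnd ℂ) (-a) * mob r a y) := rfl
  rw [e4, e1, e2, div_eq_iff (div_ne_zero (mul_ne_zero (pow_ne_zero 2 hr0) hN) hD)]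
  ring

private theorem radial {U : ℂ → ℂ} {r : ℝ} (hr : 0 < r) (hU : ContinuousOn U (Metric.sphere 0 r)) :
    Continuous fun w : ℂ => ((‖w‖ / r : ℝ) : ℂ) * U (((r / ‖w‖ : ℝ) : ℂ) * w) := by
  have hs : ∀ w : ℂ, w ≠ 0 → ((r / ‖w‖ : ℝ) : ℂ) * w ∈ Metric.sphere (0 : ℂ) r := by
    intro w hw
    rw [mem_sphere_zero_iff_norm, norm_mul, Complex.norm_real, Real.norm_eq_abs,
      abs_of_pos (div_pos hr (norm_pos_iff.2 hw))]
    exact div_mul_cancel₀ _ (norm_ne_zero_iff.2 hw)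
  rw [continuous_iff_continuousAt]
  intro w
  by_cases hw : w = 0
  · subst hw
    obtain ⟨M, hM⟩ := (isCompact_sphere (0 : ℂ) r).exists_bound_of_continuousOn hU
    have h0 : ((‖(0 : ℂ)‖ / r : ℝ) : ℂ) * U (((r / ‖(0 : ℂ)‖ : ℝ) : ℂ) * 0) = 0 := by
      rw [norm_zero, zero_div, Complex.ofReal_zero, zero_mul]
    show Filter.Tendsto (fun w : ℂ => ((‖w‖ / r : ℝ) : ℂ) * U (((r / ‖w‖ : ℝ) : ℂ) * w)) (𝓝 0)
      (𝓝 (((‖(0 : ℂ)‖ / r : ℝ) : ℂ) * U (((r / ‖(0 : ℂ)‖ : ℝ) : ℂ) * 0)))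
    rw [h0]
    have h1 : Filter.Tendsto (fun w : ℂ => ‖w‖ / r * M) (𝓝 0) (𝓝 0) := by
      have h2 : Continuous fun w : ℂ => ‖w‖ / r * M := by fun_prop
      have h3 := h2.tendsto 0
      rw [norm_zero, zero_div, zero_mul] at h3
      exact h3
    refine squeeze_zero_norm ?_ h1
    intro w
    by_cases h : w = 0
    · subst h
      rw [h0, norm_zero, zero_div, zero_mul]
    · rw [norm_mul, Complex.norm_real, Real.norm_eq_abs, abs_of_nonneg (by positivity)]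
      exact mul_le_mul_of_nonneg_left (hM _ (hs w h)) (by positivity)
  · have h1 : ContinuousOn (fun w : ℂ => ((r / ‖w‖ : ℝ) : ℂ) * w) {w | w ≠ 0} := by
      intro x hx
      refine ContinuousAt.continuousWithinAt ?_
      refine ContinuousAt.mul ?_ continuousAt_id
      refine Complex.continuous_ofReal.continuousAt.comp ?_
      exact continuousAt_const.div continuous_norm.continuousAt (norm_ne_zero_iff.2 hx)
    have h2 : ContinuousOn (fun w : ℂ => U (((r / ‖w‖ : ℝ) : ℂ) * w)) {w | w ≠ 0} :=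
      hU.comp h1 fun x hx => hs x hx
    have h3 : ContinuousAt (fun w : ℂ => U (((r / ‖w‖ : ℝ) : ℂ) * w)) w :=
      h2.continuousAt (isOpen_ne.mem_nhds hw)
    refine ContinuousAt.mul ?_ h3
    refine Continuous.continuousAt ?_
    fun_prop

/-- Proof: cone from y0: for y ≠ y0 in the disc let β(y) be the point where the ray from y0 through y meets the
circle |β| = r (explicit formula, continuous for y ≠ y0), v y = (|y - y0| / |β y - y0|) u (β y), v y0 = 0. -/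
theorem merge_disc {u : ℂ → ℂ} {r : ℝ} (hr : 0 < r)
    (hu : ContinuousOn u (Metric.closedBall 0 r)) (h0 : ∀ y : ℂ, ‖y‖ = r → u y ≠ 0) {y0 : ℂ}
    (hy0 : ‖y0‖ < r) :
    ∃ v : ℂ → ℂ, ContinuousOn v (Metric.closedBall 0 r) ∧ (∀ y : ℂ, ‖y‖ = r → v y = u y) ∧
      ∀ y ∈ Metric.closedBall 0 r, (v y = 0 ↔ y = y0) := by
  have hy0' : ‖-y0‖ < r := by rwa [norm_neg]
  have hr0 : (r : ℂ) ≠ 0 := by exact_mod_cast hr.ne'
  have hcm : ∀ a : ℂ, ‖a‖ < r → ContinuousOn (mob r a) (Metric.closedBall 0 r) := by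
    intro a ha
    unfold mob
    refine ContinuousOn.div (by fun_prop) (by fun_prop) ?_
    intro y hy
    exact den_ne hr ha (by simpa using hy)
  have hU : ContinuousOn (fun w => u (mob r (-y0) w)) (Metric.sphere 0 r) := by
    refine hu.comp ((hcm _ hy0').mono Metric.sphere_subset_closedBall) ?_
    intro w hw
    rw [mem_closedBall_zero_iff, norm_mob hr hy0' (mem_sphere_zero_iff_norm.1 hw)]
  have hF := radial hr hU
  refine ⟨fun y => ((‖mob r y0 y‖ / r : ℝ) : ℂ) *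
    u (mob r (-y0) (((r / ‖mob r y0 y‖ : ℝ) : ℂ) * mob r y0 y)), ?_, ?_, ?_⟩
  · exact hF.comp_continuousOn (hcm _ hy0)
  · intro y hy
    show ((‖mob r y0 y‖ / r : ℝ) : ℂ) *
      u (mob r (-y0) (((r / ‖mob r y0 y‖ : ℝ) : ℂ) * mob r y0 y)) = u y
    rw [norm_mob hr hy0 hy, div_self hr.ne', Complex.ofReal_one, one_mul, one_mul, mob_mob hr hy0 hy]
  · intro y hy
    have hy' : ‖y‖ ≤ r := by simpa using hy
    have hD := den_ne hr hy0 hy'
    have hz : mob r y0 y = 0 ↔ y = y0 := by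
      unfold mob
      rw [div_eq_zero_iff, or_iff_left hD, mul_eq_zero, or_iff_right (pow_ne_zero 2 hr0), sub_eq_zero]
    show ((‖mob r y0 y‖ / r : ℝ) : ℂ) *
      u (mob r (-y0) (((r / ‖mob r y0 y‖ : ℝ) : ℂ) * mob r y0 y)) = 0 ↔ y = y0
    rw [← hz]
    constructor
    · intro h
      rcases mul_eq_zero.1 h with h1 | h1
      · have h2 : ‖mob r y0 y‖ / r = 0 := by exact_mod_cast h1
        rcases div_eq_zero_iff.1 h2 with h3 | h3
        · exact norm_eq_zero.1 h3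
        · exact absurd h3 hr.ne'
      · by_contra hne
        refine h0 _ ?_ h1
        refine norm_mob hr hy0' ?_
        rw [norm_mul, Complex.norm_real, Real.norm_eq_abs, abs_of_pos (div_pos hr (norm_pos_iff.2 hne))]
        exact div_mul_cancel₀ _ (norm_ne_zero_iff.2 hne)
    · intro h
      rw [h, norm_zero, zero_div, Complex.ofReal_zero, zero_mul]

/-- Proof: v (x + i y) = u (x + i sqrt (r^2 - x^2)). -/
theorem merge_half {u : ℂ → ℂ} {r : ℝ} (hr : 0 < r)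
    (hu : ContinuousOn u (Metric.closedBall 0 r ∩ Hp))
    (h0 : ∀ y ∈ Hp, ‖y‖ = r → u y ≠ 0) :
    ∃ v : ℂ → ℂ, ContinuousOn v (Metric.closedBall 0 r ∩ Hp) ∧
      (∀ y ∈ Hp, ‖y‖ = r → v y = u y) ∧ ∀ y ∈ Metric.closedBall 0 r ∩ Hp, v y ≠ 0 := by
  have hsq : ∀ y : ℂ, ‖y‖ ^ 2 = y.re ^ 2 + y.im ^ 2 := by
    intro y
    rw [← Complex.normSq_eq_norm_sq, Complex.normSq_apply]
    ring
  have hn : ∀ y : ℂ, ‖y‖ ≤ r → ‖(⟨y.re, √(r ^ 2 - y.re ^ 2)⟩ : ℂ)‖ = r := by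
    intro y hy
    have h1 : y.re ^ 2 ≤ r ^ 2 := by
      have h2 := hsq y
      have h3 : ‖y‖ ^ 2 ≤ r ^ 2 := pow_le_pow_left₀ (norm_nonneg _) hy 2
      nlinarith [sq_nonneg y.im]
    have h4 : ‖(⟨y.re, √(r ^ 2 - y.re ^ 2)⟩ : ℂ)‖ ^ 2 = r ^ 2 := by
      rw [hsq]
      show y.re ^ 2 + √(r ^ 2 - y.re ^ 2) ^ 2 = r ^ 2
      rw [Real.sq_sqrt (by linarith)]
      ring
    exact (sq_eq_sq₀ (norm_nonneg _) hr.le).1 h4
  have hH : ∀ y : ℂ, (⟨y.re, √(r ^ 2 - y.re ^ 2)⟩ : ℂ) ∈ Hp := fun y => Real.sqrt_nonneg _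
  refine ⟨fun y => u ⟨y.re, √(r ^ 2 - y.re ^ 2)⟩, ?_, ?_, ?_⟩
  · have h1 : Continuous fun y : ℂ => (⟨y.re, √(r ^ 2 - y.re ^ 2)⟩ : ℂ) := by
      have h2 : Continuous fun y : ℂ => ((y.re, √(r ^ 2 - y.re ^ 2)) : ℝ × ℝ) := by
        refine Complex.continuous_re.prodMk ?_
        exact (continuous_const.sub (Complex.continuous_re.pow 2)).sqrt
      exact Complex.equivRealProdCLM.symm.continuous.comp h2
    refine hu.comp h1.continuousOn ?_
    intro y hy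
    exact ⟨by rw [mem_closedBall_zero_iff, hn y (by simpa using hy.1)], hH y⟩
  · intro y hy hyr
    have h1 : √(r ^ 2 - y.re ^ 2) = y.im := by
      have h2 := hsq y
      rw [hyr] at h2
      have h3 : r ^ 2 - y.re ^ 2 = y.im ^ 2 := by linarith
      rw [h3, Real.sqrt_sq hy]
    show u ⟨y.re, √(r ^ 2 - y.re ^ 2)⟩ = u y
    rw [h1]
  · intro y hy
    exact h0 _ (hH y) (hn y (by simpa using hy.1))

end Pool.Agent.H11.CC
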