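import Pool.Agent.H11.CC.Rpl
import Pool.Agent.H11.CC.Mrg

/-! Moving and killing zeros of a section. -/

set_option autoImplicit false

open scoped Topology
open Topology

namespace Pool.Agent.H11.CC

private lemma chart_closed {X : Type*} [TopologicalSpace X] (ch : Ch X) : IsClosed ch.M := by
  rcases ch.hM with h | h
  · rw [h]; exact isClosed_univ
  · rw [h]
    exact isClosed_le continuous_const Complex.continuous_im

private lemma good_radius {X : Type*} [TopologicalSpace X] {s : X → ℂ}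
    (hfin : {x | s x = 0}.Finite) (ch : Ch X) :
    ∃ r : ℝ, 1 < r ∧ r < 2 ∧ ∀ y ∈ ch.M, ‖y‖ = r → s (ch.c y) ≠ 0 := by
  have h1 : (ch.M ∩ ch.c ⁻¹' {x | s x = 0}).Finite := by
    apply Set.Finite.of_finite_image (f := ch.c)
    · apply hfin.subset
      rintro x ⟨y, hy, rfl⟩
      exact hy.2
    · exact ch.inj.mono Set.inter_subset_left
  have h2 := h1.image (fun y : ℂ => ‖y‖)
  obtain ⟨r, hr, hr2⟩ :=
    (Set.Ioo_infinite (by norm_num : (1 : ℝ) < 2)).exists_notMem_finite h2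
  refine ⟨r, hr.1, hr.2, fun y hy hyr h0 => hr2 ⟨y, ⟨hy, h0⟩, hyr⟩⟩

private lemma core {X : Type*} [TopologicalSpace X] [T2Space X] {ψ : X → X → Circle}
    (hψ : Coc Set.univ ψ) {s : X → ℂ} (hs : TC ψ s) (ch : Ch X) {F : ℂ → Circle}
    (hF : Frame (Metric.closedBall 0 2 ∩ ch.M) (fun a b => ψ (ch.c a) (ch.c b)) F)
    {r : ℝ} (hr : r < 2) {v : ℂ → ℂ} (hv : ContinuousOn v (Metric.closedBall 0 r ∩ ch.M))
    (hve : ∀ y ∈ ch.M, ‖y‖ = r → v y = s (ch.c y) / (F y : ℂ)) :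
    ∃ s' : X → ℂ, TC ψ s' ∧ (∀ x, x ∉ ch.c '' (Metric.closedBall 0 r ∩ ch.M) → s' x = s x) ∧
      ∀ y ∈ Metric.closedBall 0 r ∩ ch.M, s' (ch.c y) = v y * (F y : ℂ) := by
  classical
  have hu := tc_chart hψ hs ch hF
  have hFn : ∀ y, (F y : ℂ) ≠ 0 := fun y => Circle.coe_ne_zero _
  let w : ℂ → ℂ := fun y => if ‖y‖ ≤ r then v y else s (ch.c y) / (F y : ℂ)
  have hw1 : ∀ y ∈ Metric.closedBall 0 r ∩ ch.M, w y = v y := by
    intro y hy
    have : ‖y‖ ≤ r := mem_closedBall_zero_iff.1 hy.1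
    show (if ‖y‖ ≤ r then v y else s (ch.c y) / (F y : ℂ)) = v y
    rw [if_pos this]
  have hw2 : ∀ y ∈ ch.M, r ≤ ‖y‖ → w y = s (ch.c y) / (F y : ℂ) := by
    intro y hy h
    show (if ‖y‖ ≤ r then v y else s (ch.c y) / (F y : ℂ)) = s (ch.c y) / (F y : ℂ)
    split_ifs with h1
    · exact hve y hy (le_antisymm h1 h)
    · rfl
  have hcl := chart_closed ch
  have hwc : ContinuousOn w (Metric.closedBall 0 2 ∩ ch.M) := by
    have hA : IsClosed (Metric.closedBall (0 : ℂ) r ∩ ch.M) := Metric.isClosed_closedBall.inter hcl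
    have hB : IsClosed ({y : ℂ | r ≤ ‖y‖} ∩ (Metric.closedBall (0 : ℂ) 2 ∩ ch.M)) :=
      (isClosed_le continuous_const continuous_norm).inter (Metric.isClosed_closedBall.inter hcl)
    have h1 : ContinuousOn w (Metric.closedBall (0 : ℂ) r ∩ ch.M) := hv.congr hw1
    have h2 : ContinuousOn w ({y : ℂ | r ≤ ‖y‖} ∩ (Metric.closedBall (0 : ℂ) 2 ∩ ch.M)) := by
      apply (hu.mono Set.inter_subset_right).congr
      intro y hy
      exact hw2 y hy.2.2 hy.1
    apply (h1.union_of_isClosed h2 hA hB).mono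
    intro y hy
    rcases le_total ‖y‖ r with h | h
    · exact Or.inl ⟨mem_closedBall_zero_iff.2 h, hy.2⟩
    · exact Or.inr ⟨h, hy⟩
  obtain ⟨s', h1, h2, h3⟩ := replace hψ hs ch hF hr w hwc (by
    intro y hy h
    rw [hw2 y hy.2 h, div_mul_cancel₀ _ (hFn y)])
  refine ⟨s', h1, h2, ?_⟩
  intro y hy
  have hyb : y ∈ Metric.ball (0 : ℂ) 2 ∩ ch.M := by
    refine ⟨?_, hy.2⟩
    rw [mem_ball_zero_iff]
    have := mem_closedBall_zero_iff.1 hy.1
    linarith
  rw [h3 y hyb, hw1 y hy]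

/-- Proof: choose 1 < r < 2 with no zero of s on c {|y| = r} (finitely many zeros, c injective); merge_disc for
u = s o c / F on closedBall 0 r with y0 = a', continued by u for |y| ≥ r; replace. All zeros in c (ball 0 r) are
replaced by the single zero c a'. -/
theorem move_zero {X : Type*} [TopologicalSpace X] [T2Space X] {ψ : X → X → Circle}
    (hψ : Coc Set.univ ψ) {s : X → ℂ} (hs : TC ψ s) (hfin : {x | s x = 0}.Finite) (ch : Ch X)
    (hM : ch.M = Set.univ) {a a' : ℂ} (ha : ‖a‖ < 1) (ha' : ‖a'‖ < 1) (h0 : s (ch.c a) = 0) :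
    ∃ s' : X → ℂ, TC ψ s' ∧ {x | s' x = 0}.Finite ∧
      {x | s' x = 0}.ncard ≤ {x | s x = 0}.ncard ∧ s' (ch.c a') = 0 := by
  obtain ⟨F, hF⟩ := chart_frame hψ ch
  have hu := tc_chart hψ hs ch hF
  have hFn : ∀ y, (F y : ℂ) ≠ 0 := fun y => Circle.coe_ne_zero _
  obtain ⟨r, hr1, hr2, hrn⟩ := good_radius hfin ch
  have hsub : Metric.closedBall (0 : ℂ) r ⊆ Metric.closedBall 0 2 ∩ ch.M := by
    intro y hy
    rw [hM]
    exact ⟨Metric.closedBall_subset_closedBall hr2.le hy, Set.mem_univ _⟩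
  obtain ⟨v, hv, hve, hv0⟩ := merge_disc (u := fun y => s (ch.c y) / (F y : ℂ)) (r := r)
    (by linarith) (hu.mono hsub) (by
      intro y hy
      exact div_ne_zero (hrn y (by rw [hM]; exact Set.mem_univ _) hy) (hFn y)) (y0 := a')
    (by linarith)
  obtain ⟨s', h1, h2, h3⟩ := core hψ hs ch hF hr2 (v := v) (hv.mono Set.inter_subset_left)
    (fun y _ h => hve y h)
  have hmem : ∀ y : ℂ, ‖y‖ < 1 → y ∈ Metric.closedBall (0 : ℂ) r ∩ ch.M := by
    intro y hy
    refine ⟨mem_closedBall_zero_iff.2 (by linarith), ?_⟩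
    rw [hM]; exact Set.mem_univ _
  have hz : {x | s' x = 0} ⊆ insert (ch.c a') ({x | s x = 0} \ {ch.c a}) := by
    intro x hx
    by_cases hxK : x ∈ ch.c '' (Metric.closedBall 0 r ∩ ch.M)
    · obtain ⟨y, hy, rfl⟩ := hxK
      left
      have h4 : s' (ch.c y) = 0 := hx
      rw [h3 y hy] at h4
      have h5 : v y = 0 := by
        rcases mul_eq_zero.1 h4 with h | h
        · exact h
        · exact absurd h (hFn y)
      rw [(hv0 y hy.1).1 h5]
    · right
      refine ⟨?_, ?_⟩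
      · show s x = 0
        rw [← h2 x hxK]; exact hx
      · intro hxa
        apply hxK
        rw [Set.mem_singleton_iff.1 hxa]
        exact ⟨a, hmem a ha, rfl⟩
  have hfd : ({x | s x = 0} \ {ch.c a}).Finite := hfin.subset Set.sdiff_subset
  refine ⟨s', h1, (hfd.insert _).subset hz, ?_, ?_⟩
  · calc {x | s' x = 0}.ncard ≤ (insert (ch.c a') ({x | s x = 0} \ {ch.c a})).ncard :=
          Set.ncard_le_ncard hz (hfd.insert _)
      _ ≤ ({x | s x = 0} \ {ch.c a}).ncard + 1 := Set.ncard_insert_le _ _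
      _ = {x | s x = 0}.ncard := Set.ncard_sdiff_singleton_add_one h0 hfin
  · rw [h3 a' (hmem a' ha'), (hv0 a' (hmem a' ha').1).2 rfl, zero_mul]

/-- the same with merge_half: at least one zero disappears -/
theorem kill_zero {X : Type*} [TopologicalSpace X] [T2Space X] {ψ : X → X → Circle}
    (hψ : Coc Set.univ ψ) {s : X → ℂ} (hs : TC ψ s) (hfin : {x | s x = 0}.Finite) (ch : Ch X)
    (hM : ch.M = Hp) {a : ℂ} (ha : ‖a‖ < 1) (haM : a ∈ Hp) (h0 : s (ch.c a) = 0) :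
    ∃ s' : X → ℂ, TC ψ s' ∧ {x | s' x = 0}.Finite ∧
      {x | s' x = 0}.ncard < {x | s x = 0}.ncard := by
  obtain ⟨F, hF⟩ := chart_frame hψ ch
  have hu := tc_chart hψ hs ch hF
  have hFn : ∀ y, (F y : ℂ) ≠ 0 := fun y => Circle.coe_ne_zero _
  obtain ⟨r, hr1, hr2, hrn⟩ := good_radius hfin ch
  have hsub : Metric.closedBall (0 : ℂ) r ∩ Hp ⊆ Metric.closedBall 0 2 ∩ ch.M := by
    intro y hy
    rw [hM]
    exact ⟨Metric.closedBall_subset_closedBall hr2.le hy.1, hy.2⟩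
  obtain ⟨v, hv, hve, hv0⟩ := merge_half (u := fun y => s (ch.c y) / (F y : ℂ)) (r := r)
    (by linarith) (hu.mono hsub) (by
      intro y hyM hy
      exact div_ne_zero (hrn y (by rw [hM]; exact hyM) hy) (hFn y))
  obtain ⟨s', h1, h2, h3⟩ := core hψ hs ch hF hr2 (v := v) (by rw [hM]; exact hv)
    (fun y hy h => hve y (by rw [← hM]; exact hy) h)
  have hz : {x | s' x = 0} ⊆ {x | s x = 0} \ {ch.c a} := by
    intro x hx
    by_cases hxK : x ∈ ch.c '' (Metric.closedBall 0 r ∩ ch.M)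
    · obtain ⟨y, hy, rfl⟩ := hxK
      exfalso
      have h4 : s' (ch.c y) = 0 := hx
      rw [h3 y hy] at h4
      rcases mul_eq_zero.1 h4 with h | h
      · exact hv0 y (by rw [← hM]; exact hy) h
      · exact absurd h (hFn y)
    · refine ⟨?_, ?_⟩
      · show s x = 0
        rw [← h2 x hxK]; exact hx
      · intro hxa
        apply hxK
        rw [Set.mem_singleton_iff.1 hxa]
        exact ⟨a, ⟨mem_closedBall_zero_iff.2 (by linarith), by rw [hM]; exact haM⟩, rfl⟩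
  have hfd : ({x | s x = 0} \ {ch.c a}).Finite := hfin.subset Set.sdiff_subset
  refine ⟨s', h1, hfd.subset hz, ?_⟩
  exact lt_of_le_of_lt (Set.ncard_le_ncard hz hfd) (Set.ncard_sdiff_singleton_lt_of_mem h0 hfin)

end Pool.Agent.H11.CC
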