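import Pool.Agent.H11.CC.Fnz
import Pool.Agent.H11.CC.Mov

/-! A section without zeros. -/

set_option autoImplicit false

open scoped Topology
open Topology

namespace Pool.Agent.H11.CC

private theorem disc_loc {X : Type*} [TopologicalSpace X] [T2Space X] {ψ : X → X → Circle}
    (hψ : Coc Set.univ ψ) {N : ℕ}
    (hmin : ∀ s : X → ℂ, TC ψ s → {x | s x = 0}.Finite → N ≤ {x | s x = 0}.ncard)
    (ch : Ch X) (hM : ch.M = Set.univ) {x y : X}
    (hx : x ∈ ch.c '' (Metric.ball 0 1 ∩ ch.M)) (hy : y ∈ ch.c '' (Metric.ball 0 1 ∩ ch.M))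
    (h : ∃ s : X → ℂ, TC ψ s ∧ {x | s x = 0}.Finite ∧ {x | s x = 0}.ncard = N ∧ s x = 0) :
    ∃ s : X → ℂ, TC ψ s ∧ {x | s x = 0}.Finite ∧ {x | s x = 0}.ncard = N ∧ s y = 0 := by
  obtain ⟨a, ⟨ha, _⟩, rfl⟩ := hx
  obtain ⟨a', ⟨ha', _⟩, rfl⟩ := hy
  obtain ⟨s, hs, hf, hn, h0⟩ := h
  obtain ⟨s', hs', hf', hn', h0'⟩ := move_zero hψ hs hf ch hM (a := a) (a' := a')
    (by simpa using ha) (by simpa using ha') h0
  exact ⟨s', hs', hf', le_antisymm (hn'.trans hn.le) (hmin s' hs' hf'), h0'⟩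

private theorem half_loc {X : Type*} [TopologicalSpace X] [T2Space X] {ψ : X → X → Circle}
    (hψ : Coc Set.univ ψ) {N : ℕ}
    (hmin : ∀ s : X → ℂ, TC ψ s → {x | s x = 0}.Finite → N ≤ {x | s x = 0}.ncard)
    (ch : Ch X) (hM : ch.M = Hp) {x : X} (hx : x ∈ ch.c '' (Metric.ball 0 1 ∩ ch.M)) :
    ¬ ∃ s : X → ℂ, TC ψ s ∧ {x | s x = 0}.Finite ∧ {x | s x = 0}.ncard = N ∧ s x = 0 := by
  rintro ⟨s, hs, hf, hn, h0⟩
  obtain ⟨a, ⟨ha, haM⟩, rfl⟩ := hx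
  rw [hM] at haM
  obtain ⟨s', hs', hf', hn'⟩ := kill_zero hψ hs hf ch hM (a := a) (by simpa using ha) haM h0
  have h1 := hmin s' hs' hf'
  omega

/-- Proof: let N be the minimal number of zeros of a section with finitely many zeros (fin_zeros); suppose N > 0. G =
the set of zeros of sections with exactly N zeros (finite), not empty. If x0 is a DiscAt point, V = c '' (ball 0 1): V ⊆ G
or V ∩ G empty (move_zero). If x0 is HalfAt, V = c '' (ball 0 1 ∩ M) does not meet G (kill_zero, minimality). So G is open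
and closed, G = X, contradiction to hne. -/
theorem no_zeros {X : Type*} [TopologicalSpace X] [T2Space X] [CompactSpace X] [ConnectedSpace X]
    (hX : ∀ x : X, DiscAt x ∨ HalfAt x) (hne : ∃ x : X, HalfAt x) {ψ : X → X → Circle}
    (hψ : Coc Set.univ ψ) : ∃ s : X → ℂ, TC ψ s ∧ ∀ x, s x ≠ 0 := by
  classical
  obtain ⟨s0, hs0, hf0⟩ := fin_zeros hX hψ
  have hex : ∃ n : ℕ, ∃ s : X → ℂ, TC ψ s ∧ {x | s x = 0}.Finite ∧ {x | s x = 0}.ncard = n :=
    ⟨_, s0, hs0, hf0, rfl⟩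
  obtain ⟨N, ⟨s1, hs1, hf1, hn1⟩, hN⟩ : ∃ N : ℕ, (∃ s : X → ℂ, TC ψ s ∧ {x | s x = 0}.Finite ∧
      {x | s x = 0}.ncard = N) ∧ ∀ m < N, ¬ ∃ s : X → ℂ, TC ψ s ∧ {x | s x = 0}.Finite ∧
      {x | s x = 0}.ncard = m := ⟨Nat.find hex, Nat.find_spec hex, fun m hm => Nat.find_min hex hm⟩
  have hmin : ∀ s : X → ℂ, TC ψ s → {x | s x = 0}.Finite → N ≤ {x | s x = 0}.ncard := by
    intro s h1 h2
    by_contra hcon
    exact hN _ (not_le.mp hcon) ⟨s, h1, h2, rfl⟩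
  by_cases hN0 : N = 0
  · refine ⟨s1, hs1, fun x hx => ?_⟩
    have h1 : {x | s1 x = 0} = ∅ := (Set.ncard_eq_zero hf1).mp (hn1.trans hN0)
    have h2 : x ∈ {x | s1 x = 0} := hx
    rw [h1] at h2
    exact h2
  · exfalso
    obtain ⟨G, hG⟩ : ∃ G : Set X, ∀ x, x ∈ G ↔ ∃ s : X → ℂ, TC ψ s ∧ {x | s x = 0}.Finite ∧
        {x | s x = 0}.ncard = N ∧ s x = 0 := ⟨{x | _}, fun x => Iff.rfl⟩
    have hGne : G.Nonempty := by
      have h1 : {x | s1 x = 0}.Nonempty := by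
        rw [← Set.ncard_pos hf1]
        omega
      obtain ⟨x, hx⟩ := h1
      exact ⟨x, (hG x).mpr ⟨s1, hs1, hf1, hn1, hx⟩⟩
    have hV : ∀ ch : Ch X, IsOpen (ch.c '' (Metric.ball 0 1 ∩ ch.M)) := fun ch =>
      ch.op _ Metric.isOpen_ball
    have hmem : ∀ ch : Ch X, (0 : ℂ) ∈ ch.M := by
      intro ch
      rcases ch.hM with h | h
      · rw [h]
        exact Set.mem_univ _
      · rw [h]
        exact le_refl (0 : ℝ)
    have h0V : ∀ ch : Ch X, ch.c 0 ∈ ch.c '' (Metric.ball 0 1 ∩ ch.M) := fun ch =>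
      ⟨0, ⟨Metric.mem_ball_self one_pos, hmem ch⟩, rfl⟩
    have hopen : IsOpen G := by
      rw [isOpen_iff_mem_nhds]
      intro x hx
      rcases hX x with ⟨ch, hM, hc⟩ | ⟨ch, hM, hc⟩
      · refine Filter.mem_of_superset ((hV ch).mem_nhds (hc ▸ h0V ch)) fun y hy => ?_
        exact (hG y).mpr (disc_loc hψ hmin ch hM (hc ▸ h0V ch) hy ((hG x).mp hx))
      · exact absurd ((hG x).mp hx) (half_loc hψ hmin ch hM (hc ▸ h0V ch))
    have hclosed : IsClosed G := by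
      rw [← isOpen_compl_iff, isOpen_iff_mem_nhds]
      intro x hx
      rcases hX x with ⟨ch, hM, hc⟩ | ⟨ch, hM, hc⟩
      · refine Filter.mem_of_superset ((hV ch).mem_nhds (hc ▸ h0V ch)) fun y hy hyG => ?_
        exact hx ((hG x).mpr (disc_loc hψ hmin ch hM hy (hc ▸ h0V ch) ((hG y).mp hyG)))
      · refine Filter.mem_of_superset ((hV ch).mem_nhds (hc ▸ h0V ch)) fun y hy hyG => ?_
        exact half_loc hψ hmin ch hM hy ((hG y).mp hyG)
    have huniv : G = Set.univ := IsClopen.eq_univ ⟨hclosed, hopen⟩ hGne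
    obtain ⟨x, ch, hM, hc⟩ := hne
    have hx : x ∈ G := huniv ▸ Set.mem_univ x
    exact half_loc hψ hmin ch hM (hc ▸ h0V ch) ((hG x).mp hx)

end Pool.Agent.H11.CC
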