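import Pool.Agent.H11.CC.FLa

/-! From a continuous section without zeros to a flat section. -/

set_option autoImplicit false

open scoped Topology
open Topology

namespace Pool.Agent.H11.CC

open Pool.Agent.H66.SyL

private theorem arg_div_of_re_rst {u v : ℂ} (hu : 0 < u.re) (hv : 0 < v.re) :
    Complex.arg (v / u) = Complex.arg v - Complex.arg u := by
  have hu0 : u ≠ 0 := by rintro rfl; simp at hu
  have hv0 : v ≠ 0 := by rintro rfl; simp at hv
  have h1 : |Complex.arg u| < Real.pi / 2 := Complex.abs_arg_lt_pi_div_two_iff.2 (Or.inl hu)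
  have h2 : |Complex.arg v| < Real.pi / 2 := Complex.abs_arg_lt_pi_div_two_iff.2 (Or.inl hv)
  rw [abs_lt] at h1 h2
  have h3 : Complex.arg u⁻¹ = -Complex.arg u := by
    rw [Complex.arg_inv, if_neg]
    intro h; rw [h] at h1; linarith [h1.2, Real.pi_pos]
  rw [div_eq_mul_inv, Complex.arg_mul hv0 (inv_ne_zero hu0), h3]
  · ring
  · rw [h3]; constructor <;> linarith [h1.1, h1.2, h2.1, h2.2]

private theorem circle_exp_arg {z : ℂ} (hz : z ≠ 0) :
    (Circle.exp (Complex.arg z) : ℂ) = z / (‖z‖ : ℂ) := by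
  have hn : (‖z‖ : ℂ) ≠ 0 := by exact_mod_cast (norm_pos_iff.2 hz).ne'
  rw [Circle.coe_exp, eq_div_iff hn, mul_comm, Complex.norm_mul_exp_arg_mul_I]

/-- Proof: psi P Q = arg ((s Q / ψ P Q) / (s P / ψ P P)). For Q near P and S near Q the quotients have positive real
part, so the arguments add up, and the condition of H1Zero holds (compare H66/SyL/Core.lean). H1Zero gives g; the flat
section is (s / |s|) exp (-i g). -/
theorem real_step {X : Type*} [TopologicalSpace X] (h1 : H1Zero (Set.univ : Set X))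
    {ψ : X → X → Circle} (hψ : Coc Set.univ ψ) {s : X → ℂ} (hs : TC ψ s) (h0 : ∀ x, s x ≠ 0) :
    ∃ g, Frame Set.univ ψ g := by
  have hc0 : ∀ P Q : X, (ψ P Q : ℂ) ≠ 0 := fun P Q => (ψ P Q).coe_ne_zero
  have hΘ0 : ∀ P Q : X, s Q / (ψ P Q : ℂ) ≠ 0 := fun P Q => div_ne_zero (h0 Q) (hc0 P Q)
  have hpos : ∀ P Q : X, ContinuousAt (fun S => s S / (ψ P S : ℂ)) Q →
      0 < ((s Q / (ψ P Q : ℂ)) / (s P / (ψ P P : ℂ))).re →
      ∀ᶠ S in 𝓝 Q, 0 < ((s S / (ψ P S : ℂ)) / (s P / (ψ P P : ℂ))).re := by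
    intro P Q hc h
    have hc' : ContinuousAt (fun S => ((s S / (ψ P S : ℂ)) / (s P / (ψ P P : ℂ))).re) Q :=
      Complex.continuous_re.continuousAt.comp (hc.div_const _)
    exact hc'.tendsto.eventually (lt_mem_nhds h)
  obtain ⟨g, hg⟩ := h1 (fun P Q => Complex.arg ((s Q / (ψ P Q : ℂ)) / (s P / (ψ P P : ℂ)))) (by
    intro P hP
    have hPp : ∀ᶠ Q in 𝓝 P, 0 < ((s Q / (ψ P Q : ℂ)) / (s P / (ψ P P : ℂ))).re := by
      refine hpos P P (hs P).self_of_nhds ?_
      rw [div_self (hΘ0 P P)]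
      simp
    have hψP := hψ P hP
    simp only [nhdsWithin_univ] at hψP ⊢
    filter_upwards [hψP, hPp, hs P] with Q hQ1 hQ2 hQ3
    filter_upwards [hQ1, hpos P Q hQ3 hQ2] with S hS1 hS2
    have hS1' : (ψ Q S : ℂ) / (ψ Q Q : ℂ) = (ψ P S : ℂ) / (ψ P Q : ℂ) := by
      have h := congrArg (fun z : Circle => (z : ℂ)) hS1
      simpa only [Circle.coe_div] using h
    have hq : s S / (ψ Q S : ℂ) / (s Q / (ψ Q Q : ℂ)) =
        (s S / (ψ P S : ℂ) / (s P / (ψ P P : ℂ))) / (s Q / (ψ P Q : ℂ) / (s P / (ψ P P : ℂ))) := by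
      have a1 := hc0 Q S
      have a2 := hc0 Q Q
      have a3 := hc0 P S
      have a4 := hc0 P Q
      have a5 := hc0 P P
      have a6 := h0 Q
      have a7 := h0 P
      rw [div_eq_div_iff a2 a4] at hS1'
      field_simp
      linear_combination (-(s S)) * hS1'
    show Complex.arg (s S / (ψ Q S : ℂ) / (s Q / (ψ Q Q : ℂ))) -
      Complex.arg (s Q / (ψ Q Q : ℂ) / (s Q / (ψ Q Q : ℂ))) = _
    rw [hq, arg_div_of_re_rst hQ2 hS2, div_self (hΘ0 Q Q), Complex.arg_one]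
    ring)
  refine ⟨fun x => Circle.exp (Complex.arg (s x) - g x), ?_⟩
  intro P hP
  filter_upwards [hg P hP] with Q hQ
  have hQ' : g Q - g P = Complex.arg ((s Q / (ψ P Q : ℂ)) / (s P / (ψ P P : ℂ))) -
      Complex.arg ((s P / (ψ P P : ℂ)) / (s P / (ψ P P : ℂ))) := hQ
  rw [div_self (hΘ0 P P), Complex.arg_one, sub_zero] at hQ'
  show Circle.exp (Complex.arg (s Q) - g Q) / Circle.exp (Complex.arg (s P) - g P) = _
  have e1 : Circle.exp (Complex.arg (s Q) - g Q) / Circle.exp (Complex.arg (s P) - g P) =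
      Circle.exp (Complex.arg (s Q)) / Circle.exp (Complex.arg (s P)) /
        Circle.exp (Complex.arg ((s Q / (ψ P Q : ℂ)) / (s P / (ψ P P : ℂ)))) := by
    rw [← hQ', ← Circle.exp_sub, ← Circle.exp_sub, ← Circle.exp_sub]
    congr 1
    ring
  rw [e1]
  apply Circle.ext
  rw [Circle.coe_div, Circle.coe_div, Circle.coe_div, circle_exp_arg (h0 Q), circle_exp_arg (h0 P),
    circle_exp_arg (div_ne_zero (hΘ0 P Q) (hΘ0 P P))]
  have n1 : ‖(s Q / (ψ P Q : ℂ)) / (s P / (ψ P P : ℂ))‖ = ‖s Q‖ / ‖s P‖ := by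
    rw [norm_div, norm_div, norm_div, Circle.norm_coe, Circle.norm_coe, div_one, div_one]
  rw [n1]
  have b1 : (‖s Q‖ : ℂ) ≠ 0 := by exact_mod_cast (norm_pos_iff.2 (h0 Q)).ne'
  have b2 : (‖s P‖ : ℂ) ≠ 0 := by exact_mod_cast (norm_pos_iff.2 (h0 P)).ne'
  have a4 := hc0 P Q
  have a5 := hc0 P P
  have a6 := h0 Q
  have a7 := h0 P
  push_cast
  field_simp

end Pool.Agent.H11.CC
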