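import Pool.Agent.H11.CC.Trs

/-! Flat sections on invariant tubes. -/

set_option autoImplicit false

open scoped Topology
open Topology

namespace Pool.Agent.H11.CC

open Pool.Agent.H11.SO

private theorem tube_aux {X : Type*} [TopologicalSpace X] [T2Space X] {L : Set X}
    {φ : ℝ → X → X} {ψ : X → X → Circle} (hφ : Flw L φ) {T : X → ℝ → Circle}
    (hj : ∀ P ∈ L, ∀ u0 : ℝ, ∀ᶠ q : ℝ × X in 𝓝 u0 ×ˢ 𝓝[L] P,
      T q.2 q.1 * ψ P q.2 / ψ (φ u0 P) (φ q.1 q.2) = T P u0 * ψ P P / ψ (φ u0 P) (φ u0 P))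
    (hst : ∀ P ∈ L, ∀ u : ℝ, φ u P = P → T P u = 1) {P : X} (hP : P ∈ L) (u0 : ℝ) :
    ∃ V ∈ 𝓝 u0, ∃ U : Set X, IsOpen U ∧ P ∈ U ∧
      ∀ u ∈ V, ∀ S ∈ L ∩ U, φ u S ∈ U → T S u = ψ P (φ u S) / ψ P S := by
  by_cases h : φ u0 P = P
  · have h2 := hj P hP u0
    rw [h, hst P hP u0 h] at h2
    rw [Filter.eventually_prod_iff] at h2
    obtain ⟨pa, ha, pb, hb, hab⟩ := h2
    rw [eventually_nhdsWithin_iff] at hb
    obtain ⟨U, hUb, hU, hPU⟩ := mem_nhds_iff.1 hb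
    refine ⟨{u | pa u}, ha, U, hU, hPU, ?_⟩
    intro u hu S hS _
    have h3 := hab hu (hUb hS.2 hS.1)
    simp only [one_mul, div_self'] at h3
    rw [div_eq_one] at h3
    rw [← h3]
    simp
  · obtain ⟨A, B, hA, hB, hPA, hPB, hAB⟩ := t2_separation h
    have hc : Filter.Tendsto (fun q : ℝ × X => φ q.1 q.2) (𝓝 (u0, P)) (𝓝 (φ u0 P)) :=
      hφ.cont.tendsto (u0, P)
    have h2 : ∀ᶠ q : ℝ × X in 𝓝 (u0, P), φ q.1 q.2 ∈ A :=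
      hc.eventually (hA.mem_nhds hPA)
    rw [nhds_prod_eq, Filter.eventually_prod_iff] at h2
    obtain ⟨pa, ha, pb, hb, hab⟩ := h2
    obtain ⟨U, hUb, hU, hPU⟩ := mem_nhds_iff.1 hb
    refine ⟨{u | pa u}, ha, U ∩ B, hU.inter hB, ⟨hPU, hPB⟩, ?_⟩
    intro u hu S hS hS2
    exfalso
    exact Set.disjoint_left.1 hAB (hab hu (hUb hS.2.1)) hS2.2

private theorem tube_loc {X : Type*} [TopologicalSpace X] [T2Space X] {L : Set X}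
    {φ : ℝ → X → X} {ψ : X → X → Circle} (hφ : Flw L φ) (hψ : Coc L ψ) {T : X → ℝ → Circle}
    (hT : Trp L φ ψ T)
    (hj : ∀ P ∈ L, ∀ u0 : ℝ, ∀ᶠ q : ℝ × X in 𝓝 u0 ×ˢ 𝓝[L] P,
      T q.2 q.1 * ψ P q.2 / ψ (φ u0 P) (φ q.1 q.2) = T P u0 * ψ P P / ψ (φ u0 P) (φ u0 P))
    (hst : ∀ P ∈ L, ∀ u : ℝ, φ u P = P → T P u = 1) {P : X} (hP : P ∈ L) :
    ∃ U : Set X, IsOpen U ∧ P ∈ U ∧ Frame (L ∩ U) ψ (ψ P) ∧
      ∀ S ∈ L ∩ U, ∀ u : ℝ, φ u S ∈ U → T S u = ψ P (φ u S) / ψ P S := by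
  obtain ⟨U0, hU0, hPU0, hfr⟩ := hψ.local hP
  have hk : IsCompact (Set.Icc (0:ℝ) (2 * Real.pi)) := isCompact_Icc
  have h1 : ∃ U : Set X, IsOpen U ∧ P ∈ U ∧ ∀ u ∈ Set.Icc (0:ℝ) (2 * Real.pi),
      ∀ S ∈ L ∩ U, φ u S ∈ U → T S u = ψ P (φ u S) / ψ P S := by
    refine hk.induction_on (p := fun s => ∃ U : Set X, IsOpen U ∧ P ∈ U ∧ ∀ u ∈ s,
      ∀ S ∈ L ∩ U, φ u S ∈ U → T S u = ψ P (φ u S) / ψ P S) ?_ ?_ ?_ ?_
    · exact ⟨Set.univ, isOpen_univ, Set.mem_univ _, fun u hu => absurd hu (by simp)⟩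
    · rintro s t hst' ⟨U, hU, hPU, h⟩
      exact ⟨U, hU, hPU, fun u hu => h u (hst' hu)⟩
    · rintro s t ⟨U, hU, hPU, h⟩ ⟨U', hU', hPU', h'⟩
      refine ⟨U ∩ U', hU.inter hU', ⟨hPU, hPU'⟩, ?_⟩
      rintro u (hu | hu) S hS hS2
      · exact h u hu S ⟨hS.1, hS.2.1⟩ hS2.1
      · exact h' u hu S ⟨hS.1, hS.2.2⟩ hS2.2
    · intro u0 _
      obtain ⟨V, hV, hU⟩ := tube_aux hφ hj hst hP u0
      exact ⟨V, mem_nhdsWithin_of_mem_nhds hV, hU⟩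
  obtain ⟨U1, hU1, hPU1, h1⟩ := h1
  refine ⟨U0 ∩ U1, hU0.inter hU1, ⟨hPU0, hPU1⟩,
    hfr.mono (Set.inter_subset_inter_right _ Set.inter_subset_left), ?_⟩
  intro S hS u hu
  have hpos : (0:ℝ) < 2 * Real.pi := by positivity
  -- reduction modulo the period
  have hper1 : ∀ S : X, ∀ v : ℝ, φ (v + 2 * Real.pi) S = φ v S := by
    intro S v
    rw [hφ.add, hφ.per]
  have hperT1 : ∀ S ∈ L, ∀ v : ℝ, T S (v + 2 * Real.pi) = T S v := by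
    intro S hS v
    rw [Trp.add hφ hT hS v (2 * Real.pi), hst S hS _ (hφ.per S), hφ.per, one_mul]
  have hper : Function.Periodic (fun v => φ v S) (2 * Real.pi) := fun v => hper1 S v
  have hperT : Function.Periodic (T S) (2 * Real.pi) := fun v => hperT1 S hS.1 v
  set n : ℤ := toIcoDiv hpos 0 u with hn
  have hv' : toIcoMod hpos 0 u ∈ Set.Ico (0:ℝ) (2 * Real.pi) := by
    have := toIcoMod_mem_Ico hpos 0 u
    simpa using this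
  have h3 : u = toIcoMod hpos 0 u + n • (2 * Real.pi) := by
    rw [hn, toIcoMod_add_toIcoDiv_zsmul]
  have h4 : φ u S = φ (toIcoMod hpos 0 u) S := by
    conv_lhs => rw [h3]
    exact (hper.zsmul n) _
  have h5 : T S u = T S (toIcoMod hpos 0 u) := by
    conv_lhs => rw [h3]
    exact (hperT.zsmul n) _
  rw [h5, h4]
  rw [h4] at hu
  exact h1 _ ⟨hv'.1, hv'.2.le⟩ S ⟨hS.1, hS.2.2⟩ hu.2

/-- Proof. (1) There is an open U containing P with ψ P flat on L ∩ U (Coc.local) and such that for S in L ∩ U and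
all u with φ u S in U one has T S u = ψ P (φ u S) / ψ P S: u in [0, 2 pi] suffices (Trp.add, hst for u = 2 pi);
for each u0 in [0, 2 pi] either φ u0 P ≠ P, then φ u S is not in a small U for (u, S) near (u0, P), or
φ u0 P = P and hj, hst give the equation near (u0, P); compactness of [0, 2 pi]. (2) W = a neighbourhood of κ P in κ(L ∩ U)
(hR.op). For Q in L with κ Q in W there is t with φ t Q in U (hfib); f Q = ψ P (φ t Q) / T Q t, independent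
of t by (1). Near Q0 the same t0 can be used and hj at (t0, Q0) gives the flatness. -/
theorem tube {X Y : Type*} [TopologicalSpace X] [T2Space X] [TopologicalSpace Y] {L : Set X}
    {φ : ℝ → X → X} {ψ : X → X → Circle} (hφ : Flw L φ) (hψ : Coc L ψ) {T : X → ℝ → Circle}
    (hT : Trp L φ ψ T)
    (hj : ∀ P ∈ L, ∀ u0 : ℝ, ∀ᶠ q : ℝ × X in 𝓝 u0 ×ˢ 𝓝[L] P,
      T q.2 q.1 * ψ P q.2 / ψ (φ u0 P) (φ q.1 q.2) = T P u0 * ψ P P / ψ (φ u0 P) (φ u0 P))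
    (hst : ∀ P ∈ L, ∀ u : ℝ, φ u P = P → T P u = 1)
    {κ : X → Y} (hR : RedMap L κ) (hfib : ∀ P ∈ L, ∀ Q ∈ L, κ P = κ Q → ∃ t, φ t P = Q)
    {P : X} (hP : P ∈ L) :
    ∃ W : Set Y, IsOpen W ∧ κ P ∈ W ∧ ∃ f, Frame (L ∩ κ ⁻¹' W) ψ f := by
  classical
  obtain ⟨U, hU, hPU, hfr, hloc⟩ := tube_loc hφ hψ hT hj hst hP
  have hop := hR.op P hP U (mem_nhdsWithin_of_mem_nhds (hU.mem_nhds hPU))
  rw [eventually_nhdsWithin_iff] at hop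
  obtain ⟨W, hWs, hW, hPW⟩ := mem_nhds_iff.1 hop
  have hex : ∀ Q ∈ L ∩ κ ⁻¹' W, ∃ t, φ t Q ∈ U := by
    intro Q hQ
    obtain ⟨Q', hQ', hQ''⟩ := hWs hQ.2 (Set.mem_image_of_mem κ hQ.1)
    obtain ⟨t, ht⟩ := hfib Q hQ.1 Q' hQ'.1 hQ''.symm
    exact ⟨t, ht ▸ hQ'.2⟩
  have hind : ∀ Q ∈ L, ∀ t t' : ℝ, φ t Q ∈ U → φ t' Q ∈ U →
      ψ P (φ t Q) / T Q t = ψ P (φ t' Q) / T Q t' := by
    intro Q hQ t t' ht ht'
    have h1 := Trp.add hφ hT hQ (t' - t) t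
    have h2 : φ (t' - t) (φ t Q) = φ t' Q := by
      rw [← hφ.add, sub_add_cancel]
    have h3 := hloc (φ t Q) ⟨hφ.maps t Q hQ, ht⟩ (t' - t) (by rw [h2]; exact ht')
    rw [sub_add_cancel, h3, h2] at h1
    rw [h1, div_eq_div_iff_mul_eq_mul]
    rw [mul_comm (T Q t), ← mul_assoc, mul_div_cancel]
  refine ⟨W, hW, hPW, fun Q => if h : ∃ t, φ t Q ∈ U then
    ψ P (φ h.choose Q) / T Q h.choose else 1, ?_⟩
  have hval : ∀ Q ∈ L, ∀ t : ℝ, φ t Q ∈ U → (if h : ∃ t, φ t Q ∈ U then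
      ψ P (φ h.choose Q) / T Q h.choose else 1) = ψ P (φ t Q) / T Q t := by
    intro Q hQ t ht
    have h : ∃ t, φ t Q ∈ U := ⟨t, ht⟩
    rw [dif_pos h]
    exact hind Q hQ _ _ h.choose_spec ht
  intro Q0 hQ0
  obtain ⟨t0, ht0⟩ := hex Q0 hQ0
  have hc : Continuous (φ t0) := hφ.cont.comp (Continuous.prodMk_right t0)
  have e1 : ∀ᶠ Q in 𝓝[L ∩ κ ⁻¹' W] Q0, φ t0 Q ∈ U :=
    mem_nhdsWithin_of_mem_nhds (hc.continuousAt.preimage_mem_nhds (hU.mem_nhds ht0))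
  have e0 : ∀ᶠ Q in 𝓝[L ∩ κ ⁻¹' W] Q0, Q ∈ L := by
    filter_upwards [self_mem_nhdsWithin] with Q hQ using hQ.1
  have e2 : ∀ᶠ Q in 𝓝[L ∩ κ ⁻¹' W] Q0, T Q t0 * ψ Q0 Q / ψ (φ t0 Q0) (φ t0 Q) =
      T Q0 t0 * ψ Q0 Q0 / ψ (φ t0 Q0) (φ t0 Q0) := by
    have h1 := hj Q0 hQ0.1 t0
    have h2 : Filter.Tendsto (fun Q : X => (t0, Q)) (𝓝[L ∩ κ ⁻¹' W] Q0)
        (𝓝 t0 ×ˢ 𝓝[L] Q0) :=
      Filter.Tendsto.prodMk tendsto_const_nhds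
        (Filter.tendsto_id.mono_left (nhdsWithin_mono _ Set.inter_subset_left))
    exact h2.eventually h1
  have e3 : ∀ᶠ Q in 𝓝[L ∩ κ ⁻¹' W] Q0,
      ψ P (φ t0 Q) / ψ P (φ t0 Q0) = ψ (φ t0 Q0) (φ t0 Q) / ψ (φ t0 Q0) (φ t0 Q0) := by
    have h1 := hfr (φ t0 Q0) ⟨hφ.maps t0 Q0 hQ0.1, ht0⟩
    have h2 : Filter.Tendsto (φ t0) (𝓝[L ∩ κ ⁻¹' W] Q0) (𝓝[L ∩ U] (φ t0 Q0)) := by
      refine tendsto_nhdsWithin_iff.2 ⟨hc.continuousAt.mono_left nhdsWithin_le_nhds, ?_⟩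
      filter_upwards [e0, e1] with Q hQ hQ' using ⟨hφ.maps t0 Q hQ, hQ'⟩
    exact h2.eventually h1
  filter_upwards [e0, e1, e2, e3] with Q h0 h1 h2 h3
  rw [hval Q h0 t0 h1, hval Q0 hQ0.1 t0 ht0]
  have h4 : ψ P (φ t0 Q) / T Q t0 / (ψ P (φ t0 Q0) / T Q0 t0) =
      (ψ P (φ t0 Q) / ψ P (φ t0 Q0)) * (T Q0 t0 / T Q t0) := by
    rw [div_div_div_eq, div_mul_div_comm, mul_comm (T Q t0)]
  rw [h4, h3]
  rw [div_eq_div_iff_mul_eq_mul] at h2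
  rw [div_mul_div_comm, div_eq_div_iff_mul_eq_mul]
  calc ψ (φ t0 Q0) (φ t0 Q) * T Q0 t0 * ψ Q0 Q0
      = T Q0 t0 * ψ Q0 Q0 * ψ (φ t0 Q0) (φ t0 Q) := by
        rw [mul_assoc, mul_comm]
    _ = T Q t0 * ψ Q0 Q * ψ (φ t0 Q0) (φ t0 Q0) := h2.symm
    _ = ψ Q0 Q * (ψ (φ t0 Q0) (φ t0 Q0) * T Q t0) := by
        rw [mul_comm (T Q t0), mul_assoc, mul_comm (T Q t0)]

end Pool.Agent.H11.CC
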