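import Pool.Agent.H11.CC.Jnt
import Pool.Agent.H11.CC.Tub
import Pool.Agent.H11.CC.Hol
import Pool.Agent.H11.CC.Dsc
import Pool.Agent.H11.CC.DscR
import Pool.Agent.H11.CC.Psh
import Pool.Agent.H11.CC.Rst

/-! Abstract form: circle actions with a fixed point. -/

set_option autoImplicit false

open scoped Topology
open Topology

namespace Pool.Agent.H11.CC

open Pool.Agent.H66.SyL Pool.Agent.H11.SO

theorem circle_main {X Y : Type*} [TopologicalSpace X] [T2Space X] [TopologicalSpace Y]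
    [T2Space Y] {L : Set X} (hc : IsCompact L) (hconn : IsConnected L) (h1 : H1Zero L)
    {φ : ℝ → X → X} (hφ : Flw L φ) {κ : X → Y} (hR : RedMap L κ)
    (hfib : ∀ P ∈ L, ∀ Q ∈ L, κ P = κ Q → ∃ t, φ t P = Q)
    (hj : ∀ (ψ : X → X → Circle) (T : X → ℝ → Circle), Coc L ψ → Trp L φ ψ T →
      ∀ P ∈ L, ∀ u0 : ℝ, ∀ᶠ q : ℝ × X in 𝓝 u0 ×ˢ 𝓝[L] P,
      T q.2 q.1 * ψ P q.2 / ψ (φ u0 P) (φ q.1 q.2) = T P u0 * ψ P P / ψ (φ u0 P) (φ u0 P))
    (hfix : ∃ P ∈ L, ∀ t, φ t P = P)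
    (hstab : ∀ P ∈ L, ∀ u : ℝ, φ u P = P → (∀ t, φ t P = P) ∨ ∃ k : ℤ, 2 * u = 2 * Real.pi * k)
    (hX : ∀ x : κ '' L, DiscAt x ∨ HalfAt x) (hne : ∃ x : κ '' L, HalfAt x)
    {ψ : X → X → Circle} (hψ : Coc L ψ) : ∃ g, Frame L (fun P Q => ψ P Q ^ 2) g := by
  haveI : CompactSpace (κ '' L) := isCompact_iff_compactSpace.mp (hc.image_of_continuousOn hR.cont)
  haveI : ConnectedSpace (κ '' L) :=
    isConnected_iff_connectedSpace.mp (hconn.image _ hR.cont)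
  obtain ⟨T, hT⟩ := exists_trp hφ hψ
  have hst := hol hφ hconn hT (hj ψ T hψ hT) hfix hstab
  refine descent hR (fun P hP => ?_) (fun ψB hB => ?_)
  · exact tube hφ hψ.sq hT.sq (hj _ _ hψ.sq hT.sq) hst hR hfib hP
  · obtain ⟨s, hs, h0⟩ := no_zeros hX hne hB
    exact real_step (h1_red hR h1) hB hs h0

end Pool.Agent.H11.CC
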