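import Mathlib

/-! Approximation by functions with finitely many zeros. -/

set_option autoImplicit false

open scoped Topology
open Topology

namespace Pool.Agent.H11.CC

/-- smooth approximation of a function which is continuous on a compact set -/
private theorem smooth_approx {K : Set ℂ} (hK : IsCompact K) {u : ℂ → ℂ}
    (hu : ContinuousOn u K) {δ : ℝ} (hδ : 0 < δ) :
    ∃ g : ℂ → ℂ, ContDiff ℝ 1 g ∧ ∀ y ∈ K, ‖g y - u y‖ < δ := by
  classical
  set t : ℂ → Set ℂ := fun y => if y ∈ K then Metric.ball (u y) δ else Set.univ with ht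
  have hconv : ∀ y, Convex ℝ (t y) := by
    intro y
    rw [ht]
    by_cases hy : y ∈ K
    · simp only [if_pos hy]
      exact convex_ball _ _
    · simp only [if_neg hy]
      exact convex_univ
  have hloc : ∀ x : ℂ, ∃ c : ℂ, ∀ᶠ y in 𝓝 x, c ∈ t y := by
    intro x
    by_cases hx : x ∈ K
    · refine ⟨u x, ?_⟩
      have h1 : ∀ᶠ y in 𝓝[K] x, u y ∈ Metric.ball (u x) δ :=
        (hu x hx) (Metric.ball_mem_nhds _ hδ)
      rw [eventually_nhdsWithin_iff] at h1
      filter_upwards [h1] with y hy
      rw [ht]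
      by_cases hyK : y ∈ K
      · simp only [if_pos hyK]
        exact Metric.mem_ball_comm.1 (hy hyK)
      · simp only [if_neg hyK]
        exact Set.mem_univ _
    · refine ⟨0, ?_⟩
      filter_upwards [hK.isClosed.isOpen_compl.mem_nhds hx] with y hy
      rw [ht]
      have hyK : y ∉ K := hy
      simp only [if_neg hyK]
      exact Set.mem_univ _
  obtain ⟨g, hg⟩ := exists_contMDiffMap_forall_mem_convex_of_local_const
    (n := (1 : ℕ∞)) (modelWithCornersSelf ℝ ℂ) hconv hloc
  refine ⟨g, contMDiff_iff_contDiff.1 g.contMDiff, fun y hy => ?_⟩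
  have h2 := hg y
  rw [ht] at h2
  simp only [if_pos hy] at h2
  rwa [Metric.mem_ball, dist_eq_norm] at h2

/-- a value which is not critical is attained finitely often on a compact set -/
private theorem finite_fibre {K : Set ℂ} (hK : IsCompact K) {g : ℂ → ℂ} (hg : ContDiff ℝ 1 g)
    {w : ℂ} (hw : ∀ y, g y = w → (fderiv ℝ g y).det ≠ 0) : {y | y ∈ K ∧ g y = w}.Finite := by
  by_contra hinf
  obtain ⟨x, hxK, hx⟩ := Set.Infinite.exists_accPt_of_subset_isCompact hinf hK fun y hy => hy.1
  rw [accPt_iff_frequently_nhdsNE] at hx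
  have hgx : g x = w := by
    by_contra hne
    have h1 : ∀ᶠ y in 𝓝[≠] x, g y ≠ w :=
      (hg.continuous.continuousAt.eventually_ne hne).filter_mono nhdsWithin_le_nhds
    exact hx (h1.mono fun y hy hy' => hy hy'.2)
  have hd : HasFDerivAt g (fderiv ℝ g x) x :=
    (hg.differentiable one_ne_zero x).hasFDerivAt
  have hanti : ∃ C, AntilipschitzWith C (fderiv ℝ g x) := by
    have h2 := ((fderiv ℝ g x).toContinuousLinearEquivOfDetNeZero (hw x hgx)).antilipschitz
    exact ⟨_, h2⟩
  have h3 : ∀ᶠ y in 𝓝[≠] x, g y ≠ w := hd.eventually_ne hanti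
  exact hx (h3.mono fun y hy hy' => hy hy'.2)

/-- Proof: Stone - Weierstrass (or a smooth approximation): a C^1 function g on the plane (a polynomial in z and
conj z) with |g - u| < δ/2 on K. By Sard (addHaar_image_eq_zero_of_det_fderiv_eq_zero on R^2) the set of critical values is
a null set, so there is w, |w| < δ/2, which is not a critical value; q = g - w. The zeros of q are regular points, so
isolated (inverse function theorem), and the zeros in the compact K are finitely many. -/
theorem approx_fin {K : Set ℂ} (hK : IsCompact K) {u : ℂ → ℂ} (hu : ContinuousOn u K) {δ : ℝ}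
    (hδ : 0 < δ) :
    ∃ q : ℂ → ℂ, Continuous q ∧ (∀ y ∈ K, ‖q y - u y‖ < δ) ∧ {y | y ∈ K ∧ q y = 0}.Finite := by
  obtain ⟨g, hg, hgu⟩ := smooth_approx hK hu (half_pos hδ)
  set S : Set ℂ := {x | (fderiv ℝ g x).det = 0} with hS
  have hnull : MeasureTheory.volume (g '' S) = 0 := by
    refine MeasureTheory.addHaar_image_eq_zero_of_det_fderivWithin_eq_zero
      (f' := fun x => fderiv ℝ g x) MeasureTheory.volume ?_ ?_
    · intro x hx
      exact (hg.differentiable one_ne_zero x).hasFDerivAt.hasFDerivWithinAt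
    · intro x hx
      exact hx
  obtain ⟨w, hw, hwS⟩ : ∃ w ∈ Metric.ball (0 : ℂ) (δ / 2), w ∉ g '' S := by
    by_contra hcon
    have h1 : Metric.ball (0 : ℂ) (δ / 2) ⊆ g '' S := fun w hw =>
      by_contra fun hn => hcon ⟨w, hw, hn⟩
    have h2 := MeasureTheory.measure_mono_null h1 hnull
    exact (Metric.measure_ball_pos MeasureTheory.volume (0 : ℂ) (half_pos hδ)).ne' h2
  refine ⟨fun y => g y - w, hg.continuous.sub continuous_const, fun y hy => ?_, ?_⟩
  · have h1 := hgu y hy
    have h2 : ‖w‖ < δ / 2 := by simpa using hw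
    calc ‖g y - w - u y‖ = ‖(g y - u y) - w‖ := by ring_nf
      _ ≤ ‖g y - u y‖ + ‖w‖ := norm_sub_le _ _
      _ < δ := by linarith
  · have h1 := finite_fibre hK hg (w := w) fun y hy h0 => hwS ⟨y, h0, hy⟩
    refine h1.subset fun y hy => ⟨hy.1, ?_⟩
    have h2 : g y - w = 0 := hy.2
    exact sub_eq_zero.1 h2

end Pool.Agent.H11.CC
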