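import Pool.Agent.H11.CC.LDef

/-! From an open embedding of a ball to a chart (pure topology). -/

set_option autoImplicit false

open scoped ContDiff Topology
open Topology

namespace Pool.Agent.H11.CC

private noncomputable def gg (ε : ℝ) (y : ℂ) : ℂ := (ε / (1 + ‖y‖)) • y

private noncomputable def hh (ε : ℝ) (x : ℂ) : ℂ := (1 / (ε - ‖x‖)) • x

private theorem gg_cont (ε : ℝ) : Continuous (gg ε) := by
  unfold gg
  have h1 : Continuous fun y : ℂ => ε / (1 + ‖y‖) := by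
    apply Continuous.div (by fun_prop) (by fun_prop)
    intro x
    positivity
  exact h1.smul continuous_id

private theorem norm_gg {ε : ℝ} (hε : 0 < ε) (y : ℂ) : ‖gg ε y‖ = ε * ‖y‖ / (1 + ‖y‖) := by
  unfold gg
  rw [norm_smul, Real.norm_eq_abs, abs_of_pos (by positivity)]
  ring

private theorem gg_lt {ε : ℝ} (hε : 0 < ε) (y : ℂ) : ‖gg ε y‖ < ε := by
  rw [norm_gg hε y, div_lt_iff₀ (by positivity)]
  nlinarith [norm_nonneg y]

private theorem hh_gg {ε : ℝ} (hε : 0 < ε) (y : ℂ) : hh ε (gg ε y) = y := by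
  unfold hh
  rw [norm_gg hε y]
  unfold gg
  have h1 : (0 : ℝ) < 1 + ‖y‖ := by positivity
  have h2 : ε - ε * ‖y‖ / (1 + ‖y‖) = ε / (1 + ‖y‖) := by
    field_simp
    ring
  rw [h2, smul_smul]
  have h3 : 1 / (ε / (1 + ‖y‖)) * (ε / (1 + ‖y‖)) = 1 := by
    field_simp
  rw [h3, one_smul]

private theorem gg_hh {ε : ℝ} (hε : 0 < ε) {x : ℂ} (hx : ‖x‖ < ε) : gg ε (hh ε x) = x := by
  unfold gg hh
  have h1 : 0 < ε - ‖x‖ := by linarith
  rw [norm_smul, Real.norm_eq_abs, abs_of_pos (by positivity)]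
  have h2 : 1 + 1 / (ε - ‖x‖) * ‖x‖ = ε / (ε - ‖x‖) := by
    field_simp
    ring
  rw [h2, smul_smul]
  have h3 : ε / (ε / (ε - ‖x‖)) * (1 / (ε - ‖x‖)) = 1 := by
    field_simp
  rw [h3, one_smul]

private theorem gg_mem {ε : ℝ} (hε : 0 < ε) {M : Set ℂ} (hM : M = Set.univ ∨ M = Hp) {y : ℂ}
    (hy : y ∈ M) : gg ε y ∈ Metric.ball 0 ε ∩ M := by
  refine ⟨by rw [mem_ball_zero_iff]; exact gg_lt hε y, ?_⟩
  rcases hM with rfl | rfl
  · exact Set.mem_univ _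
  · show 0 ≤ (gg ε y).im
    have h1 : 0 ≤ y.im := hy
    unfold gg
    rw [Complex.smul_im, smul_eq_mul]
    positivity

private theorem hh_mem {ε : ℝ} {M : Set ℂ} (hM : M = Set.univ ∨ M = Hp) {x : ℂ}
    (hx : x ∈ Metric.ball 0 ε ∩ M) : hh ε x ∈ M := by
  rcases hM with rfl | rfl
  · exact Set.mem_univ _
  · show 0 ≤ (hh ε x).im
    have h1 : 0 ≤ x.im := hx.2
    have h2 : 0 < ε - ‖x‖ := by
      have := mem_ball_zero_iff.1 hx.1
      linarith
    unfold hh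
    rw [Complex.smul_im, smul_eq_mul]
    positivity

private theorem nhd {ε : ℝ} (hε : 0 < ε) (y : ℂ) {U : Set ℂ} (hU : U ∈ 𝓝 y) :
    {x : ℂ | hh ε x ∈ U} ∈ 𝓝 (gg ε y) := by
  have h2 : ContinuousAt (hh ε) (gg ε y) := by
    unfold hh
    have h1 : ContinuousAt (fun x : ℂ => 1 / (ε - ‖x‖)) (gg ε y) := by
      apply ContinuousAt.div (by fun_prop) (by fun_prop)
      have := gg_lt hε y
      linarith
    exact h1.smul continuousAt_id
  have h3 : (hh ε) ⁻¹' U ∈ 𝓝 (gg ε y) := by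
    apply h2
    rw [hh_gg hε y]
    exact hU
  exact h3

/-- Compare ST/ArcA.lean arc_of. Proof: the chart is y -> c (ε / (1 + |y|) y); y -> ε / (1 + |y|) y is a homeomorphism
of the plane onto the ball (inverse x -> x / (ε - |x|)) which preserves the closed upper half plane. -/
theorem chart_of {Y : Type*} [TopologicalSpace Y] (K : Set Y) {M : Set ℂ}
    (hM : M = Set.univ ∨ M = Hp) {ε : ℝ} (hε : 0 < ε) (c : ℂ → Y)
    (hm : ∀ y ∈ Metric.ball 0 ε ∩ M, c y ∈ K) (hc : ContinuousOn c (Metric.ball 0 ε ∩ M))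
    (hi : Set.InjOn c (Metric.ball 0 ε ∩ M))
    (ho : ∀ y ∈ Metric.ball 0 ε ∩ M, ∀ V ∈ 𝓝 y, ∀ᶠ w in 𝓝[K] (c y),
      ∃ x ∈ V ∩ (Metric.ball 0 ε ∩ M), c x = w)
    (w : K) (hw : (w : Y) = c 0) : ∃ ch : Ch K, ch.M = M ∧ ch.c 0 = w := by
  classical
  let d : ℂ → K := fun y => if h : c (gg ε y) ∈ K then ⟨c (gg ε y), h⟩ else w
  have hd : ∀ y, c (gg ε y) ∈ K → (d y : Y) = c (gg ε y) := by
    intro y h
    show ((if h : c (gg ε y) ∈ K then (⟨c (gg ε y), h⟩ : K) else w : K) : Y) = _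
    rw [dif_pos h]
  have hdM : ∀ y ∈ M, (d y : Y) = c (gg ε y) := fun y hy => hd y (hm _ (gg_mem hε hM hy))
  have hcont : ContinuousOn d M := by
    rw [IsInducing.subtypeVal.continuousOn_iff]
    have h1 : ContinuousOn (fun y => c (gg ε y)) M :=
      hc.comp (gg_cont ε).continuousOn (fun y hy => gg_mem hε hM hy)
    exact h1.congr hdM
  have hinj : Set.InjOn d M := by
    intro y hy y' hy' h
    have h1 : c (gg ε y) = c (gg ε y') := by
      rw [← hdM y hy, ← hdM y' hy', h]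
    have h2 := hi (gg_mem hε hM hy) (gg_mem hε hM hy') h1
    rw [← hh_gg hε y, ← hh_gg hε y', h2]
  have hop : ∀ U : Set ℂ, IsOpen U → IsOpen (d '' (U ∩ M)) := by
    intro U hU
    rw [isOpen_iff_mem_nhds]
    rintro _ ⟨y, ⟨hyU, hyM⟩, rfl⟩
    have h1 := ho (gg ε y) (gg_mem hε hM hyM) _ (nhd hε y (hU.mem_nhds hyU))
    rw [nhdsWithin_eq_map_subtype_coe (hm _ (gg_mem hε hM hyM)), Filter.eventually_map] at h1
    have h2 : (⟨c (gg ε y), hm _ (gg_mem hε hM hyM)⟩ : K) = d y :=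
      Subtype.ext (hdM y hyM).symm
    rw [h2] at h1
    filter_upwards [h1] with z hz
    obtain ⟨x, ⟨hxU, hxM⟩, hxz⟩ := hz
    refine ⟨hh ε x, ⟨hxU, hh_mem hM hxM⟩, ?_⟩
    apply Subtype.ext
    rw [hdM _ (hh_mem hM hxM), gg_hh hε (mem_ball_zero_iff.1 hxM.1), hxz]
  refine ⟨⟨M, d, hM, hcont, hinj, hop⟩, rfl, ?_⟩
  apply Subtype.ext
  have h0 : gg ε 0 = 0 := by
    unfold gg
    rw [smul_zero]
  show (d 0 : Y) = (w : Y)
  rw [hd 0 (by rw [h0, ← hw]; exact w.2), h0, hw]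

end Pool.Agent.H11.CC
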