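import Pool.Agent.H11.CC.ChtO

/-! A slice which meets every orbit in a pair of opposite points gives a disc chart of the quotient
(pure topology). -/

set_option autoImplicit false

open scoped ContDiff Topology
open Topology

namespace Pool.Agent.H11.CC

open Pool.Agent.H66.SyL Pool.Agent.H11.ST Pool.Agent.H11.SO

private noncomputable def sq (y : ℂ) : ℂ := y ^ ((2 : ℕ) : ℂ)⁻¹

private theorem sq_sq (y : ℂ) : sq y ^ 2 = y := Complex.cpow_nat_inv_pow y two_ne_zero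

private theorem sq_norm (y : ℂ) : ‖sq y‖ ^ 2 = ‖y‖ := by
  rw [← norm_pow, sq_sq]

private theorem sq_near (y x : ℂ) :
    ∃ z : ℂ, (z = sq y ∨ z = -sq y) ∧ ‖z - x‖ ^ 2 ≤ ‖y - x ^ 2‖ := by
  have h : (sq y - x) * (sq y + x) = y - x ^ 2 := by
    have h1 : (sq y - x) * (sq y + x) = sq y ^ 2 - x ^ 2 := by ring
    rw [h1, sq_sq]
  have hn : ‖sq y - x‖ * ‖sq y + x‖ = ‖y - x ^ 2‖ := by
    rw [← norm_mul, h]
  rcases le_total ‖sq y - x‖ ‖sq y + x‖ with h1 | h1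
  · refine ⟨sq y, Or.inl rfl, ?_⟩
    rw [← hn, pow_two]
    exact mul_le_mul_of_nonneg_left h1 (norm_nonneg _)
  · refine ⟨-sq y, Or.inr rfl, ?_⟩
    have h2 : ‖-sq y - x‖ = ‖sq y + x‖ := by
      rw [← norm_neg]
      congr 1
      ring
    rw [← hn, pow_two, h2]
    exact mul_le_mul_of_nonneg_right h1 (norm_nonneg _)

/-- Compare DFr.lean. Proof: σ = K.σ is continuous at 0, σ 0 = P, so there is 0 < δ' ≤ K.δ with g (σ y) in K.O for |y| < δ';
f (g (σ y)) = (-y.1, y.2), so g (σ (x, 0)) = σ (-x, 0) for |x| < δ' and F x = κ (σ (x, 0)) is even; by hinj F x = F x' only for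
x' = x or x' = -x. chart_of with M = univ, ε = δ'^2, c y = F (sqrt y), sqrt any function with (sqrt y)^2 = y (then |sqrt y|^2 = |y|).
Continuity and openness of c: the map x -> x^2 is open, so near y0 = x0^2 every y is x^2 with x near x0, and c y = F x.
Open: hrot, hR.op as in DFr.lean. -/
theorem disc_two {X Y : Type*} [TopologicalSpace X] [TopologicalSpace Y] {L : Set X} {κ : X → Y}
    (hR : RedMap L κ) {f : X → ℂ × ℝ} (hf : Continuous f) {P : X} (hP : P ∈ L) (hf0 : f P = 0)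
    (K : Crd L f P) {g : X → X} (hg : Continuous g) (hgL : ∀ Q ∈ L, g Q ∈ L) (hgP : g P = P)
    (hgf : ∀ Q, f (g Q) = (-(f Q).1, (f Q).2)) (hgκ : ∀ Q, κ (g Q) = κ Q)
    (hinj : ∀ Q ∈ L ∩ K.O, ∀ Q' ∈ L ∩ K.O, (f Q).2 = 0 → (f Q').2 = 0 → κ Q = κ Q' →
      Q' = Q ∨ Q' = g Q)
    (hrot : ∀ R ∈ L ∩ K.O, (f R).2 = 0 → ∀ V ∈ 𝓝 R, ∀ᶠ Q in 𝓝[L] R, ∃ Q' ∈ L ∩ V,
      (f Q').2 = 0 ∧ κ Q' = κ Q)
    (w : κ '' L) (hw : (w : Y) = κ P) : DiscAt w := by
  have h0 : (0 : ℂ × ℝ) ∈ Metric.ball (0 : ℂ × ℝ) K.δ := Metric.mem_ball_self K.δ_pos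
  have hσ0 : K.σ 0 = P := by
    have := (K.bwd P ⟨hP, K.mem⟩).2
    rwa [hf0] at this
  -- δ'
  have hcont0 : ContinuousAt K.σ 0 := K.cont.continuousAt (Metric.isOpen_ball.mem_nhds h0)
  have hnb : ∀ᶠ y in 𝓝 (0 : ℂ × ℝ), g (K.σ y) ∈ K.O := by
    have h1 : ContinuousAt (fun y => g (K.σ y)) 0 := hg.continuousAt.comp hcont0
    apply h1
    simp only [hσ0, hgP]
    exact K.openO.mem_nhds K.mem
  obtain ⟨d1, hd1, hd1'⟩ := Metric.eventually_nhds_iff_ball.1 hnb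
  obtain ⟨d, hd, hdK, hdg⟩ : ∃ d : ℝ, 0 < d ∧ d ≤ K.δ ∧ ∀ y ∈ Metric.ball (0 : ℂ × ℝ) d,
      g (K.σ y) ∈ K.O :=
    ⟨min d1 K.δ, lt_min hd1 K.δ_pos, min_le_right _ _, fun y hy =>
      hd1' y (Metric.ball_subset_ball (min_le_left _ _) hy)⟩
  -- the plane slice
  have hball : ∀ x : ℂ, ‖x‖ < d → ((x, 0) : ℂ × ℝ) ∈ Metric.ball (0 : ℂ × ℝ) d := by
    intro x hx
    rw [mem_ball_zero_iff, Prod.norm_def]
    simp only [norm_zero]
    exact max_lt hx hd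
  have hballK : ∀ x : ℂ, ‖x‖ < d → ((x, 0) : ℂ × ℝ) ∈ Metric.ball (0 : ℂ × ℝ) K.δ := fun x hx =>
    Metric.ball_subset_ball hdK (hball x hx)
  have hgσ : ∀ x : ℂ, ‖x‖ < d → g (K.σ (x, 0)) = K.σ (-x, 0) := by
    intro x hx
    have h1 := K.fwd _ (hballK x hx)
    have h2 := K.bwd (g (K.σ (x, 0))) ⟨hgL _ h1.1.1, hdg _ (hball x hx)⟩
    rw [hgf, h1.2] at h2
    exact h2.2.symm
  set F : ℂ → Y := fun x => κ (K.σ (x, 0)) with hF
  have heven : ∀ x : ℂ, ‖x‖ < d → F (-x) = F x := by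
    intro x hx
    simp only [hF]
    rw [← hgσ x hx, hgκ]
  have hFinj : ∀ x x' : ℂ, ‖x‖ < d → ‖x'‖ < d → F x = F x' → x' = x ∨ x' = -x := by
    intro x x' hx hx' h
    have h1 := K.fwd _ (hballK x hx)
    have h2 := K.fwd _ (hballK x' hx')
    rcases hinj _ h1.1 _ h2.1 (by rw [h1.2]) (by rw [h2.2]) h with h3 | h3
    · left
      have := congrArg f h3
      rw [h1.2, h2.2] at this
      exact congrArg Prod.fst this
    · right
      have := congrArg f h3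
      rw [hgf, h1.2, h2.2] at this
      exact congrArg Prod.fst this
  have hFcont : ∀ x : ℂ, ‖x‖ < d → ContinuousAt F x := by
    intro x hx
    have h1 : ContinuousAt (fun x : ℂ => K.σ (x, 0)) x := by
      have h2 : ContinuousAt K.σ (x, 0) :=
        K.cont.continuousAt (Metric.isOpen_ball.mem_nhds (hballK x hx))
      exact ContinuousAt.comp (f := fun x : ℂ => ((x, 0) : ℂ × ℝ)) h2 (by fun_prop)
    have h3 : Filter.Tendsto (fun x : ℂ => K.σ (x, 0)) (𝓝 x) (𝓝[L] (K.σ (x, 0))) := by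
      rw [tendsto_nhdsWithin_iff]
      refine ⟨h1, ?_⟩
      have h4 : ∀ᶠ x' : ℂ in 𝓝 x, ‖x'‖ < d := by
        exact continuous_norm.continuousAt.eventually_lt continuousAt_const hx
      filter_upwards [h4] with x' hx'
      exact (K.fwd _ (hballK x' hx')).1.1
    exact (hR.cont _ (K.fwd _ (hballK x hx)).1.1).tendsto.comp h3
  have hsq : ∀ y : ℂ, ‖y‖ < d ^ 2 → ‖sq y‖ < d := by
    intro y hy
    rw [← sq_norm y] at hy
    exact lt_of_pow_lt_pow_left₀ 2 hd.le hy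
  have hFs : ∀ y z : ℂ, ‖y‖ < d ^ 2 → (z = sq y ∨ z = -sq y) → F z = F (sq y) := by
    intro y z hy hz
    rcases hz with rfl | rfl
    · rfl
    · exact heven _ (hsq y hy)
  refine chart_of (κ '' L) (M := Set.univ) (Or.inl rfl) (ε := d ^ 2) (by positivity)
    (fun y => F (sq y)) ?_ ?_ ?_ ?_ w ?_
  · intro y hy
    have hy' : ‖y‖ < d ^ 2 := by simpa using hy.1
    exact ⟨_, (K.fwd _ (hballK _ (hsq y hy'))).1.1, rfl⟩
  · intro y0 hy0
    have hy' : ‖y0‖ < d ^ 2 := by simpa using hy0.1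
    apply ContinuousAt.continuousWithinAt
    intro V hV
    have hc := hFcont (sq y0) (hsq y0 hy')
    have hpre : F ⁻¹' V ∈ 𝓝 (sq y0) := hc hV
    obtain ⟨r, hr, hr'⟩ := Metric.mem_nhds_iff.1 hpre
    have hn1 : ∀ᶠ y : ℂ in 𝓝 y0, ‖y‖ < d ^ 2 :=
      continuous_norm.continuousAt.eventually_lt continuousAt_const hy'
    have hn2 : ∀ᶠ y : ℂ in 𝓝 y0, ‖y - y0‖ < r ^ 2 := by
      have : Filter.Tendsto (fun y : ℂ => ‖y - y0‖) (𝓝 y0) (𝓝 0) := by
        have h3 : ContinuousAt (fun y : ℂ => ‖y - y0‖) y0 := by fun_prop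
        simpa [ContinuousAt] using h3
      exact this.eventually (gt_mem_nhds (by positivity))
    rw [Filter.mem_map]
    filter_upwards [hn1, hn2] with y h3 h4
    obtain ⟨z, hz, hz'⟩ := sq_near y (sq y0)
    rw [sq_sq] at hz'
    have h5 : ‖z - sq y0‖ < r := lt_of_pow_lt_pow_left₀ 2 hr.le (lt_of_le_of_lt hz' h4)
    have h6 : F z ∈ V := hr' (by rw [mem_ball_iff_norm]; exact h5)
    simp only [Set.mem_preimage]
    rwa [← hFs y z h3 hz]
  · intro y hy y' hy' h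
    have hy1 : ‖y‖ < d ^ 2 := by simpa using hy.1
    have hy2 : ‖y'‖ < d ^ 2 := by simpa using hy'.1
    have h3 := hFinj _ _ (hsq y hy1) (hsq y' hy2) h
    rw [← sq_sq y, ← sq_sq y']
    rcases h3 with h3 | h3
    · rw [h3]
    · rw [h3]
      ring
  · intro y hy V hV
    have hy1 : ‖y‖ < d ^ 2 := by simpa using hy.1
    have hb := hballK _ (hsq y hy1)
    have hR1 := K.fwd _ hb
    set R : X := K.σ (sq y, 0) with hRd
    have hfR : f R = (sq y, 0) := hR1.2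
    have hV' : {Q : X | ((f Q).1) ^ 2 ∈ V ∩ Metric.ball 0 (d ^ 2)} ∩ K.O ∈ 𝓝 R := by
      refine Filter.inter_mem ?_ (K.openO.mem_nhds hR1.1.2)
      have hc : ContinuousAt (fun Q : X => ((f Q).1) ^ 2) R := by fun_prop
      have hval : (f R).1 ^ 2 = y := by rw [hfR, sq_sq]
      apply hc
      simp only [hval]
      exact Filter.inter_mem hV (Metric.isOpen_ball.mem_nhds hy.1)
    have h3 := hrot R hR1.1 (by rw [hfR]) _ hV'
    have h4 := hR.op R hR1.1.1 _ h3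
    filter_upwards [h4] with v hv
    obtain ⟨Q, ⟨hQL, Q', ⟨hQ'L, hQ'V, hQ'O⟩, hQ'0, hQ'κ⟩, hQv⟩ := hv
    refine ⟨((f Q').1) ^ 2, ⟨hQ'V.1, hQ'V.2, trivial⟩, ?_⟩
    have h5 : ‖((f Q').1) ^ 2‖ < d ^ 2 := by simpa using hQ'V.2
    have h6 : ‖(f Q').1‖ < d := by
      rw [norm_pow] at h5
      exact lt_of_pow_lt_pow_left₀ 2 hd.le h5
    have h7 : (f Q').1 = sq (((f Q').1) ^ 2) ∨ (f Q').1 = -sq (((f Q').1) ^ 2) := by
      apply sq_eq_sq_iff_eq_or_eq_neg.1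
      rw [sq_sq]
    have h8 := hFs _ _ h5 h7
    rw [← h8, ← hQv, ← hQ'κ]
    simp only [hF]
    congr 1
    have h9 := (K.bwd Q' ⟨hQ'L, hQ'O⟩).2
    rw [← h9]
    congr 1
    rw [h9]
    exact Prod.ext rfl hQ'0.symm
  · have h3 : sq 0 = 0 := by
      have := sq_sq 0
      exact pow_eq_zero_iff two_ne_zero |>.1 this
    simp only [hF, h3]
    rw [hw]
    exact congrArg κ hσ0.symm

end Pool.Agent.H11.CC
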