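import Pool.Agent.H11.CC.EntC

/-! Fixed points and stabilisers. -/

set_option autoImplicit false

open scoped ContDiff Topology
open Topology

namespace Pool.Agent.H11.CC

open Pool.Agent.H66.SyL Pool.Agent.H11.ST Pool.Agent.H11.SO

variable {b : Bas} {L : Set (Op 3)}

/-- Proof: P = pt z, |z_3| = |z_0| = 0 (eq03), so z_1 or z_2 is not 0 (sum_sq). -/
theorem fixed_data (hC : Circ b L) {P : Op 3} (hP : P ∈ L) (h0 : ent b P 0 0 = 0) :
    (∀ j, ent b P 0 j = 0 ∧ ent b P j 0 = 0 ∧ ent b P 3 j = 0 ∧ ent b P j 3 = 0) ∧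
      (ent b P 1 1 ≠ 0 ∨ ent b P 2 2 ≠ 0) := by
  obtain ⟨z, hz, rfl⟩ := hC.unit P hP
  have h3 := hC.eq03 z hz hP
  have hz0 : inner ℂ (b 0) z = 0 := by
    rw [ent_pt, Complex.mul_conj, Complex.ofReal_eq_zero] at h0
    exact Complex.normSq_eq_zero.1 h0
  have hz3 : inner ℂ (b 3) z = 0 := by
    rw [hz0, norm_zero] at h3
    exact norm_eq_zero.1 h3.symm
  refine ⟨fun j => ?_, ?_⟩
  · simp only [ent_pt, hz0, hz3, zero_mul, map_zero, mul_zero, and_self]
  · by_contra hcon
    rw [not_or, not_not, not_not] at hcon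
    obtain ⟨h1, h2⟩ := hcon
    rw [ent_pt, Complex.mul_conj, Complex.ofReal_eq_zero] at h1 h2
    have hs := sum_sq b hz
    rw [hz0, hz3, Complex.normSq_eq_zero.1 h1, Complex.normSq_eq_zero.1 h2, norm_zero] at hs
    norm_num at hs

/-- Proof: eq_of_ent, ent_rt, fixed_data -/
theorem fixed_of (hC : Circ b L) {P : Op 3} (hP : P ∈ L) (h0 : ent b P 0 0 = 0) (t : ℝ) :
    rt b t P = P := by
  have hd := (fixed_data hC hP h0).1
  have key : ∀ i j : Fin (3 + 1), wc i = 0 → wc j = 0 →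
      Complex.exp ((((wc i - wc j) * t : ℝ) : ℂ) * Complex.I) * ent b P i j = ent b P i j := by
    intro i j hi hj
    rw [hi, hj, sub_zero, zero_mul, Complex.ofReal_zero, zero_mul, Complex.exp_zero, one_mul]
  refine eq_of_ent b fun i j => ?_
  rw [ent_rt]
  by_cases hi0 : i = 0
  · rw [hi0, (hd j).1, mul_zero]
  by_cases hi3 : i = 3
  · rw [hi3, (hd j).2.2.1, mul_zero]
  by_cases hj0 : j = 0
  · rw [hj0, (hd i).2.1, mul_zero]
  by_cases hj3 : j = 3
  · rw [hj3, (hd i).2.2.2, mul_zero]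
  have hw : ∀ i : Fin (3 + 1), i ≠ 0 → i ≠ 3 → wc i = 0 := by
    intro i h0 h3
    fin_cases i
    · exact absurd rfl h0
    · rfl
    · rfl
    · exact absurd rfl h3
  exact key i j (hw i hi0 hi3) (hw j hj0 hj3)

/-- Proof: P = pt z, z_0 ≠ 0 and |z_3| = |z_0|, so ent 0 3 ≠ 0; for j in {1, 2}: ent 0 j = 0 iff z_j = 0 -/
theorem free_data (hC : Circ b L) {P : Op 3} (hP : P ∈ L) (h0 : ent b P 0 0 ≠ 0) :
    ent b P 0 3 ≠ 0 ∧ (ent b P 0 1 ≠ 0 ∨ ent b P 0 2 ≠ 0 ∨
      (∀ j, ent b P 1 j = 0 ∧ ent b P j 1 = 0 ∧ ent b P 2 j = 0 ∧ ent b P j 2 = 0)) := by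
  obtain ⟨z, hz, rfl⟩ := hC.unit P hP
  have h3 := hC.eq03 z hz hP
  have hz0 : inner ℂ (b 0) z ≠ 0 := by
    intro h
    apply h0
    rw [ent_pt, h, zero_mul]
  have hz3 : inner ℂ (b 3) z ≠ 0 := by
    intro h
    rw [h, norm_zero] at h3
    exact hz0 (norm_eq_zero.1 h3)
  have hne : ∀ {u v : ℂ}, u ≠ 0 → v ≠ 0 → u * (starRingEnd ℂ) v ≠ 0 := fun hu hv =>
    mul_ne_zero hu fun h => hv ((map_eq_zero _).1 h)
  refine ⟨?_, ?_⟩
  · rw [ent_pt]
    exact hne hz0 hz3
  · by_cases h1 : inner ℂ (b 1) z = 0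
    · by_cases h2 : inner ℂ (b 2) z = 0
      · right
        right
        intro j
        simp only [ent_pt, h1, h2, zero_mul, map_zero, mul_zero, and_self]
      · right
        left
        rw [ent_pt]
        exact hne hz0 h2
    · left
      rw [ent_pt]
      exact hne hz0 h1

private theorem exp_one_real {x : ℝ} {e : ℂ} (he : e ≠ 0)
    (h : Complex.exp ((x : ℂ) * Complex.I) * e = e) : ∃ k : ℤ, x = 2 * Real.pi * k := by
  have h1 : Complex.exp ((x : ℂ) * Complex.I) = 1 := by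
    have h2 : Complex.exp ((x : ℂ) * Complex.I) * e = 1 * e := by rw [h, one_mul]
    exact mul_right_cancel₀ he h2
  obtain ⟨k, hk⟩ := Complex.exp_eq_one_iff.1 h1
  refine ⟨k, ?_⟩
  have h3 : (x : ℂ) * Complex.I = ((2 * Real.pi * k : ℝ) : ℂ) * Complex.I := by
    rw [hk]
    push_cast
    ring
  have h4 := mul_right_cancel₀ Complex.I_ne_zero h3
  exact_mod_cast h4

/-- Proof: if ent b P 0 0 = 0, fixed_of; otherwise ent b P 0 3 ≠ 0 and ent_rt gives exp (2 i u) = 1. -/
theorem stab_c (hC : Circ b L) : ∀ P ∈ L, ∀ u : ℝ, rt b u P = P →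
    (∀ t, rt b t P = P) ∨ ∃ k : ℤ, 2 * u = 2 * Real.pi * k := by
  intro P hP u hu
  by_cases h0 : ent b P 0 0 = 0
  · left
    exact fixed_of hC hP h0
  · right
    have h1 := (free_data hC hP h0).1
    have h2 := ent_rt b u P 0 3
    rw [hu] at h2
    have h3 : ((wc 0 - wc 3) * u : ℝ) = 2 * u := by
      have : wc 0 - wc 3 = 2 := by
        show (1 : ℝ) - (-1) = 2
        norm_num
      rw [this]
    rw [h3] at h2
    exact exp_one_real h1 h2.symm

/-- Proof: if ent b P 0 0 = 0, fixed_of; if ent b P 0 j ≠ 0, j = 1 or 2, ent_rt gives exp (i u) = 1; in the last case of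
free_data all entries of kc b P are 0 and stab_c. -/
theorem stab2 (hC : Circ b L) : ∀ P ∈ L, ∀ u : ℝ, rt b u P = P →
    (∀ t, rt b t P = P) ∨ (∃ k : ℤ, u = 2 * Real.pi * k) ∨
      (kc b P = 0 ∧ ∃ k : ℤ, 2 * u = 2 * Real.pi * k) := by
  intro P hP u hu
  by_cases h0 : ent b P 0 0 = 0
  · left
    exact fixed_of hC hP h0
  · right
    have key : ∀ j : Fin (3 + 1), wc j = 0 → ent b P 0 j ≠ 0 → ∃ k : ℤ, u = 2 * Real.pi * k := by
      intro j hj he
      have h2 := ent_rt b u P 0 j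
      rw [hu] at h2
      have h3 : ((wc 0 - wc j) * u : ℝ) = u := by
        rw [hj]
        show ((1 : ℝ) - 0) * u = u
        ring
      rw [h3] at h2
      exact exp_one_real he h2.symm
    rcases (free_data hC hP h0).2 with h1 | h1 | h1
    · left
      exact key 1 rfl h1
    · left
      exact key 2 rfl h1
    · rcases stab_c hC P hP u hu with h4 | h4
      · exfalso
        have h5 := free_data hC hP h0
        have h6 := h4 (Real.pi / 2)
        have h7 := ent_rt b (Real.pi / 2) P 0 3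
        rw [h6] at h7
        obtain ⟨k, hk⟩ := exp_one_real h5.1 h7.symm
        have h8 : wc 0 - wc 3 = 2 := by
          show (1 : ℝ) - (-1) = 2
          norm_num
        rw [h8] at hk
        have h9 : (2 : ℝ) * k = 1 := by
          have h10 : Real.pi * (2 * k) = Real.pi * 1 := by
            linarith
          exact mul_left_cancel₀ Real.pi_ne_zero h10
        have h11 : (2 : ℤ) * k = 1 := by exact_mod_cast h9
        omega
      · right
        refine ⟨?_, h4⟩
        funext i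
        fin_cases i
        · exact (h1 1).1
        · exact (h1 2).1
        · exact (h1 2).2.2.1
        · show ent b P 0 1 * ent b P 3 1 = 0
          rw [(h1 0).2.1, zero_mul]
        · show ent b P 0 1 * ent b P 3 2 = 0
          rw [(h1 0).2.1, zero_mul]
        · show ent b P 0 2 * ent b P 3 2 = 0
          rw [(h1 0).2.2.2, zero_mul]

end Pool.Agent.H11.CC
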