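import Pool.Agent.H11.CC.FibC
import Pool.Agent.H11.SO.OpG

/-! kc is a reduced map. -/

set_option autoImplicit false

open scoped ContDiff Topology
open Topology

namespace Pool.Agent.H11.CC

open Pool.Agent.H66.SyL Pool.Agent.H11.ST Pool.Agent.H11.SO

variable {b : Bas} {L : Set (Op 3)}

/-- Compare SO/RedO.lean. Proof: path: fib_c, γ s = rt b (s t) P. op: open_of_trans with g = rt b t. -/
theorem red_c (hc : IsCompact L) (hC : Circ b L) : RedMap L (kc b) := by
  have hcr : ∀ P, Continuous fun s : ℝ => rt b s P := by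
    intro P
    have h1 : Continuous fun _ : ℝ => P := continuous_const
    have h2 : Continuous fun s : ℝ => s := continuous_id
    have hq : Continuous fun s : ℝ => ((s, P) : ℝ × Op 3) := h2.prodMk h1
    have h := (continuous_rt b).comp hq
    exact h
  have hcP : ∀ t : ℝ, Continuous (rt b t) := by
    intro t
    have h1 : Continuous fun _ : Op 3 => t := continuous_const
    have h2 : Continuous fun P : Op 3 => P := continuous_id
    have hq : Continuous fun P : Op 3 => ((t, P) : ℝ × Op 3) := h1.prodMk h2
    have h := (continuous_rt b).comp hq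
    exact h
  refine ⟨(continuous_kc b).continuousOn, ?_, ?_⟩
  · intro P hP Q hQ hPQ
    obtain ⟨t, ht⟩ := fib_c hC P hP Q hQ hPQ
    refine ⟨fun s => rt b (s * t) P, ?_, ?_, ?_, ?_⟩
    · exact (hcr P).comp (continuous_id.mul continuous_const)
    · show rt b (0 * t) P = P
      rw [zero_mul, rt_zero]
    · show rt b (1 * t) P = Q
      rw [one_mul, ht]
    · intro s
      exact ⟨hC.inv _ P hP, kc_rt b _ P⟩
  · refine open_of_trans hc (continuous_kc b).continuousOn ?_
    intro P hP Q hQ hPQ
    obtain ⟨t, ht⟩ := fib_c hC Q hQ P hP hPQ.symm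
    exact ⟨rt b t, (hcP t).continuousOn, fun R hR => ⟨hC.inv t R hR, kc_rt b t R⟩, ht⟩

end Pool.Agent.H11.CC
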