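import Mathlib

/-! Completing linear functions to coordinates (linear algebra). -/

set_option autoImplicit false

namespace Pool.Agent.H11.CC

private theorem bij_of_inj (F : EuclideanSpace ℝ (Fin 3) →ₗ[ℝ] ℂ × ℝ) (h : ∀ v, F v = 0 → v = 0) :
    Function.Bijective F := by
  have hinj : Function.Injective F := by
    rw [← LinearMap.ker_eq_bot]
    rw [LinearMap.ker_eq_bot']
    exact h
  have hf : Module.finrank ℝ (EuclideanSpace ℝ (Fin 3)) = Module.finrank ℝ (ℂ × ℝ) := by
    rw [Module.finrank_prod, Complex.finrank_real_complex]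
    simp
  exact ⟨hinj, (LinearMap.injective_iff_surjective_of_finrank_eq_finrank hf).1 hinj⟩

/-- Proof: ker (σ o A) in R^3 has dimension 2; an isomorphism m of it with ℂ, extended to W through the injective A
(a continuous left inverse of A, W is a real normed space, the range of A is finite dimensional, so complemented).
Then (ℓ o A, σ o A) is injective, and both sides have dimension 3. -/
theorem compl_a {W : Type*} [NormedAddCommGroup W] [NormedSpace ℝ W] [FiniteDimensional ℝ W]
    (A : EuclideanSpace ℝ (Fin 3) →L[ℝ] W) (hA : Function.Injective A)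
    (σ : EuclideanSpace ℝ (Fin 3) →L[ℝ] ℝ) (hσ : ∃ v, σ v ≠ 0) :
    ∃ ℓ : W →L[ℝ] ℂ, Function.Bijective fun v => ((ℓ (A v), σ v) : ℂ × ℝ) := by
  classical
  obtain ⟨w, hw⟩ := hσ
  have hker : Module.finrank ℝ (LinearMap.ker σ.toLinearMap) = 2 := by
    have h1 := LinearMap.finrank_range_add_finrank_ker σ.toLinearMap
    have h2 : LinearMap.range σ.toLinearMap = ⊤ := by
      rw [LinearMap.range_eq_top]
      apply LinearMap.surjective
      intro h0
      apply hw
      have := congrArg (fun f : EuclideanSpace ℝ (Fin 3) →ₗ[ℝ] ℝ => f w) h0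
      simpa using this
    rw [h2] at h1
    simp at h1
    omega
  obtain ⟨e⟩ : Nonempty (LinearMap.ker σ.toLinearMap ≃ₗ[ℝ] ℂ) := by
    apply FiniteDimensional.nonempty_linearEquiv_of_finrank_eq
    rw [hker, Complex.finrank_real_complex]
  obtain ⟨m, hm⟩ := LinearMap.exists_extend (p := LinearMap.ker σ.toLinearMap) e.toLinearMap
  obtain ⟨g, hg⟩ := LinearMap.exists_leftInverse_of_injective A.toLinearMap
    (LinearMap.ker_eq_bot.2 hA)
  refine ⟨LinearMap.toContinuousLinearMap (m.comp g), ?_⟩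
  have hF := bij_of_inj ((m.comp (g.comp A.toLinearMap)).prod σ.toLinearMap) ?_
  · exact hF
  · intro v hv
    rw [LinearMap.prod_apply, Prod.mk_eq_zero] at hv
    obtain ⟨h1, h2⟩ := hv
    rw [hg] at h1
    have h3 : v ∈ LinearMap.ker σ.toLinearMap := h2
    have h4 : m v = e ⟨v, h3⟩ := by
      have := congrArg (fun f : LinearMap.ker σ.toLinearMap →ₗ[ℝ] ℂ => f ⟨v, h3⟩) hm
      simpa using this
    have h5 : e ⟨v, h3⟩ = 0 := by
      rw [← h4]
      simpa using h1
    have h6 : (⟨v, h3⟩ : LinearMap.ker σ.toLinearMap) = 0 := by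
      exact e.map_eq_zero_iff.1 h5
    exact congrArg Subtype.val h6

/-- Proof: ker A is the line of v0 (σ is injective on ker A), the range of A has dimension 2; ξ = a linear extension
of an isomorphism of range A with ℂ. Then (ξ o A, σ) is injective, and both sides have dimension 3. -/
theorem compl_b {W : Type*} [NormedAddCommGroup W] [NormedSpace ℝ W] [FiniteDimensional ℝ W]
    (A : EuclideanSpace ℝ (Fin 3) →L[ℝ] W) (σ : EuclideanSpace ℝ (Fin 3) →L[ℝ] ℝ)
    (hi : ∀ v, A v = 0 → σ v = 0 → v = 0) {v0 : EuclideanSpace ℝ (Fin 3)} (h0 : A v0 = 0)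
    (h1 : σ v0 ≠ 0) :
    ∃ ξ : W →L[ℝ] ℂ, Function.Bijective fun v => ((ξ (A v), σ v) : ℂ × ℝ) := by
  classical
  have hk1 : Module.finrank ℝ (LinearMap.ker A.toLinearMap) ≤ 1 := by
    have hinj : Function.Injective (σ.toLinearMap.comp (LinearMap.ker A.toLinearMap).subtype) := by
      rw [← LinearMap.ker_eq_bot, LinearMap.ker_eq_bot']
      intro x hx
      apply Subtype.ext
      exact hi _ x.2 hx
    have := LinearMap.finrank_le_finrank_of_injective hinj
    simpa using this
  have hk2 : 0 < Module.finrank ℝ (LinearMap.ker A.toLinearMap) := by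
    rw [Module.finrank_pos_iff_exists_ne_zero]
    refine ⟨⟨v0, h0⟩, ?_⟩
    intro h
    have h' : v0 = 0 := congrArg Subtype.val h
    apply h1
    rw [h']
    simp
  have hr : Module.finrank ℝ (LinearMap.range A.toLinearMap) = 2 := by
    have h2 := LinearMap.finrank_range_add_finrank_ker A.toLinearMap
    simp at h2
    omega
  obtain ⟨e⟩ : Nonempty (LinearMap.range A.toLinearMap ≃ₗ[ℝ] ℂ) := by
    apply FiniteDimensional.nonempty_linearEquiv_of_finrank_eq
    rw [hr, Complex.finrank_real_complex]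
  obtain ⟨ξ, hξ⟩ := LinearMap.exists_extend (p := LinearMap.range A.toLinearMap) e.toLinearMap
  refine ⟨LinearMap.toContinuousLinearMap ξ, ?_⟩
  have hF := bij_of_inj ((ξ.comp A.toLinearMap).prod σ.toLinearMap) ?_
  · exact hF
  · intro v hv
    rw [LinearMap.prod_apply, Prod.mk_eq_zero] at hv
    obtain ⟨h2, h3⟩ := hv
    have h4 : A v ∈ LinearMap.range A.toLinearMap := ⟨v, rfl⟩
    have h5 : ξ (A v) = e ⟨A v, h4⟩ := by
      have := congrArg (fun f : LinearMap.range A.toLinearMap →ₗ[ℝ] ℂ => f ⟨A v, h4⟩) hξ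
      simpa using this
    have h6 : e ⟨A v, h4⟩ = 0 := by
      rw [← h5]
      simpa using h2
    have h7 : (⟨A v, h4⟩ : LinearMap.range A.toLinearMap) = 0 := e.map_eq_zero_iff.1 h6
    exact hi v (congrArg Subtype.val h7) h3

/-- Proof: ker ζ has dimension at least 1, so exactly 1 by hk: ker ζ = line of v0, B v0 ≠ 0; μ with μ (B v0) ≠ 0
(extension of a functional). Then (ζ, μ o B) is injective, and both sides have dimension 3. -/
theorem compl_c {W : Type*} [NormedAddCommGroup W] [NormedSpace ℝ W] [FiniteDimensional ℝ W]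
    (ζ : EuclideanSpace ℝ (Fin 3) →L[ℝ] ℂ) (B : EuclideanSpace ℝ (Fin 3) →L[ℝ] W)
    (hi : ∀ v, ζ v = 0 → B v = 0 → v = 0)
    (hk : ∀ u v, ζ u = 0 → ζ v = 0 → ∃ s t : ℝ, (s ≠ 0 ∨ t ≠ 0) ∧ s • u + t • v = 0) :
    ∃ μ : W →L[ℝ] ℝ, Function.Bijective fun v => ((ζ v, μ (B v)) : ℂ × ℝ) := by
  classical
  obtain ⟨v0, hv0, hz0⟩ : ∃ v0 : EuclideanSpace ℝ (Fin 3), v0 ≠ 0 ∧ ζ v0 = 0 := by
    by_contra hcon
    push Not at hcon
    have hinj : Function.Injective ζ.toLinearMap := by
      rw [← LinearMap.ker_eq_bot, LinearMap.ker_eq_bot']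
      intro v hv
      by_contra hne
      exact hcon v hne hv
    have h2 := LinearMap.finrank_le_finrank_of_injective hinj
    rw [Complex.finrank_real_complex] at h2
    simp at h2
  have hB0 : B v0 ≠ 0 := fun h => hv0 (hi v0 hz0 h)
  obtain ⟨μ, hμ⟩ := SeparatingDual.exists_ne_zero (R := ℝ) hB0
  refine ⟨μ, ?_⟩
  have hF := bij_of_inj (ζ.toLinearMap.prod (μ.toLinearMap.comp B.toLinearMap)) ?_
  · exact hF
  · intro v hv
    rw [LinearMap.prod_apply, Prod.mk_eq_zero] at hv
    obtain ⟨h2, h3⟩ := hv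
    have h2' : ζ v = 0 := h2
    have h3' : μ (B v) = 0 := h3
    obtain ⟨s, t, hst, h4⟩ := hk v0 v hz0 h2'
    have h5 : μ (B (s • v0 + t • v)) = 0 := by rw [h4]; simp
    rw [map_add, map_smul, map_smul, map_add, map_smul, map_smul, h3'] at h5
    simp only [smul_eq_mul, mul_zero, add_zero, mul_eq_zero] at h5
    have hs : s = 0 := by
      rcases h5 with h5 | h5
      · exact h5
      · exact absurd h5 hμ
    have ht : t ≠ 0 := by
      rcases hst with h | h
      · exact absurd hs h
      · exact h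
    rw [hs, zero_smul, zero_add] at h4
    exact (smul_eq_zero.1 h4).resolve_left ht

end Pool.Agent.H11.CC
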