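import Pool.Agent.H11.CC.Drv
import Pool.Agent.H11.CC.Lin

/-! Coordinates at a point with z_1 = z_2 = 0. -/

set_option autoImplicit false

open scoped ContDiff Topology
open Topology

namespace Pool.Agent.H11.CC

open Pool.Agent.H66.SyL Pool.Agent.H11.ST Pool.Agent.H11.SO

variable {b : Bas} {L : Set (Op 3)}

private noncomputable def entR (b : Bas) (i j : Fin (3 + 1)) : Op 3 →L[ℝ] ℂ :=
  ((innerSL ℂ (b i)).comp (ContinuousLinearMap.apply ℂ (E 3) (b j))).restrictScalars ℝ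

private theorem entR_apply (i j : Fin (3 + 1)) (Q : Op 3) : entR b i j Q = ent b Q i j := rfl

/-- the slice function as a real linear map -/
private noncomputable def slR (b : Bas) (P : Op 3) : Op 3 →L[ℝ] ℝ :=
  Complex.imCLM.comp (((ContinuousLinearMap.mul ℝ ℂ).flip
    ((starRingEnd ℂ) (ent b P 0 3))).comp (entR b 0 3))

private theorem slR_apply (P Q : Op 3) : slR b P Q = slC b 3 P Q := rfl

private theorem normSq_coord {w z : ℂ} (h : w * (starRingEnd ℂ) w = z * (starRingEnd ℂ) z) :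
    ‖w‖ = ‖z‖ := by
  rw [Complex.mul_conj, Complex.mul_conj, Complex.ofReal_inj, Complex.normSq_eq_norm_sq,
    Complex.normSq_eq_norm_sq] at h
  exact (sq_eq_sq₀ (norm_nonneg w) (norm_nonneg z)).1 h

/-- the last two coordinates vanish -/
private theorem alg_two {z0 z3 Y0 Y3 : ℂ} (a0 : z0 ≠ 0) (a3 : z3 ≠ 0) (nn : ‖z0‖ = ‖z3‖)
    (hs : (((Y0 * (starRingEnd ℂ) z3 + z0 * (starRingEnd ℂ) Y3)) *
      (starRingEnd ℂ) (z0 * (starRingEnd ℂ) z3)).im = 0)
    (hr : ((starRingEnd ℂ) z0 * Y0).re = ((starRingEnd ℂ) z3 * Y3).re)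
    (hl : (starRingEnd ℂ) z0 * Y0 + (starRingEnd ℂ) z3 * Y3 = 0) : Y0 = 0 ∧ Y3 = 0 := by
  have nn' : Complex.normSq z0 = Complex.normSq z3 := by
    rw [Complex.normSq_eq_norm_sq, Complex.normSq_eq_norm_sq, nn]
  have hN : 0 < Complex.normSq z3 := Complex.normSq_pos.2 a3
  have e1 : ((Y0 * (starRingEnd ℂ) z3 + z0 * (starRingEnd ℂ) Y3)) *
      (starRingEnd ℂ) (z0 * (starRingEnd ℂ) z3) =
      ((Complex.normSq z3 : ℝ) : ℂ) * ((starRingEnd ℂ) z0 * Y0 +
        (starRingEnd ℂ) ((starRingEnd ℂ) z3 * Y3)) := by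
    have h1 : z0 * (starRingEnd ℂ) z0 = ((Complex.normSq z3 : ℝ) : ℂ) := by
      rw [Complex.mul_conj, nn']
    have h2 : z3 * (starRingEnd ℂ) z3 = ((Complex.normSq z3 : ℝ) : ℂ) := by
      rw [Complex.mul_conj]
    simp only [map_mul, Complex.conj_conj]
    linear_combination ((starRingEnd ℂ) z0 * Y0) * h2 + (z3 * (starRingEnd ℂ) Y3) * h1
  rw [e1] at hs
  have him : ((starRingEnd ℂ) z0 * Y0).im = ((starRingEnd ℂ) z3 * Y3).im := by
    have h1 : Complex.normSq z3 * (((starRingEnd ℂ) z0 * Y0).im -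
        ((starRingEnd ℂ) z3 * Y3).im) = 0 := by
      have h2 := hs
      rw [Complex.im_ofReal_mul, Complex.add_im, Complex.conj_im] at h2
      rw [← h2]
      ring
    rcases mul_eq_zero.1 h1 with h | h
    · exact absurd h hN.ne'
    · linarith
  have hA : (starRingEnd ℂ) z0 * Y0 = (starRingEnd ℂ) z3 * Y3 := Complex.ext hr him
  have hB : (starRingEnd ℂ) z3 * Y3 = 0 := by
    rw [hA] at hl
    have : (2 : ℂ) * ((starRingEnd ℂ) z3 * Y3) = 0 := by rw [two_mul]; exact hl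
    exact (mul_eq_zero.1 this).resolve_left two_ne_zero
  refine ⟨?_, ?_⟩
  · rw [hB] at hA
    exact (mul_eq_zero.1 hA).resolve_left (fun h => a0 ((map_eq_zero _).1 h))
  · exact (mul_eq_zero.1 hB).resolve_left (fun h => a3 ((map_eq_zero _).1 h))

/-- Proof: z_1 = z_2 = 0, |z_0| = |z_3| ≠ 0 (Circ.eq03, drv). D = fderiv C.p (C.r P), A v = (ent (D v) 1 0, ent (D v) 2 0) =
(Y_1 conj z_0, Y_2 conj z_0), σ v = Im (ent (D v) 0 3 * conj (ent P 0 3)). If A v = 0 and σ v = 0 then Y_1 = Y_2 = 0, and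
conj z_0 Y_0 + conj z_3 Y_3 = 0, the real parts of conj z_0 Y_0 and conj z_3 Y_3 agree (drv), σ v = 0 says that the imaginary
parts agree (alg_last of ST/SubP.lean), so Y = 0, v = 0. orb_dir: A v0 = 0, σ v0 ≠ 0. compl_b. -/
theorem sub_b (hC : Circ b L) (C : LChart L) {P : Op 3} (hP : P ∈ L ∩ C.U)
    (h1 : ent b P 1 1 = 0) (h2 : ent b P 2 2 = 0) :
    ∃ ξ : ℂ × ℂ →L[ℝ] ℂ, Function.Bijective
      (fderiv ℝ (fun x => ((ξ (ent b (C.p x) 1 0, ent b (C.p x) 2 0), slC b 3 P (C.p x)) : ℂ × ℝ))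
        (C.r P)) := by
  obtain ⟨z, Y, hent, hsum, hD, hleg, -, hY, hre, -⟩ := drv hC C hP
  obtain ⟨v0, hv0⟩ := orb_dir hC C hP
  -- the coordinates
  have z1 : z 1 = 0 := by
    rw [hent, Complex.mul_conj, Complex.ofReal_eq_zero] at h1
    exact Complex.normSq_eq_zero.1 h1
  have z2 : z 2 = 0 := by
    rw [hent, Complex.mul_conj, Complex.ofReal_eq_zero] at h2
    exact Complex.normSq_eq_zero.1 h2
  have nn : ‖z 0‖ = ‖z 3‖ := by
    obtain ⟨w, hw, hwP⟩ := hC.unit P hP.1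
    have e0 : ‖inner ℂ (b 0) w‖ = ‖z 0‖ := by
      apply normSq_coord
      rw [← hent, ← hwP, ent_pt]
    have e3 : ‖inner ℂ (b 3) w‖ = ‖z 3‖ := by
      apply normSq_coord
      rw [← hent, ← hwP, ent_pt]
    rw [← e0, ← e3]
    exact hC.eq03 w hw (by rw [hwP]; exact hP.1)
  have z3 : z 3 ≠ 0 := by
    intro h
    rw [h, norm_zero] at nn
    rw [Fin.sum_univ_four, nn, z1, z2, h] at hsum
    simp at hsum
  have z0 : z 0 ≠ 0 := by
    rw [← norm_ne_zero_iff, nn]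
    exact norm_ne_zero_iff.2 z3
  -- the derivative
  have hbx : C.r P ∈ Metric.ball C.x0 C.δ := C.r_mem P hP
  have hpd : DifferentiableAt ℝ C.p (C.r P) :=
    (C.smooth_p.contDiffAt (Metric.isOpen_ball.mem_nhds hbx)).differentiableAt one_ne_zero
  obtain ⟨D, hDd⟩ : ∃ D : R 3 →L[ℝ] Op 3, D = fderiv ℝ C.p (C.r P) := ⟨_, rfl⟩
  rw [← hDd] at hD hv0
  obtain ⟨A, hA⟩ : ∃ A : R 3 →L[ℝ] ℂ × ℂ, A = ((entR b 1 0).prod (entR b 2 0)).comp D := ⟨_, rfl⟩
  obtain ⟨σ, hσ⟩ : ∃ σ : R 3 →L[ℝ] ℝ, σ = (slR b P).comp D := ⟨_, rfl⟩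
  have hAa : ∀ v, A v = (ent b (D v) 1 0, ent b (D v) 2 0) := by
    intro v
    rw [hA]
    rfl
  have hσa : ∀ v, σ v = (ent b (D v) 0 3 * (starRingEnd ℂ) (ent b P 0 3)).im := by
    intro v
    rw [hσ]
    rfl
  have hi : ∀ v, A v = 0 → σ v = 0 → v = 0 := by
    intro v hv hs
    apply hY
    rw [hAa] at hv
    have c1 : Y v 1 * (starRingEnd ℂ) (z 0) + z 1 * (starRingEnd ℂ) (Y v 0) = 0 := by
      rw [← hD]
      exact congrArg Prod.fst hv
    have c2 : Y v 2 * (starRingEnd ℂ) (z 0) + z 2 * (starRingEnd ℂ) (Y v 0) = 0 := by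
      rw [← hD]
      exact congrArg Prod.snd hv
    have z0' : (starRingEnd ℂ) (z 0) ≠ 0 := fun h => z0 ((map_eq_zero _).1 h)
    rw [z1, zero_mul, add_zero] at c1
    rw [z2, zero_mul, add_zero] at c2
    have y1 : Y v 1 = 0 := (mul_eq_zero.1 c1).resolve_right z0'
    have y2 : Y v 2 = 0 := (mul_eq_zero.1 c2).resolve_right z0'
    have hl := hleg v
    rw [Fin.sum_univ_four, y1, y2, mul_zero, mul_zero, add_zero, add_zero] at hl
    rw [hσa, hD, hent] at hs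
    obtain ⟨y0, y3⟩ := alg_two z0 z3 nn hs (hre v) hl
    funext i
    fin_cases i
    · exact y0
    · exact y1
    · exact y2
    · exact y3
  have hA0 : A v0 = 0 := by
    rw [hAa, hv0, hv0, hent, hent, z1, z2, zero_mul, mul_zero, mul_zero]
    rfl
  have hσ0 : σ v0 ≠ 0 := by
    rw [hσa, hv0, hent]
    have hw : wc 0 - wc 3 = 2 := by
      simp [wc]
      norm_num
    rw [hw]
    have e1 : Complex.I * ((2 : ℝ) : ℂ) * (z 0 * (starRingEnd ℂ) (z 3)) *
        (starRingEnd ℂ) (z 0 * (starRingEnd ℂ) (z 3)) =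
        ((2 * Complex.normSq (z 0 * (starRingEnd ℂ) (z 3)) : ℝ) : ℂ) * Complex.I := by
      push_cast
      rw [← Complex.mul_conj]
      ring
    rw [e1, Complex.im_ofReal_mul, Complex.I_im, mul_one]
    have z3' : (starRingEnd ℂ) (z 3) ≠ 0 := fun h => z3 ((map_eq_zero _).1 h)
    exact mul_ne_zero two_ne_zero (Complex.normSq_pos.2 (mul_ne_zero z0 z3')).ne'
  obtain ⟨ξ, hξ⟩ := compl_b A σ hi hA0 hσ0
  refine ⟨ξ, ?_⟩
  have hf : HasFDerivAt (fun x => ((ξ (ent b (C.p x) 1 0, ent b (C.p x) 2 0),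
      slC b 3 P (C.p x)) : ℂ × ℝ)) ((ξ.comp A).prod σ) (C.r P) := by
    have h3 : HasFDerivAt (fun x => ((ξ.comp ((entR b 1 0).prod (entR b 2 0))).prod (slR b P))
        (C.p x)) ((((ξ.comp ((entR b 1 0).prod (entR b 2 0))).prod (slR b P))).comp
          (fderiv ℝ C.p (C.r P))) (C.r P) :=
      (((ξ.comp ((entR b 1 0).prod (entR b 2 0))).prod (slR b P)).hasFDerivAt).comp _
        hpd.hasFDerivAt
    rw [← hDd] at h3
    rw [hA, hσ]
    exact h3
  rw [hf.fderiv]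
  exact hξ

end Pool.Agent.H11.CC
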