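import Pool.Agent.H11.CC.FibC

/-! Slices of the circle action. -/

set_option autoImplicit false

open scoped ContDiff Topology
open Topology

namespace Pool.Agent.H11.CC

open Pool.Agent.H66.SyL Pool.Agent.H11.ST Pool.Agent.H11.SO

variable {b : Bas} {L : Set (Op 3)}

private theorem wcs0 : wc 0 = 1 := rfl
private theorem wcs1 : wc 1 = 0 := rfl
private theorem wcs2 : wc 2 = 0 := rfl
private theorem wcs3 : wc 3 = -1 := rfl

private theorem exp_arg_mul (x : ℂ) :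
    Complex.exp (((-x.arg : ℝ) : ℂ) * Complex.I) * x = (‖x‖ : ℂ) := by
  have h := Complex.norm_mul_exp_arg_mul_I x
  have h2 : Complex.exp (((-x.arg : ℝ) : ℂ) * Complex.I) * Complex.exp ((x.arg : ℂ) * Complex.I) =
      1 := by
    rw [← Complex.exp_add, Complex.ofReal_neg, neg_mul, neg_add_cancel, Complex.exp_zero]
  calc Complex.exp (((-x.arg : ℝ) : ℂ) * Complex.I) * x
      = Complex.exp (((-x.arg : ℝ) : ℂ) * Complex.I) *
          (‖x‖ * Complex.exp ((x.arg : ℂ) * Complex.I)) := by rw [h]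
    _ = (Complex.exp (((-x.arg : ℝ) : ℂ) * Complex.I) *
          Complex.exp ((x.arg : ℂ) * Complex.I)) * ‖x‖ := by ring
    _ = (‖x‖ : ℂ) := by rw [h2, one_mul]

private theorem ent_mul (t : ℝ) (P Q : Op 3) (j : Fin (3 + 1)) :
    ent b (rt b t Q) 0 j * (starRingEnd ℂ) (ent b P 0 j) =
      Complex.exp ((((wc 0 - wc j) * t : ℝ) : ℂ) * Complex.I) *
        (ent b Q 0 j * (starRingEnd ℂ) (ent b P 0 j)) := by
  rw [ent_rt, mul_assoc]

/-- Proof: a(Q) = ent b Q 0 j * conj (ent b P 0 j) is a positive real number at R; Q' = rt b (-arg (a Q) / m) Q,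
m = wc 0 - wc j (1 or 2), a(Q') = |a(Q)| (ent_rt), arg is continuous near positive numbers, so Q' is near R
(continuous_rt, rt_zero); kc_rt. -/
theorem slc_rot (hC : Circ b L) {j : Fin (3 + 1)} (hj : j ≠ 0) {P R : Op 3} (hR : R ∈ L)
    (hpos : 0 < (ent b R 0 j * (starRingEnd ℂ) (ent b P 0 j)).re) (h0 : slC b j P R = 0)
    {V : Set (Op 3)} (hV : V ∈ 𝓝 R) :
    ∀ᶠ Q in 𝓝[L] R, ∃ Q' ∈ L ∩ V, slC b j P Q' = 0 ∧ kc b Q' = kc b Q := by
  have hm : wc 0 - wc j ≠ 0 := by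
    match j, hj with
    | 0, h => exact absurd rfl h
    | 1, _ => rw [wcs0, wcs1]; norm_num
    | 2, _ => rw [wcs0, wcs2]; norm_num
    | 3, _ => rw [wcs0, wcs3]; norm_num
  have ha : Continuous fun Q : Op 3 => ent b Q 0 j * (starRingEnd ℂ) (ent b P 0 j) :=
    (continuous_ent b 0 j).mul continuous_const
  have harg : ContinuousAt (fun Q : Op 3 =>
      (ent b Q 0 j * (starRingEnd ℂ) (ent b P 0 j)).arg) R :=
    ContinuousAt.comp (f := fun Q : Op 3 => ent b Q 0 j * (starRingEnd ℂ) (ent b P 0 j))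
      (Complex.continuousAt_arg (Or.inl hpos)) ha.continuousAt
  have hF : ContinuousAt (fun Q : Op 3 =>
      rt b (-(ent b Q 0 j * (starRingEnd ℂ) (ent b P 0 j)).arg / (wc 0 - wc j)) Q) R :=
    ContinuousAt.comp (f := fun Q : Op 3 =>
        (-(ent b Q 0 j * (starRingEnd ℂ) (ent b P 0 j)).arg / (wc 0 - wc j), Q))
      (continuous_rt b).continuousAt
      (ContinuousAt.prodMk (harg.neg.div_const _) continuousAt_id)
  have hF0 : rt b (-(ent b R 0 j * (starRingEnd ℂ) (ent b P 0 j)).arg / (wc 0 - wc j)) R = R := by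
    have h2 : (ent b R 0 j * (starRingEnd ℂ) (ent b P 0 j)).arg = 0 :=
      Complex.arg_eq_zero_iff.2 ⟨hpos.le, h0⟩
    rw [h2, neg_zero, zero_div, rt_zero]
  have h1 : ∀ᶠ Q in 𝓝 R,
      rt b (-(ent b Q 0 j * (starRingEnd ℂ) (ent b P 0 j)).arg / (wc 0 - wc j)) Q ∈ V :=
    hF (by
      show V ∈ 𝓝 (rt b (-(ent b R 0 j * (starRingEnd ℂ) (ent b P 0 j)).arg / (wc 0 - wc j)) R)
      rw [hF0]
      exact hV)
  filter_upwards [self_mem_nhdsWithin, nhdsWithin_le_nhds h1] with Q hQ hQV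
  refine ⟨_, ⟨hC.inv _ Q hQ, hQV⟩, ?_, kc_rt b _ Q⟩
  rw [slC, ent_mul, mul_div_cancel₀ _ hm, exp_arg_mul, Complex.ofReal_im]

private theorem exp_one {a a' : ℂ} {t : ℝ} (hp : 0 < a.re) (hp' : 0 < a'.re) (h0 : a.im = 0)
    (h0' : a'.im = 0) (h : a' = Complex.exp ((t : ℂ) * Complex.I) * a) :
    ∃ n : ℤ, t = 2 * Real.pi * n := by
  have e : a = (a.re : ℂ) := Complex.ext rfl (by rw [h0, Complex.ofReal_im])
  have e' : a' = (a'.re : ℂ) := Complex.ext rfl (by rw [h0', Complex.ofReal_im])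
  have hn : ‖a'‖ = ‖a‖ := by
    rw [h, norm_mul, Complex.norm_exp_ofReal_mul_I, one_mul]
  have hr : a'.re = a.re := by
    rw [e, e', Complex.norm_real, Complex.norm_real, Real.norm_of_nonneg hp'.le,
      Real.norm_of_nonneg hp.le] at hn
    exact hn
  have hne : a ≠ 0 := by
    intro hc
    rw [hc, Complex.zero_re] at hp
    exact lt_irrefl _ hp
  have haa : a' = a := by rw [e, e', hr]
  have h1 : Complex.exp ((t : ℂ) * Complex.I) = 1 := by
    apply mul_right_cancel₀ hne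
    rw [← h, haa, one_mul]
  obtain ⟨n, hn⟩ := Complex.exp_eq_one_iff.1 h1
  refine ⟨n, ?_⟩
  have h2 : (t : ℂ) = ((2 * Real.pi * n : ℝ) : ℂ) := by
    apply mul_right_cancel₀ Complex.I_ne_zero
    rw [hn]
    push_cast
    ring
  exact Complex.ofReal_injective h2

/-- Proof: fib_c: Q' = rt b t Q, a(Q') = exp (i t) a(Q) (ent_rt), both positive real, so exp (i t) = 1, rt_two_pi. -/
theorem slc_inj (hC : Circ b L) {j : Fin (3 + 1)} (hj : j = 1 ∨ j = 2) {P Q Q' : Op 3}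
    (hQ : Q ∈ L) (hQ' : Q' ∈ L) (hp : 0 < (ent b Q 0 j * (starRingEnd ℂ) (ent b P 0 j)).re)
    (hp' : 0 < (ent b Q' 0 j * (starRingEnd ℂ) (ent b P 0 j)).re) (h0 : slC b j P Q = 0)
    (h0' : slC b j P Q' = 0) (hk : kc b Q = kc b Q') : Q = Q' := by
  obtain ⟨t, rfl⟩ := fib_c hC Q hQ Q' hQ' hk
  have hm : wc 0 - wc j = 1 := by
    rcases hj with rfl | rfl
    · rw [wcs0, wcs1]; norm_num
    · rw [wcs0, wcs2]; norm_num
  have h := ent_mul (b := b) t P Q j
  rw [hm, one_mul] at h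
  obtain ⟨n, hn⟩ := exp_one hp hp' h0 h0' h
  rw [hn, rt_two_pi]

/-- Proof: the same for j = 3: exp (2 i t) = 1, t = k pi, rt_two_pi and rt_add. -/
theorem slc_inj3 (hC : Circ b L) {P Q Q' : Op 3}
    (hQ : Q ∈ L) (hQ' : Q' ∈ L) (hp : 0 < (ent b Q 0 3 * (starRingEnd ℂ) (ent b P 0 3)).re)
    (hp' : 0 < (ent b Q' 0 3 * (starRingEnd ℂ) (ent b P 0 3)).re) (h0 : slC b 3 P Q = 0)
    (h0' : slC b 3 P Q' = 0) (hk : kc b Q = kc b Q') : Q' = Q ∨ Q' = rt b Real.pi Q := by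
  obtain ⟨t, rfl⟩ := fib_c hC Q hQ Q' hQ' hk
  have h := ent_mul (b := b) t P Q 3
  rw [wcs0, wcs3] at h
  obtain ⟨n, hn⟩ := exp_one hp hp' h0 h0' h
  rcases Int.even_or_odd' n with ⟨k, hk2 | hk2⟩
  · left
    have ht : t = 2 * Real.pi * k := by
      rw [hk2] at hn
      push_cast at hn
      linarith
    rw [ht, rt_two_pi]
  · right
    have ht : t = Real.pi + 2 * Real.pi * k := by
      rw [hk2] at hn
      push_cast at hn
      linarith
    rw [ht, rt_add, rt_two_pi]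

end Pool.Agent.H11.CC
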