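import Pool.Agent.H11.CC.CrdE
import Pool.Agent.H11.CC.SbB
import Pool.Agent.H11.CC.SlcC
import Pool.Agent.H11.CC.RedC
import Pool.Agent.H11.CC.FixC
import Pool.Agent.H11.CC.DTw

/-! Disc charts at the points with z_1 = z_2 = 0. -/

set_option autoImplicit false

open scoped ContDiff Topology
open Topology

namespace Pool.Agent.H11.CC

open Pool.Agent.H66.SyL Pool.Agent.H11.ST Pool.Agent.H11.SO

variable {b : Bas} {L : Set (Op 3)}

private theorem exp_pi_int (k : ℤ) (hk : Even k) :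
    Complex.exp ((((k : ℝ) * Real.pi : ℝ) : ℂ) * Complex.I) = 1 := by
  obtain ⟨m, rfl⟩ := hk
  rw [Complex.exp_eq_one_iff]
  refine ⟨m, ?_⟩
  push_cast
  ring

private theorem data_b (hC : Circ b L) {P : Op 3} (hP : P ∈ L)
    (h1 : ent b P 1 1 = 0) (h2 : ent b P 2 2 = 0) :
    (∀ i j, (i = 1 ∨ i = 2 ∨ j = 1 ∨ j = 2) → ent b P i j = 0) ∧ ent b P 0 3 ≠ 0 := by
  obtain ⟨z, hz, rfl⟩ := hC.unit P hP
  have e1 : inner ℂ (b 1) z = 0 := by
    rw [ent_pt, Complex.mul_conj, Complex.ofReal_eq_zero, Complex.normSq_eq_zero] at h1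
    exact h1
  have e2 : inner ℂ (b 2) z = 0 := by
    rw [ent_pt, Complex.mul_conj, Complex.ofReal_eq_zero, Complex.normSq_eq_zero] at h2
    exact h2
  have e3 := hC.eq03 z hz hP
  have e4 := sum_sq b hz
  rw [e1, e2, norm_zero, ← e3] at e4
  have e5 : inner ℂ (b 0) z ≠ 0 := by
    intro h
    rw [h, norm_zero] at e4
    norm_num at e4
  have e6 : inner ℂ (b 3) z ≠ 0 := by
    intro h
    rw [h, norm_zero] at e3
    exact e5 (norm_eq_zero.1 e3)
  refine ⟨?_, ?_⟩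
  · intro i j hij
    rw [ent_pt]
    rcases hij with h | h | h | h
    · rw [h, e1, zero_mul]
    · rw [h, e2, zero_mul]
    · rw [h, e1, map_zero, mul_zero]
    · rw [h, e2, map_zero, mul_zero]
  · rw [ent_pt]
    exact mul_ne_zero e5 ((map_ne_zero _).2 e6)

private theorem wc_cases (i : Fin (3 + 1)) :
    i = 1 ∨ i = 2 ∨ wc i = ((1 : ℤ) : ℝ) ∨ wc i = ((-1 : ℤ) : ℝ) := by
  fin_cases i
  · right; right; left
    simp [wc]
  · left; rfl
  · right; left; rfl
  · right; right; right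
    simp [wc]

private theorem rt_pi_fix (hC : Circ b L) {P : Op 3} (hP : P ∈ L)
    (h1 : ent b P 1 1 = 0) (h2 : ent b P 2 2 = 0) : rt b Real.pi P = P := by
  obtain ⟨hz, -⟩ := data_b hC hP h1 h2
  refine eq_of_ent b fun i j => ?_
  rw [ent_rt]
  have key : (i = 1 ∨ i = 2 ∨ j = 1 ∨ j = 2) ∨
      ∃ k : ℤ, Even k ∧ wc i - wc j = (k : ℝ) := by
    rcases wc_cases i with h | h | h | h
    · exact Or.inl (Or.inl h)
    · exact Or.inl (Or.inr (Or.inl h))
    · rcases wc_cases j with h' | h' | h' | h'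
      · exact Or.inl (Or.inr (Or.inr (Or.inl h')))
      · exact Or.inl (Or.inr (Or.inr (Or.inr h')))
      · refine Or.inr ⟨0, by decide, ?_⟩
        rw [h, h']
        norm_num
      · refine Or.inr ⟨2, by decide, ?_⟩
        rw [h, h']
        norm_num
    · rcases wc_cases j with h' | h' | h' | h'
      · exact Or.inl (Or.inr (Or.inr (Or.inl h')))
      · exact Or.inl (Or.inr (Or.inr (Or.inr h')))
      · refine Or.inr ⟨-2, by decide, ?_⟩
        rw [h, h']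
        norm_num
      · refine Or.inr ⟨0, by decide, ?_⟩
        rw [h, h']
        norm_num
  rcases key with h | ⟨k, hk, hw⟩
  · rw [hz i j h, mul_zero]
  · rw [hw, exp_pi_int k hk, one_mul]

private theorem continuous_rt_pi (b : Bas) : Continuous fun Q : Op 3 => rt b Real.pi Q := by
  have h1 : Continuous fun Q : Op 3 => ((Real.pi, Q) : ℝ × Op 3) := by fun_prop
  have h2 := (continuous_rt b).comp h1
  exact h2

private theorem ent_pi_neg (Q : Op 3) {i : Fin (3 + 1)} (hi : wc i = 0) :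
    ent b (rt b Real.pi Q) i 0 = - ent b Q i 0 := by
  rw [ent_rt, hi]
  have h : wc 0 = 1 := by simp [wc]
  rw [h]
  have h2 : ((((0 : ℝ) - 1) * Real.pi : ℝ) : ℂ) * Complex.I = -((Real.pi : ℂ) * Complex.I) := by
    push_cast
    ring
  rw [h2, Complex.exp_neg, Complex.exp_pi_mul_I]
  norm_num

private theorem ent_pi_03 (Q : Op 3) : ent b (rt b Real.pi Q) 0 3 = ent b Q 0 3 := by
  rw [ent_rt]
  have h : wc 0 - wc 3 = ((2 : ℤ) : ℝ) := by
    simp [wc]
    norm_num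
  rw [h, exp_pi_int 2 (by decide), one_mul]

/-- Proof: chart C (exists_lchart), ξ (sub_b), f Q = (ξ (ent b Q 1 0, ent b Q 2 0), slC b 3 P Q), f P = 0 (z_1 = z_2 = 0), K from
exists_crd with W = {0 < Re (ent b Q 0 3 * conj (ent b P 0 3))} (ent b P 0 3 ≠ 0: P = pt z, |z_0| = |z_3|, sum_sq);
g = rt b pi: g P = P (eq_of_ent, ent_rt), f (g Q) by ent_rt; disc_two with slc_inj3, slc_rot, red_c. -/
theorem lc_b (hL : IsLagrangian L) (hc : IsCompact L) (hC : Circ b L) {P : Op 3} (hP : P ∈ L)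
    (h1 : ent b P 1 1 = 0) (h2 : ent b P 2 2 = 0) (w : kc b '' L)
    (hw : (w : Fin 6 → ℂ) = kc b P) : DiscAt w := by
  obtain ⟨C, hPC⟩ := exists_lchart hL hP
  obtain ⟨ξ, hξ⟩ := sub_b hC C ⟨hP, hPC⟩ h1 h2
  obtain ⟨hz, h03⟩ := data_b hC hP h1 h2
  set f : Op 3 → ℂ × ℝ := fun Q => (ξ (ent b Q 1 0, ent b Q 2 0), slC b 3 P Q) with hfdef
  have hf : ContDiff ℝ 1 f :=
    (ξ.contDiff.comp ((contDiff_ent b 1 0).prodMk (contDiff_ent b 2 0))).prodMk
      (contDiff_slC b 3 P)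
  have hf0 : f P = 0 := by
    show (ξ (ent b P 1 0, ent b P 2 0), slC b 3 P P) = 0
    rw [hz 1 0 (Or.inl rfl), hz 2 0 (Or.inr (Or.inl rfl)), slC_self]
    have : ((0 : ℂ), (0 : ℂ)) = 0 := rfl
    rw [this, map_zero]
    rfl
  have hW : {Q : Op 3 | 0 < (ent b Q 0 3 * (starRingEnd ℂ) (ent b P 0 3)).re} ∈ 𝓝 P := by
    have ho : IsOpen {Q : Op 3 | 0 < (ent b Q 0 3 * (starRingEnd ℂ) (ent b P 0 3)).re} :=
      isOpen_lt continuous_const
        (Complex.continuous_re.comp ((continuous_ent b 0 3).mul continuous_const))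
    refine ho.mem_nhds ?_
    show 0 < (ent b P 0 3 * (starRingEnd ℂ) (ent b P 0 3)).re
    rw [Complex.mul_conj, Complex.ofReal_re]
    exact Complex.normSq_pos.2 h03
  obtain ⟨K, hK⟩ := exists_crd C ⟨hP, hPC⟩ f hf hf0 hξ hW
  refine disc_two (red_c hc hC) hf.continuous hP hf0 K (g := fun Q => rt b Real.pi Q)
    (continuous_rt_pi b) (fun Q hQ => hC.inv Real.pi Q hQ)
    (rt_pi_fix hC hP h1 h2) ?_ (fun Q => kc_rt b Real.pi Q) ?_ ?_ w hw
  · intro Q
    show (ξ (ent b (rt b Real.pi Q) 1 0, ent b (rt b Real.pi Q) 2 0),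
      slC b 3 P (rt b Real.pi Q)) = (-(ξ (ent b Q 1 0, ent b Q 2 0)), slC b 3 P Q)
    rw [ent_pi_neg Q (by simp [wc]), ent_pi_neg Q (by simp [wc])]
    unfold slC
    rw [ent_pi_03]
    have : ((-ent b Q 1 0, -ent b Q 2 0) : ℂ × ℂ) = -(ent b Q 1 0, ent b Q 2 0) := rfl
    rw [this, map_neg]
  · intro Q hQ Q' hQ' h0 h0' hk
    exact slc_inj3 hC hQ.1 hQ'.1 (hK hQ.2) (hK hQ'.2) h0 h0' hk
  · intro R hR h0 V hV
    exact slc_rot hC (by decide) hR.1 (hK hR.2) h0 hV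

end Pool.Agent.H11.CC
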