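import Pool.Agent.H11.CC.ChtO

/-! At a fixed point the quotient has a half disc chart (pure topology). -/

set_option autoImplicit false

open scoped ContDiff Topology
open Topology

namespace Pool.Agent.H11.CC

open Pool.Agent.H66.SyL Pool.Agent.H11.ST Pool.Agent.H11.SO

private theorem orb_mem {X : Type*} [TopologicalSpace X] {L : Set X} {φ : ℝ → X → X} (hφ : Flw L φ)
    {P : X} {O : Set X} (hO : IsOpen O) (hPO : ∀ t, φ t P ∈ O) :
    ∃ v : Set X, IsOpen v ∧ P ∈ v ∧ ∀ Q ∈ v, ∀ t, φ t Q ∈ O := by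
  have hn : IsOpen ((fun q : ℝ × X => φ q.1 q.2) ⁻¹' O) := hO.preimage hφ.cont
  obtain ⟨u, v, -, hv, hu, hPv, huv⟩ := generalized_tube_lemma
    (isCompact_Icc : IsCompact (Set.Icc (0 : ℝ) (2 * Real.pi))) (isCompact_singleton (x := P)) hn
    (by rintro ⟨t, Q⟩ ⟨-, hQ⟩
        change Q = P at hQ
        change φ t Q ∈ O
        rw [hQ]
        exact hPO t)
  refine ⟨v, hv, hPv rfl, fun Q hQ t => ?_⟩
  have hper : Function.Periodic (fun t => φ t Q) (2 * Real.pi) := by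
    intro s
    change φ (s + 2 * Real.pi) Q = φ s Q
    rw [hφ.add, hφ.per]
  obtain ⟨s, hs, hts⟩ := hper.exists_mem_Ico₀ (by positivity) t
  change φ t Q = φ s Q at hts
  rw [hts]
  exact huv (show (s, Q) ∈ u ×ˢ v from ⟨hu ⟨hs.1, hs.2.le⟩, hQ⟩)

private theorem small_ball {X : Type*} [TopologicalSpace X] {L : Set X} {f : X → ℂ × ℝ} {P : X}
    (K : Crd L f P) (h0 : K.σ 0 = P) {v : Set X} (hv : IsOpen v) (hPv : P ∈ v) :
    ∃ δ : ℝ, 0 < δ ∧ δ ≤ K.δ ∧ ∀ y ∈ Metric.ball (0 : ℂ × ℝ) δ, K.σ y ∈ v := by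
  have h1 : ContinuousAt K.σ 0 := K.cont.continuousAt (Metric.ball_mem_nhds _ K.δ_pos)
  have h2 : K.σ ⁻¹' v ∈ 𝓝 (0 : ℂ × ℝ) := by
    apply h1
    rw [h0]
    exact hv.mem_nhds hPv
  obtain ⟨δ, hδ, hb⟩ := Metric.mem_nhds_iff.1 h2
  refine ⟨min δ K.δ, lt_min hδ K.δ_pos, min_le_right _ _, fun y hy => hb ?_⟩
  exact Metric.ball_subset_ball (min_le_left _ _) hy

private theorem norm_pt (z : ℂ) : ‖(((z.im : ℝ) : ℂ), z.re)‖ ≤ ‖z‖ := by
  rw [Prod.norm_def]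
  apply max_le
  · change ‖((z.im : ℝ) : ℂ)‖ ≤ ‖z‖
    rw [Complex.norm_real, Real.norm_eq_abs]
    exact Complex.abs_im_le_norm z
  · change ‖z.re‖ ≤ ‖z‖
    rw [Real.norm_eq_abs]
    exact Complex.abs_re_le_norm z

/-- Proof: {Q : φ t Q in K.O for all t in [0, 2 pi]} is a neighbourhood of P (tube lemma), so there is 0 < δ' ≤ K.δ
with φ t (σ y) in K.O for all t in [0, 2 pi] and |y| < δ', so for all t (per, add), and then
φ t (σ y) = σ (exp (i t) y.1, y.2) (heq, K.bwd). chart_of with M = Hp, ε = δ', c (x + i y) = κ (σ (y, x)). Injective: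
κ (σ (y, x)) = κ (σ (y', x')): φ t (σ (y, x)) = σ (y', x') (hfib), so x = x' and exp (i t) y = y', y, y' ≥ 0 real,
so y = y'. Open: Q in L near R = σ (y, x): Q = σ (ζ, x'), κ Q = κ (σ (|ζ|, x')) (φ by -arg ζ), |ζ| near y; hR.op. -/
theorem half_fix {X Y : Type*} [TopologicalSpace X] [TopologicalSpace Y] {L : Set X} {κ : X → Y}
    (hR : RedMap L κ) {φ : ℝ → X → X} (hφ : Flw L φ)
    (hfib : ∀ P ∈ L, ∀ Q ∈ L, κ P = κ Q → ∃ t, φ t P = Q) (hκ : ∀ t Q, κ (φ t Q) = κ Q)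
    {f : X → ℂ × ℝ} (hf : Continuous f)
    (heq : ∀ t Q, f (φ t Q) = (Complex.exp ((t : ℂ) * Complex.I) * (f Q).1, (f Q).2))
    {P : X} (hP : P ∈ L) (hf0 : f P = 0) (hfix : ∀ t, φ t P = P) (K : Crd L f P)
    (w : κ '' L) (hw : (w : Y) = κ P) : HalfAt w := by
  have h0 : K.σ 0 = P := by
    have h := (K.bwd P ⟨hP, K.mem⟩).2
    rwa [hf0] at h
  obtain ⟨v, hv, hPv, hvO⟩ := orb_mem hφ K.openO (fun t => by rw [hfix]; exact K.mem)
  obtain ⟨ε, hε, hεδ, hσv⟩ := small_ball K h0 hv hPv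
  have hball : Metric.ball (0 : ℂ × ℝ) ε ⊆ Metric.ball (0 : ℂ × ℝ) K.δ :=
    Metric.ball_subset_ball hεδ
  have hrot : ∀ y ∈ Metric.ball (0 : ℂ × ℝ) ε, ∀ t : ℝ,
      f (φ t (K.σ y)) = (Complex.exp ((t : ℂ) * Complex.I) * y.1, y.2) ∧
      φ t (K.σ y) = K.σ (Complex.exp ((t : ℂ) * Complex.I) * y.1, y.2) := by
    intro y hy t
    have h1 := K.fwd y (hball hy)
    have h2 : f (φ t (K.σ y)) = (Complex.exp ((t : ℂ) * Complex.I) * y.1, y.2) := by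
      rw [heq, h1.2]
    refine ⟨h2, ?_⟩
    have h3 := (K.bwd (φ t (K.σ y)) ⟨hφ.maps t _ h1.1.1, hvO _ (hσv y hy) t⟩).2
    rw [h2] at h3
    exact h3.symm
  let e : ℂ → ℂ × ℝ := fun z => (((z.im : ℝ) : ℂ), z.re)
  have he : Continuous e :=
    (Complex.continuous_ofReal.comp Complex.continuous_im).prodMk Complex.continuous_re
  have heb : ∀ z ∈ Metric.ball (0 : ℂ) ε ∩ Hp, e z ∈ Metric.ball (0 : ℂ × ℝ) ε := by
    intro z hz
    rw [mem_ball_zero_iff]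
    exact (norm_pt z).trans_lt (mem_ball_zero_iff.1 hz.1)
  have hσL : ∀ y ∈ Metric.ball (0 : ℂ × ℝ) ε, K.σ y ∈ L := fun y hy => (K.fwd y (hball hy)).1.1
  let g : X → ℂ := fun Q => ⟨(f Q).2, ‖(f Q).1‖⟩
  have hg : Continuous g := by
    have h1 : g = fun Q => (((f Q).2 : ℝ) : ℂ) + ((‖(f Q).1‖ : ℝ) : ℂ) * Complex.I := by
      funext Q
      apply Complex.ext <;> simp [g]
    rw [h1]
    fun_prop
  change ∃ ch : Ch (κ '' L), ch.M = Hp ∧ ch.c 0 = w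
  refine chart_of (κ '' L) (M := Hp) (Or.inr rfl) hε (fun z => κ (K.σ (e z)))
    (fun z hz => ⟨_, hσL _ (heb z hz), rfl⟩) ?_ ?_ ?_ w ?_
  · refine hR.cont.comp ?_ (fun z hz => hσL _ (heb z hz))
    exact K.cont.comp he.continuousOn (fun z hz => hball (heb z hz))
  · intro z hz z' hz' hzz
    obtain ⟨t, ht⟩ := hfib _ (hσL _ (heb z hz)) _ (hσL _ (heb z' hz')) hzz
    have h3 := (hrot _ (heb z hz) t).1
    rw [ht, (K.fwd _ (hball (heb z' hz'))).2, Prod.mk.injEq] at h3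
    obtain ⟨h4, h5⟩ := h3
    have h6 : |z'.im| = |z.im| := by
      have h7 := congrArg norm h4
      change ‖((z'.im : ℝ) : ℂ)‖ = ‖Complex.exp ((t : ℂ) * Complex.I) * ((z.im : ℝ) : ℂ)‖ at h7
      rw [norm_mul, Complex.norm_exp_ofReal_mul_I, one_mul, Complex.norm_real, Complex.norm_real,
        Real.norm_eq_abs, Real.norm_eq_abs] at h7
      exact h7
    have h8 : 0 ≤ z.im := hz.2
    have h9 : 0 ≤ z'.im := hz'.2
    rw [abs_of_nonneg h8, abs_of_nonneg h9] at h6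
    exact Complex.ext h5.symm h6.symm
  · intro z hz V hV
    have hRL := hσL _ (heb z hz)
    have hfR : f (K.σ (e z)) = e z := (K.fwd _ (hball (heb z hz))).2
    have hgR : g (K.σ (e z)) = z := by
      have h8 : 0 ≤ z.im := hz.2
      apply Complex.ext
      · change (f (K.σ (e z))).2 = z.re
        rw [hfR]
      · change ‖(f (K.σ (e z))).1‖ = z.im
        rw [hfR]
        change ‖((z.im : ℝ) : ℂ)‖ = z.im
        rw [Complex.norm_real, Real.norm_eq_abs, abs_of_nonneg h8]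
    have hO1 : K.O ∈ 𝓝 (K.σ (e z)) := K.openO.mem_nhds (K.fwd _ (hball (heb z hz))).1.2
    have hO2 : f ⁻¹' Metric.ball (0 : ℂ × ℝ) ε ∈ 𝓝 (K.σ (e z)) :=
      (Metric.isOpen_ball.preimage hf).mem_nhds (by
        change f (K.σ (e z)) ∈ Metric.ball (0 : ℂ × ℝ) ε
        rw [hfR]
        exact heb z hz)
    have hO3 : g ⁻¹' (V ∩ Metric.ball (0 : ℂ) ε) ∈ 𝓝 (K.σ (e z)) := by
      apply hg.continuousAt
      rw [hgR]
      exact Filter.inter_mem hV (Metric.isOpen_ball.mem_nhds hz.1)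
    have hO : K.O ∩ f ⁻¹' Metric.ball 0 ε ∩ g ⁻¹' (V ∩ Metric.ball 0 ε) ∈ 𝓝[L] (K.σ (e z)) :=
      mem_nhdsWithin_of_mem_nhds (Filter.inter_mem (Filter.inter_mem hO1 hO2) hO3)
    filter_upwards [hR.op _ hRL _ hO] with w' hw'
    obtain ⟨Q, ⟨hQL, ⟨hQO, hQf⟩, hQV, hQb⟩, hQw⟩ := hw'
    refine ⟨g Q, ⟨hQV, hQb, norm_nonneg _⟩, ?_⟩
    rw [← hQw]
    have hQe : e (g Q) = (((‖(f Q).1‖ : ℝ) : ℂ), (f Q).2) := rfl
    have hQb2 : e (g Q) ∈ Metric.ball (0 : ℂ × ℝ) ε := by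
      rw [mem_ball_zero_iff, hQe]
      have h9 := mem_ball_zero_iff.1 (show f Q ∈ Metric.ball (0 : ℂ × ℝ) ε from hQf)
      rw [Prod.norm_def] at h9 ⊢
      change max ‖((‖(f Q).1‖ : ℝ) : ℂ)‖ ‖(f Q).2‖ < ε
      rw [Complex.norm_real, norm_norm]
      exact h9
    have h3 := (hrot _ hQb2 (Complex.arg (f Q).1)).2
    have h4 : (Complex.exp ((Complex.arg (f Q).1 : ℂ) * Complex.I) * (e (g Q)).1, (e (g Q)).2) =
        f Q := by
      rw [hQe]
      apply Prod.ext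
      · change Complex.exp ((Complex.arg (f Q).1 : ℂ) * Complex.I) * ((‖(f Q).1‖ : ℝ) : ℂ) =
          (f Q).1
        rw [mul_comm]
        exact Complex.norm_mul_exp_arg_mul_I _
      · rfl
    rw [h4, (K.bwd Q ⟨hQL, hQO⟩).2] at h3
    have h5 := hκ (Complex.arg (f Q).1) (K.σ (e (g Q)))
    rw [h3] at h5
    exact h5.symm
  · have h3 : e 0 = 0 := by
      apply Prod.ext
      · change (((0 : ℂ).im : ℝ) : ℂ) = 0
        simp
      · rfl
    change (w : Y) = κ (K.σ (e 0))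
    rw [hw, h3, h0]

end Pool.Agent.H11.CC
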