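import Pool.Agent.H11.CC.Drv
import Pool.Agent.H11.CC.Lin

/-! Coordinates at a fixed point. -/

set_option autoImplicit false

open scoped ContDiff Topology
open Topology

namespace Pool.Agent.H11.CC

open Pool.Agent.H66.SyL Pool.Agent.H11.ST Pool.Agent.H11.SO

variable {b : Bas} {L : Set (Op 3)}

/-- the entry as a real linear map -/
private noncomputable def entR (b : Bas) (i j : Fin (3 + 1)) : Op 3 →L[ℝ] ℂ :=
  ((innerSL ℂ (b i)).comp (ContinuousLinearMap.apply ℂ (E 3) (b j))).restrictScalars ℝ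

private theorem entR_apply (b : Bas) (i j : Fin (3 + 1)) (P : Op 3) :
    entR b i j P = ent b P i j := rfl

private theorem alg_hi {a c y w : ℂ} (hn : a * (starRingEnd ℂ) a + c * (starRingEnd ℂ) c = 1)
    (hl : (starRingEnd ℂ) a * y + (starRingEnd ℂ) c * w = 0)
    (h11 : y * (starRingEnd ℂ) a + a * (starRingEnd ℂ) y = 0)
    (h12 : y * (starRingEnd ℂ) c + a * (starRingEnd ℂ) w = 0)
    (h22 : w * (starRingEnd ℂ) c + c * (starRingEnd ℂ) w = 0) : y = 0 ∧ w = 0 := by
  have hl' : a * (starRingEnd ℂ) y + c * (starRingEnd ℂ) w = 0 := by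
    have h := congrArg (starRingEnd ℂ) hl
    simpa only [map_add, map_mul, Complex.conj_conj, map_zero] using h
  have h21 : w * (starRingEnd ℂ) a + c * (starRingEnd ℂ) y = 0 := by
    have h := congrArg (starRingEnd ℂ) h12
    simp only [map_add, map_mul, Complex.conj_conj, map_zero] at h
    rw [← h]
    ring
  constructor
  · linear_combination (-y) * hn + a * h11 + c * h12 - a * hl'
  · linear_combination (-w) * hn + a * h21 + c * h22 - c * hl'

private theorem alg_del {a c y w : ℂ} (hn : a * (starRingEnd ℂ) a + c * (starRingEnd ℂ) c = 1)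
    (hl : (starRingEnd ℂ) a * y + (starRingEnd ℂ) c * w = 0) :
    y = -((starRingEnd ℂ) c * (a * w - c * y)) ∧ w = (starRingEnd ℂ) a * (a * w - c * y) := by
  constructor
  · linear_combination (-y) * hn + a * hl
  · linear_combination (-w) * hn + c * hl

/-- Proof: z_0 = z_3 = 0 (Circ.eq03). D = fderiv C.p (C.r P), ζ v = ent (D v) 0 j = Y_0 conj z_j, B v = the entries 11, 12, 22
of D v. If ζ v = 0 then Y_0 = 0, Y_3 = 0 (drv), conj z_1 Y_1 + conj z_2 Y_2 = 0. hi: if also B v = 0 then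
Y_i conj z_k + z_i conj Y_k = 0 for i, k in {1, 2}, times z_k, summed over k, gives Y_i = 0. hk: (Y_1, Y_2) = δ (-conj z_2, conj z_1),
δ complex (|z_1|^2 + |z_2|^2 = 1, δ = z_1 Y_2 - z_2 Y_1), and lag says Im (conj δ δ') = 0, so δ, δ' are real dependent. compl_c. -/
theorem sub_c (hC : Circ b L) (C : LChart L) {P : Op 3} (hP : P ∈ L ∩ C.U)
    (h0 : ent b P 0 0 = 0) {j : Fin (3 + 1)} (hj : j = 1 ∨ j = 2) (hne : ent b P j j ≠ 0) :
    ∃ μ : ℂ × ℂ × ℂ →L[ℝ] ℝ, Function.Bijective
      (fderiv ℝ (fun x => ((ent b (C.p x) 0 j,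
        μ (ent b (C.p x) 1 1, ent b (C.p x) 1 2, ent b (C.p x) 2 2) -
          μ (ent b P 1 1, ent b P 1 2, ent b P 2 2)) : ℂ × ℝ)) (C.r P)) := by
  obtain ⟨z, Y, hz, hs, hY, hleg, hlag, himm, -, h03⟩ := drv hC C hP
  -- z 0 = z 3 = 0
  have hz0 : z 0 = 0 := by
    rw [hz, Complex.mul_conj, Complex.ofReal_eq_zero] at h0
    exact Complex.normSq_eq_zero.1 h0
  have hz3 : z 3 = 0 := by
    obtain ⟨w, hw, hwP⟩ := hC.unit P hP.1
    have hwL : pt w ∈ L := by rw [hwP]; exact hP.1
    have e := hC.eq03 w hw hwL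
    have e0 : inner ℂ (b 0) w = 0 := by
      rw [← hwP, ent_pt, Complex.mul_conj, Complex.ofReal_eq_zero] at h0
      exact Complex.normSq_eq_zero.1 h0
    rw [e0, norm_zero] at e
    have e3 : inner ℂ (b 3) w = 0 := norm_eq_zero.1 e.symm
    have h3 : ent b P 3 3 = 0 := by rw [← hwP, ent_pt, e3, zero_mul]
    rw [hz, Complex.mul_conj, Complex.ofReal_eq_zero] at h3
    exact Complex.normSq_eq_zero.1 h3
  have hzj : z j ≠ 0 := by
    intro h
    apply hne
    rw [hz, h, zero_mul]
  have hn : z 1 * (starRingEnd ℂ) (z 1) + z 2 * (starRingEnd ℂ) (z 2) = 1 := by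
    rw [Fin.sum_univ_four, hz0, hz3, norm_zero] at hs
    rw [Complex.mul_conj, Complex.mul_conj, Complex.normSq_eq_norm_sq, Complex.normSq_eq_norm_sq,
      ← Complex.ofReal_add]
    have : ‖z 1‖ ^ 2 + ‖z 2‖ ^ 2 = 1 := by linarith
    rw [this, Complex.ofReal_one]
  have hl12 : ∀ v, (starRingEnd ℂ) (z 1) * Y v 1 + (starRingEnd ℂ) (z 2) * Y v 2 = 0 := by
    intro v
    have h := hleg v
    rw [Fin.sum_univ_four, hz0, hz3, map_zero, zero_mul, zero_mul, zero_add, add_zero] at h
    exact h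
  have hYz : ∀ v, Y v 0 = 0 → Y v 1 = 0 → Y v 2 = 0 → v = 0 := by
    intro v k0 k1 k2
    apply himm
    funext i
    fin_cases i
    · exact k0
    · exact k1
    · exact k2
    · exact h03 hz0 v k0
  set D := fderiv ℝ C.p (C.r P) with hD
  have hζ : ∀ v, (entR b 0 j).comp D v = 0 → Y v 0 = 0 := by
    intro v hv
    have h : ent b (D v) 0 j = 0 := hv
    rw [hY, hz0, zero_mul, add_zero] at h
    exact (mul_eq_zero.1 h).resolve_right fun h' => hzj ((map_eq_zero _).1 h')
  obtain ⟨μ, hμ⟩ := compl_c ((entR b 0 j).comp D)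
    (((entR b 1 1).prod ((entR b 1 2).prod (entR b 2 2))).comp D) (by
      intro v hv hB
      have k0 := hζ v hv
      have h11 : ent b (D v) 1 1 = 0 := congrArg Prod.fst hB
      have h12 : ent b (D v) 1 2 = 0 := congrArg (fun q => q.2.1) hB
      have h22 : ent b (D v) 2 2 = 0 := congrArg (fun q => q.2.2) hB
      rw [hY] at h11 h12 h22
      obtain ⟨k1, k2⟩ := alg_hi hn (hl12 v) h11 h12 h22
      exact hYz v k0 k1 k2) (by
      intro u v hu hv
      have u0 := hζ u hu
      have v0 := hζ v hv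
      obtain ⟨u1, u2⟩ := alg_del hn (hl12 u)
      obtain ⟨v1, v2⟩ := alg_del hn (hl12 v)
      set p := z 1 * Y u 2 - z 2 * Y u 1 with hp
      set q := z 1 * Y v 2 - z 2 * Y v 1 with hq
      have hpq : ((starRingEnd ℂ) p * q).im = 0 := by
        have h := hlag u v
        rw [Fin.sum_univ_four, u0, h03 hz0 u u0, u1, u2, v1, v2] at h
        have e : (starRingEnd ℂ) (0 : ℂ) * Y v 0 + (starRingEnd ℂ) (-((starRingEnd ℂ) (z 2) * p)) *
            -((starRingEnd ℂ) (z 2) * q) + (starRingEnd ℂ) ((starRingEnd ℂ) (z 1) * p) *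
            ((starRingEnd ℂ) (z 1) * q) + (starRingEnd ℂ) (0 : ℂ) * Y v 3 =
            (starRingEnd ℂ) p * q := by
          simp only [map_neg, map_mul, Complex.conj_conj, map_zero]
          linear_combination ((starRingEnd ℂ) p * q) * hn
        rw [e] at h
        exact h
      by_cases hp0 : p = 0
      · refine ⟨1, 0, Or.inl one_ne_zero, ?_⟩
        rw [one_smul, zero_smul, add_zero]
        refine hYz u u0 ?_ ?_
        · rw [u1, hp0, mul_zero, neg_zero]
        · rw [u2, hp0, mul_zero]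
      · refine ⟨-((starRingEnd ℂ) p * q).re, Complex.normSq p,
          Or.inr fun h => hp0 (Complex.normSq_eq_zero.1 h), ?_⟩
        have hr : (starRingEnd ℂ) p * q = ((((starRingEnd ℂ) p * q).re : ℝ) : ℂ) :=
          Complex.ext (by rw [Complex.ofReal_re]) (by rw [Complex.ofReal_im, hpq])
        have key : ((-((starRingEnd ℂ) p * q).re : ℝ) : ℂ) * p +
            ((Complex.normSq p : ℝ) : ℂ) * q = 0 := by
          rw [Complex.ofReal_neg, ← hr, ← Complex.mul_conj]
          ring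
        have hcomp : ∀ i, Y (-((starRingEnd ℂ) p * q).re • u + Complex.normSq p • v) i =
            ((-((starRingEnd ℂ) p * q).re : ℝ) : ℂ) * Y u i +
              ((Complex.normSq p : ℝ) : ℂ) * Y v i := by
          intro i
          rw [map_add, map_smul, map_smul, Pi.add_apply, Pi.smul_apply, Pi.smul_apply,
            Complex.real_smul, Complex.real_smul]
        refine hYz _ ?_ ?_ ?_
        · rw [hcomp, u0, v0, mul_zero, mul_zero, add_zero]
        · rw [hcomp, u1, v1]
          linear_combination (-(starRingEnd ℂ) (z 2)) * key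
        · rw [hcomp, u2, v2]
          linear_combination ((starRingEnd ℂ) (z 1)) * key)
  refine ⟨μ, ?_⟩
  have hball : C.r P ∈ Metric.ball C.x0 C.δ := C.r_mem _ hP
  have hpd : HasFDerivAt C.p D (C.r P) :=
    ((C.smooth_p.contDiffAt (Metric.isOpen_ball.mem_nhds hball)).differentiableAt
      one_ne_zero).hasFDerivAt
  have h1 : HasFDerivAt (fun x => ent b (C.p x) 0 j) ((entR b 0 j).comp D) (C.r P) :=
    (entR b 0 j).hasFDerivAt.comp (C.r P) hpd
  have h2 : HasFDerivAt (fun x => ((ent b (C.p x) 1 1, ent b (C.p x) 1 2, ent b (C.p x) 2 2) :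
      ℂ × ℂ × ℂ)) (((entR b 1 1).prod ((entR b 1 2).prod (entR b 2 2))).comp D) (C.r P) :=
    ((entR b 1 1).prod ((entR b 1 2).prod (entR b 2 2))).hasFDerivAt.comp (C.r P) hpd
  have h3 := (μ.hasFDerivAt.comp (C.r P) h2).sub_const (μ (ent b P 1 1, ent b P 1 2, ent b P 2 2))
  have h4 := h1.prodMk h3
  have h5 : fderiv ℝ (fun x => ((ent b (C.p x) 0 j,
        μ (ent b (C.p x) 1 1, ent b (C.p x) 1 2, ent b (C.p x) 2 2) -
          μ (ent b P 1 1, ent b P 1 2, ent b P 2 2)) : ℂ × ℝ)) (C.r P) = _ := h4.fderiv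
  rw [h5]
  exact hμ

end Pool.Agent.H11.CC
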