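import Pool.Agent.H11.CC.CrdE
import Pool.Agent.H11.CC.SbC
import Pool.Agent.H11.CC.RedC
import Pool.Agent.H11.CC.FixC
import Pool.Agent.H11.CC.HFx

/-! Half disc charts at fixed points. -/

set_option autoImplicit false

open scoped ContDiff Topology
open Topology

namespace Pool.Agent.H11.CC

open Pool.Agent.H66.SyL Pool.Agent.H11.ST Pool.Agent.H11.SO

variable {b : Bas} {L : Set (Op 3)}

/-- the coordinates at the fixed point P -/
private noncomputable def fC (b : Bas) (j : Fin (3 + 1)) (μ : ℂ × ℂ × ℂ →L[ℝ] ℝ) (P Q : Op 3) :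
    ℂ × ℝ :=
  (ent b Q 0 j, μ (ent b Q 1 1, ent b Q 1 2, ent b Q 2 2) -
    μ (ent b P 1 1, ent b P 1 2, ent b P 2 2))

private theorem contDiff_fC (b : Bas) (j : Fin (3 + 1)) (μ : ℂ × ℂ × ℂ →L[ℝ] ℝ) (P : Op 3) :
    ContDiff ℝ 1 (fC b j μ P) := by
  have h : ContDiff ℝ 1 fun Q : Op 3 => (ent b Q 1 1, ent b Q 1 2, ent b Q 2 2) :=
    (contDiff_ent b 1 1).prodMk ((contDiff_ent b 1 2).prodMk (contDiff_ent b 2 2))
  exact (contDiff_ent b 0 j).prodMk ((μ.contDiff.comp h).sub contDiff_const)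

private theorem fC_rt (b : Bas) {j : Fin (3 + 1)} (hj : j = 1 ∨ j = 2)
    (μ : ℂ × ℂ × ℂ →L[ℝ] ℝ) (P : Op 3) (t : ℝ) (Q : Op 3) :
    fC b j μ P (rt b t Q) =
      (Complex.exp ((t : ℂ) * Complex.I) * (fC b j μ P Q).1, (fC b j μ P Q).2) := by
  have w0 : wc 0 = 1 := rfl
  have w1 : wc 1 = 0 := rfl
  have w2 : wc 2 = 0 := rfl
  have wj : wc j = 0 := by
    rcases hj with h | h
    · rw [h]; rfl
    · rw [h]; rfl
  unfold fC
  simp only [ent_rt, w0, w1, w2, wj, sub_zero, one_mul, zero_mul, Complex.ofReal_zero,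
    Complex.exp_zero]

/-- Proof: j from fixed_data, chart C (exists_lchart), μ (sub_c), f Q = (ent b Q 0 j, μ (..Q) - μ (..P)), K from exists_crd with
W = univ; f (rt b t Q) by ent_rt; half_fix with flw, fib_c, kc_rt, red_c, fixed_of. -/
theorem lc_c (hL : IsLagrangian L) (hc : IsCompact L) (hC : Circ b L) {P : Op 3} (hP : P ∈ L)
    (h0 : ent b P 0 0 = 0) (w : kc b '' L) (hw : (w : Fin 6 → ℂ) = kc b P) : HalfAt w := by
  obtain ⟨hz, hne⟩ := fixed_data hC hP h0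
  have hex : ∃ j : Fin (3 + 1), (j = 1 ∨ j = 2) ∧ ent b P j j ≠ 0 := by
    rcases hne with h | h
    · exact ⟨1, Or.inl rfl, h⟩
    · exact ⟨2, Or.inr rfl, h⟩
  obtain ⟨j, hj, hjj⟩ := hex
  obtain ⟨C, hPC⟩ := exists_lchart hL hP
  obtain ⟨μ, hμ⟩ := sub_c hC C ⟨hP, hPC⟩ h0 hj hjj
  have hfP : fC b j μ P P = 0 := by
    unfold fC
    rw [(hz j).1, sub_self]
    rfl
  obtain ⟨K, -⟩ := exists_crd C ⟨hP, hPC⟩ (fC b j μ P) (contDiff_fC b j μ P) hfP hμ
    (W := Set.univ) Filter.univ_mem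
  exact half_fix (red_c hc hC) (flw b hC) (fib_c hC) (kc_rt b) (contDiff_fC b j μ P).continuous
    (fC_rt b hj μ P) hP hfP (fixed_of hC hP h0) K w hw

end Pool.Agent.H11.CC
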