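import Pool.Agent.H11.CC.LcA
import Pool.Agent.H11.CC.LcB
import Pool.Agent.H11.CC.LcC

/-! Charts of the quotient (assembly). -/

set_option autoImplicit false

open scoped ContDiff Topology
open Topology

namespace Pool.Agent.H11.CC

open Pool.Agent.H66.SyL Pool.Agent.H11.ST Pool.Agent.H11.SO

variable {b : Bas} {L : Set (Op 3)}

theorem charts (hL : IsLagrangian L) (hc : IsCompact L) (hC : Circ b L) :
    (∀ x : kc b '' L, DiscAt x ∨ HalfAt x) ∧ ∃ x : kc b '' L, HalfAt x := by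
  constructor
  · rintro ⟨x, P, hP, rfl⟩
    by_cases h0 : ent b P 0 0 = 0
    · exact Or.inr (lc_c hL hc hC hP h0 _ rfl)
    · rcases (free_data hC hP h0).2 with h | h | h
      · exact Or.inl (lc_a hL hc hC hP (Or.inl rfl) h _ rfl)
      · exact Or.inl (lc_a hL hc hC hP (Or.inr rfl) h _ rfl)
      · exact Or.inl (lc_b hL hc hC hP (h 1).1 (h 2).2.2.1 _ rfl)
  · obtain ⟨P, hP, h0⟩ := hC.fix
    exact ⟨⟨kc b P, P, hP, rfl⟩, lc_c hL hc hC hP h0 _ rfl⟩

end Pool.Agent.H11.CC
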