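import Pool.Agent.H11.CC.LDef
import Pool.Agent.H11.ST.ImpP

/-! Existence of coordinates (inverse function theorem). -/

set_option autoImplicit false

open scoped ContDiff Topology
open Topology

namespace Pool.Agent.H11.CC

open Pool.Agent.H66.SyL Pool.Agent.H11.ST Pool.Agent.H11.SO

/-- Proof: imp_p with W = univ, f P = 0 -/
theorem exists_crd {L : Set (Op 3)} (C : LChart L) {P : Op 3} (hP : P ∈ L ∩ C.U) (f : Op 3 → ℂ × ℝ)
    (hf : ContDiff ℝ 1 f) (hf0 : f P = 0)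
    (hs : Function.Bijective (fderiv ℝ (fun x => f (C.p x)) (C.r P)))
    {W : Set (Op 3)} (hW : W ∈ 𝓝 P) : ∃ K : Crd L f P, K.O ⊆ W := by
  obtain ⟨δ, σ, O, hδ, hO, hPO, hOW, hc, h1, h2⟩ := imp_p C hP f hf hs hW
  rw [hf0] at hc h1 h2
  exact ⟨⟨δ, σ, O, hδ, hO, hPO, hc, h1, h2⟩, hOW⟩

end Pool.Agent.H11.CC
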