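import Pool.Agent.H11.CC.ChtO

/-! A slice which meets every orbit once gives a disc chart of the quotient (pure topology). -/

set_option autoImplicit false

open scoped ContDiff Topology
open Topology

namespace Pool.Agent.H11.CC

open Pool.Agent.H66.SyL Pool.Agent.H11.ST Pool.Agent.H11.SO

/-- Compare ST/LocI.lean. Proof: chart_of with M = univ, ε = K.δ, c y = κ (K.σ (y, 0)). Injective by hinj.
Open: y, V; R = K.σ (y, 0); hrot for the neighbourhood {Q in K.O : (f Q).1 in V} of R and hR.op: every w in κ L near κ R is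
κ Q' with Q' in L ∩ K.O, f Q' = (x, 0), x in V, so Q' = K.σ (x, 0) and w = c x. -/
theorem disc_free {X Y : Type*} [TopologicalSpace X] [TopologicalSpace Y] {L : Set X} {κ : X → Y}
    (hR : RedMap L κ) {f : X → ℂ × ℝ} (hf : Continuous f) {P : X} (hP : P ∈ L) (hf0 : f P = 0)
    (K : Crd L f P)
    (hinj : ∀ Q ∈ L ∩ K.O, ∀ Q' ∈ L ∩ K.O, (f Q).2 = 0 → (f Q').2 = 0 → κ Q = κ Q' → Q = Q')
    (hrot : ∀ R ∈ L ∩ K.O, (f R).2 = 0 → ∀ V ∈ 𝓝 R, ∀ᶠ Q in 𝓝[L] R, ∃ Q' ∈ L ∩ V,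
      (f Q').2 = 0 ∧ κ Q' = κ Q)
    (w : κ '' L) (hw : (w : Y) = κ P) : DiscAt w := by
  have hb : ∀ y ∈ Metric.ball (0 : ℂ) K.δ, ((y, (0 : ℝ)) : ℂ × ℝ) ∈ Metric.ball (0 : ℂ × ℝ) K.δ := by
    intro y hy
    rw [mem_ball_zero_iff] at hy ⊢
    rw [Prod.norm_def]
    simp only [norm_zero]
    exact max_lt hy K.δ_pos
  have hσP : K.σ (0, 0) = P := by
    have h1 := (K.bwd P ⟨hP, K.mem⟩).2
    rw [hf0] at h1
    exact h1
  refine chart_of (κ '' L) (M := Set.univ) (Or.inl rfl) K.δ_pos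
    (fun y => κ (K.σ (y, 0))) ?_ ?_ ?_ ?_ w ?_
  · intro y hy
    exact Set.mem_image_of_mem _ (K.fwd _ (hb y hy.1)).1.1
  · have h1 : ContinuousOn (fun y : ℂ => K.σ (y, (0 : ℝ))) (Metric.ball 0 K.δ ∩ Set.univ) := by
      refine K.cont.comp (Continuous.continuousOn (by fun_prop)) ?_
      intro y hy
      exact hb y hy.1
    exact hR.cont.comp h1 (fun y hy => (K.fwd _ (hb y hy.1)).1.1)
  · intro y hy y' hy' h
    obtain ⟨a1, a2⟩ := K.fwd _ (hb y hy.1)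
    obtain ⟨b1, b2⟩ := K.fwd _ (hb y' hy'.1)
    have h1 := hinj _ a1 _ b1 (by rw [a2]) (by rw [b2]) h
    have h2 := congrArg f h1
    rw [a2, b2] at h2
    exact congrArg Prod.fst h2
  · intro y hy V hV
    obtain ⟨a1, a2⟩ := K.fwd _ (hb y hy.1)
    have hW : {Q : X | (f Q).1 ∈ V} ∩ K.O ∈ 𝓝 (K.σ (y, 0)) := by
      refine Filter.inter_mem ?_ (K.openO.mem_nhds a1.2)
      have h1 : Continuous fun Q : X => (f Q).1 := continuous_fst.comp hf
      refine h1.continuousAt.preimage_mem_nhds ?_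
      rw [a2]
      exact hV
    have h2 := hrot _ a1 (by rw [a2]) _ hW
    have h3 := hR.op _ a1.1 _ h2
    filter_upwards [h3] with z hz
    obtain ⟨Q, ⟨hQL, Q', ⟨hQ1, hQ2, hQ3⟩, hQ4, hQ5⟩, hQ6⟩ := hz
    obtain ⟨h5, h6⟩ := K.bwd Q' ⟨hQ1, hQ3⟩
    have h7 : f Q' = ((f Q').1, (0 : ℝ)) := Prod.ext rfl hQ4
    refine ⟨(f Q').1, ⟨hQ2, ?_, Set.mem_univ _⟩, ?_⟩
    · rw [mem_ball_zero_iff] at h5 ⊢
      exact lt_of_le_of_lt (norm_fst_le _) h5
    · show κ (K.σ ((f Q').1, 0)) = z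
      rw [← h7, h6, hQ5, hQ6]
  · show (w : Y) = κ (K.σ (0, 0))
    rw [hσP]
    exact hw

end Pool.Agent.H11.CC
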