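import Pool.Agent.H11.SO.Defs

/-!
MP_b8283b_gt, Lagrangian rational homology spheres in CP^3 with a circle of symmetries which has a fixed
point on L. Definitions.
-/

set_option autoImplicit false

open scoped ContDiff Topology NNReal
open Topology

namespace Pool.Agent.H11.CC

open Pool.Agent.H66.SyL Pool.Agent.H11.ST Pool.Agent.H11.SO

/-- ψ is a U(1)-valued 1-cocycle on L: the functions ψ P, considered up to constant factors near P, fit
together (flat U(1)-bundle, class in H^1(L; U(1))). -/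
def Coc {X : Type*} [TopologicalSpace X] (L : Set X) (ψ : X → X → Circle) : Prop :=
  ∀ P ∈ L, ∀ᶠ Q in 𝓝[L] P, ∀ᶠ S in 𝓝[L] Q, ψ Q S / ψ Q Q = ψ P S / ψ P Q

/-- f is a global flat section of ψ on L. -/
def Frame {X : Type*} [TopologicalSpace X] (L : Set X) (ψ : X → X → Circle) (f : X → Circle) :
    Prop :=
  ∀ P ∈ L, ∀ᶠ Q in 𝓝[L] P, f Q / f P = ψ P Q / ψ P P

/-- s is a continuous section of the line bundle of ψ -/
def TC {X : Type*} [TopologicalSpace X] (ψ : X → X → Circle) (s : X → ℂ) : Prop :=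
  ∀ P, ∀ᶠ Q in 𝓝 P, ContinuousAt (fun S => s S / (ψ P S : ℂ)) Q

/-- the closed upper half plane -/
def Hp : Set ℂ := {z | 0 ≤ z.im}

/-- a chart of a surface X: an open embedding of the plane or of the closed upper half plane -/
structure Ch (X : Type*) [TopologicalSpace X] where
  M : Set ℂ
  c : ℂ → X
  hM : M = Set.univ ∨ M = Hp
  cont : ContinuousOn c M
  inj : Set.InjOn c M
  op : ∀ U : Set ℂ, IsOpen U → IsOpen (c '' (U ∩ M))

def DiscAt {X : Type*} [TopologicalSpace X] (x : X) : Prop :=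
  ∃ ch : Ch X, ch.M = Set.univ ∧ ch.c 0 = x

def HalfAt {X : Type*} [TopologicalSpace X] (x : X) : Prop :=
  ∃ ch : Ch X, ch.M = Hp ∧ ch.c 0 = x

/-- a 2 pi periodic flow on L -/
structure Flw {X : Type*} [TopologicalSpace X] (L : Set X) (φ : ℝ → X → X) : Prop where
  cont : Continuous fun q : ℝ × X => φ q.1 q.2
  maps : ∀ t, ∀ P ∈ L, φ t P ∈ L
  zero : ∀ P, φ 0 P = P
  add : ∀ s t P, φ (s + t) P = φ s (φ t P)
  per : ∀ P, φ (2 * Real.pi) P = P

/-- T is the parallel transport of ψ along the flow -/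
structure Trp {X : Type*} [TopologicalSpace X] (L : Set X) (φ : ℝ → X → X)
    (ψ : X → X → Circle) (T : X → ℝ → Circle) : Prop where
  zero : ∀ P ∈ L, T P 0 = 1
  fr : ∀ P ∈ L, Frame Set.univ (fun t t' => ψ (φ t P) (φ t' P)) (T P)

/-- the weights of the circle -/
def wc : Fin (3 + 1) → ℝ := ![1, 0, 0, -1]

/-- the circle action -/
noncomputable def rt (b : Bas) (t : ℝ) (P : Op 3) : Op 3 := act b (t • wc) P

/-- L is invariant under the circle, contained in |z_0| = |z_3|, and contains a fixed point -/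
structure Circ (b : Bas) (L : Set (Op 3)) : Prop where
  inv : ∀ t : ℝ, ∀ P ∈ L, rt b t P ∈ L
  unit : ∀ P ∈ L, ∃ z : E 3, ‖z‖ = 1 ∧ pt z = P
  eq03 : ∀ z : E 3, ‖z‖ = 1 → pt z ∈ L → ‖inner ℂ (b 0) z‖ = ‖inner ℂ (b 3) z‖
  fix : ∃ P ∈ L, ent b P 0 0 = 0

/-- the reduced coordinates: for P = pt z they are z_1 conj z_1, z_1 conj z_2, z_2 conj z_2,
z_0 z_3 conj (z_1)^2, z_0 z_3 conj (z_1 z_2), z_0 z_3 conj (z_2)^2 -/
noncomputable def kc (b : Bas) (P : Op 3) : Fin 6 → ℂ :=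
  ![ent b P 1 1, ent b P 1 2, ent b P 2 2, ent b P 0 1 * ent b P 3 1, ent b P 0 1 * ent b P 3 2,
    ent b P 0 2 * ent b P 3 2]

end Pool.Agent.H11.CC
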