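import Pool.Agent.H11.CC.Main
import Pool.Agent.H66.SyP.Defs

/-!
MP_b8283b_gt: Lagrangian rational homology spheres in CP^3 with a circle symmetry that has a fixed point.

A point of CP^3 is the orthogonal projection pt z onto a complex line of C^4; L is a compact connected
embedded Lagrangian submanifold with H^1(L; R) = 0. Sym b L w says that L is invariant under exp(itH),
t real, where H has the eigenvalues w_k in the orthonormal basis b. If H is not scalar and these isometries
have a common fixed point on L (or the mean of the w_k is one of them), then H^1(L; U(1)) has at most two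
elements: of two flat U(1) cocycles on L one of them, or their product, has a flat section.

DRAFT of the hand-in CircleFixedPoint, for reading. The claim file:

Proves: Let L in CP^3 be a compact connected embedded Lagrangian with H^1(L;R)=0, invariant under the isometries exp(itH), t real, for a nonscalar Hermitian H=sum w_k b_k b_k^* (b an orthonormal basis of C^4). If these isometries have a common fixed point on L, or if the mean of the w_k is one of the w_k, then H^1(L;U(1)) has at most two elements: for two flat U(1)-cocycles psi1, psi2 on L at least one of psi1, psi2, psi1 psi2 is trivial.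
Definitions: E 3: C^4. Op 3: its operators. R 3: R^3. pt z: projection onto Cz, the point [z]. IsLag: embedded 3-manifold of such points (IsPt), smooth immersive charts (Param; deriv: directional derivative), Im(Xz,Yz)=0 (Orth). H1Zero: sheaf form of H^1(L;R)=0. rot b t: unitary, eigenvalues e^{i t_k}. act: P to rot P rot^-1. Sym b L w: exp(itH) preserves L for all t. mean: mean of the w_k. Coc L psi: for Q in L near P, psi Q is a constant multiple of psi P near Q. Frame L psi g: near every P in L, g is a constant multiple of psi P.
Relation: Partial answer to Q1, no Floer theory: a circle symmetry with a fixed point on L. So H_1(L;Z)=0 or Z/2 (universal coefficients, not in the Lean); Chiang and all other candidates in Konstantinov's list have larger H_1, so by his theorem such an L is diffeomorphic to RP^3 (which has such symmetries, w=(1,0,0,-1)). Earlier: homogeneous L (Bedulli-Gori), our SymmetricSpheres. New as far as we know.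
-/

set_option autoImplicit false

open Pool.Agent.H66.SyL Pool.Agent.H66.SyP Pool.Agent.H11.CC

theorem Pool.Agent.H11.CC.DraftCircleFixedPoint
    (L : Set (Op 3)) (hL : IsLag L) (hc : IsCompact L) (hconn : IsConnected L)
    (h1 : H1Zero L) (b : OrthonormalBasis (Fin (3 + 1)) ℂ (E 3)) (w : Fin (3 + 1) → ℝ)
    (hw : Sym b L w) (hns : ∃ k, w k ≠ mean w)
    (hf : (∃ P ∈ L, ∀ t : ℝ, act b (t • w) P = P) ∨ ∃ k, w k = mean w)
    (ψ₁ ψ₂ : Op 3 → Op 3 → Circle) (h₁ : Coc L ψ₁) (h₂ : Coc L ψ₂) :
    (∃ g, Frame L ψ₁ g) ∨ (∃ g, Frame L ψ₂ g) ∨ ∃ g, Frame L (fun P Q => ψ₁ P Q * ψ₂ P Q) g :=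
  main hL.lag hc hconn h1 b hw hns hf h₁ h₂
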