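import Pool.Agent.H11.CC.EntC
import Pool.Agent.H66.SyL.MomA

/-! The tangent space of L in coordinates. -/

set_option autoImplicit false

open scoped ContDiff Topology
open Topology

namespace Pool.Agent.H11.CC

open Pool.Agent.H66.SyL Pool.Agent.H11.ST Pool.Agent.H11.SO

variable {b : Bas} {L : Set (Op 3)}

private theorem hasDerivAt_coord {γ : ℝ → E 3} {Y : E 3} (h : HasDerivAt γ Y 0) (i : Fin (3 + 1)) :
    HasDerivAt (fun t => inner ℂ (b i) (γ t)) (inner ℂ (b i) Y) 0 := by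
  have h1 := (((innerSL ℂ (b i)).restrictScalars ℝ).hasFDerivAt (x := γ 0)).comp_hasDerivAt 0 h
  exact h1

private theorem hasDerivAt_conj {f : ℝ → ℂ} {f' : ℂ} (h : HasDerivAt f f' 0) :
    HasDerivAt (fun t => (starRingEnd ℂ) (f t)) ((starRingEnd ℂ) f') 0 := by
  have h1 := ((Complex.conjCLE : ℂ ≃L[ℝ] ℂ).toContinuousLinearMap.hasFDerivAt
    (x := f 0)).comp_hasDerivAt 0 h
  exact h1

/-- a vanishing derivative is inherited by a function of the same modulus -/
private theorem deriv_zero_of_norm {f g : ℝ → ℂ} {g' : ℂ} (hf : HasDerivAt f 0 0)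
    (hg : HasDerivAt g g' 0) (f0 : f 0 = 0) (g0 : g 0 = 0)
    (h : ∀ᶠ t in 𝓝 (0 : ℝ), ‖f t‖ = ‖g t‖) : g' = 0 := by
  have h1 : HasDerivAt g 0 0 := by
    rw [hasDerivAt_iff_isLittleO] at hf ⊢
    simp only [f0, g0, sub_zero, smul_zero] at hf ⊢
    have h2 : (fun t => ‖g t‖) =o[𝓝 (0 : ℝ)] fun t : ℝ => t := by
      refine (hf.norm_left).congr' ?_ (Filter.EventuallyEq.refl _ _)
      exact h
    exact h2.of_norm_left
  exact hg.unique h1

private theorem inner_sum_coord (z y : E 3) :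
    inner ℂ z y = ∑ i, (starRingEnd ℂ) (inner ℂ (b i) z) * inner ℂ (b i) y := by
  rw [← b.sum_inner_mul_inner z y]
  refine Finset.sum_congr rfl fun i _ => ?_
  rw [inner_conj_symm]

private theorem ext_coord {v w : E 3} (h : ∀ k, inner ℂ (b k) v = inner ℂ (b k) w) : v = w := by
  apply b.repr.injective
  ext k
  rw [b.repr_apply_apply, b.repr_apply_apply]
  exact h k

/-- the entry as a real linear map -/
private noncomputable def entM (b : Bas) (i j : Fin (3 + 1)) : Op 3 →L[ℝ] ℂ :=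
  ((innerSL ℂ (b i)).comp (ContinuousLinearMap.apply ℂ (E 3) (b j))).restrictScalars ℝ

private theorem entM_apply (b : Bas) (i j : Fin (3 + 1)) (P : Op 3) :
    entM b i j P = ent b P i j := rfl

private theorem hasDerivAt_ent {γ : ℝ → Op 3} {X : Op 3} (h : HasDerivAt γ X 0)
    (i j : Fin (3 + 1)) :
    HasDerivAt (fun t => ent b (γ t) i j) (ent b X i j) 0 := by
  have h1 := ((entM b i j).hasFDerivAt (x := γ 0)).comp_hasDerivAt 0 h
  exact h1

/-- the facts along the curve x0 + t v -/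
private theorem along (C : LChart L) {P : Op 3} (hP : P ∈ L ∩ C.U) (v : R 3) :
    ∃ γ : ℝ → R 3, γ 0 = C.r P ∧
      HasDerivAt (fun t => C.z (γ t)) (fderiv ℝ C.z (C.r P) v) 0 ∧
      HasDerivAt (fun t => C.p (γ t)) (fderiv ℝ C.p (C.r P) v) 0 ∧
      ∀ᶠ t in 𝓝 (0 : ℝ), pt (C.z (γ t)) = C.p (γ t) ∧ ‖C.z (γ t)‖ = 1 ∧
        pt (C.z (γ t)) ∈ L := by
  set x0 := C.r P with hx0
  have hb : x0 ∈ Metric.ball C.x0 C.δ := C.r_mem P hP
  have hball : Metric.ball C.x0 C.δ ∈ 𝓝 x0 := Metric.isOpen_ball.mem_nhds hb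
  have hzd : HasFDerivAt C.z (fderiv ℝ C.z x0) x0 :=
    ((C.smooth_z.contDiffAt hball).differentiableAt one_ne_zero).hasFDerivAt
  have hpd : HasFDerivAt C.p (fderiv ℝ C.p x0) x0 :=
    ((C.smooth_p.contDiffAt hball).differentiableAt one_ne_zero).hasFDerivAt
  refine ⟨fun t => x0 + t • v, by simp, ?_, ?_, ?_⟩
  · have hγd : HasDerivAt (fun t : ℝ => x0 + t • v) v 0 := by
      have h1 := ((hasDerivAt_id (0 : ℝ)).smul_const v).const_add x0
      simpa using h1
    have h1 : HasFDerivAt C.z (fderiv ℝ C.z x0) ((fun t : ℝ => x0 + t • v) 0) := by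
      have h2 : (fun t : ℝ => x0 + t • v) 0 = x0 := by simp
      rw [h2]; exact hzd
    exact h1.comp_hasDerivAt 0 hγd
  · have hγd : HasDerivAt (fun t : ℝ => x0 + t • v) v 0 := by
      have h1 := ((hasDerivAt_id (0 : ℝ)).smul_const v).const_add x0
      simpa using h1
    have h1 : HasFDerivAt C.p (fderiv ℝ C.p x0) ((fun t : ℝ => x0 + t • v) 0) := by
      have h2 : (fun t : ℝ => x0 + t • v) 0 = x0 := by simp
      rw [h2]; exact hpd
    exact h1.comp_hasDerivAt 0 hγd
  · have hγd : HasDerivAt (fun t : ℝ => x0 + t • v) v 0 := by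
      have h1 := ((hasDerivAt_id (0 : ℝ)).smul_const v).const_add x0
      simpa using h1
    have hγt : ∀ᶠ t in 𝓝 (0 : ℝ), x0 + t • v ∈ Metric.ball C.x0 C.δ := by
      refine hγd.continuousAt.eventually ?_
      have h2 : (fun t : ℝ => x0 + t • v) 0 = x0 := by simp
      rw [h2]
      exact hball
    filter_upwards [hγt] with t ht
    refine ⟨C.pt_z _ ht, C.norm_z _ ht, ?_⟩
    rw [C.pt_z _ ht]
    exact (C.p_mem _ ht).1

/-- Compare ST/SubP.lean (all steps are there). Proof: x0 = C.r P, z_i = (b i, C.z x0), Y v i = (b i, fderiv C.z x0 v).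
pt_z and the product rule along x0 + t v; leg, lag, imm of the chart (b.sum_inner_mul_inner); |z_0| = |z_3| on L gives the
last two (|z_0|^2 = |z_3|^2 for the real parts; deriv_zero_of_norm of SubP for z 0 = 0). -/
theorem drv (hC : Circ b L) (C : LChart L) {P : Op 3} (hP : P ∈ L ∩ C.U) :
    ∃ (z : Fin (3 + 1) → ℂ) (Y : R 3 →L[ℝ] (Fin (3 + 1) → ℂ)),
      (∀ i j, ent b P i j = z i * (starRingEnd ℂ) (z j)) ∧
      (∑ i, ‖z i‖ ^ 2 = 1) ∧
      (∀ v i j, ent b (fderiv ℝ C.p (C.r P) v) i j =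
        Y v i * (starRingEnd ℂ) (z j) + z i * (starRingEnd ℂ) (Y v j)) ∧
      (∀ v, ∑ i, (starRingEnd ℂ) (z i) * Y v i = 0) ∧
      (∀ u v, (∑ i, (starRingEnd ℂ) (Y u i) * Y v i).im = 0) ∧
      (∀ v, Y v = 0 → v = 0) ∧
      (∀ v, ((starRingEnd ℂ) (z 0) * Y v 0).re = ((starRingEnd ℂ) (z 3) * Y v 3).re) ∧
      (z 0 = 0 → ∀ v, Y v 0 = 0 → Y v 3 = 0) := by
  have hb : C.r P ∈ Metric.ball C.x0 C.δ := C.r_mem P hP
  have hpP : C.p (C.r P) = P := C.p_r P hP
  have hz0 : ‖C.z (C.r P)‖ = 1 := C.norm_z _ hb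
  have hzP : pt (C.z (C.r P)) = P := by rw [C.pt_z _ hb, hpP]
  have hzL : pt (C.z (C.r P)) ∈ L := by rw [hzP]; exact hP.1
  refine ⟨fun i => inner ℂ (b i) (C.z (C.r P)),
    ContinuousLinearMap.pi fun i => ((innerSL ℂ (b i)).restrictScalars ℝ).comp
      (fderiv ℝ C.z (C.r P)), ?_, ?_, ?_, ?_, ?_, ?_, ?_, ?_⟩
  · intro i j
    have h1 := ent_pt b (C.z (C.r P)) i j
    rw [hzP] at h1
    exact h1
  · have h1 := b.sum_sq_norm_inner_right (C.z (C.r P))
    rw [hz0, one_pow] at h1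
    exact h1
  · intro v i j
    obtain ⟨γ, g0, g1, g2, g3⟩ := along C hP v
    have hc := fun i => hasDerivAt_coord (b := b) g1 i
    have e1 := hasDerivAt_ent (b := b) g2 i j
    have e2 := (hc i).mul (hasDerivAt_conj (hc j))
    have e3 : HasDerivAt (fun t => ent b (C.p (γ t)) i j)
        (inner ℂ (b i) (fderiv ℝ C.z (C.r P) v) *
            (starRingEnd ℂ) (inner ℂ (b j) (C.z (γ 0))) +
          inner ℂ (b i) (C.z (γ 0)) *
            (starRingEnd ℂ) (inner ℂ (b j) (fderiv ℝ C.z (C.r P) v))) 0 := by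
      refine e2.congr_of_eventuallyEq ?_
      filter_upwards [g3] with t ht
      rw [← ht.1, ent_pt]
      rfl
    have e4 := e1.unique e3
    rw [g0] at e4
    exact e4
  · intro v
    have h1 := C.leg _ hb v
    rw [inner_sum_coord (b := b)] at h1
    exact h1
  · intro u v
    have h1 := C.lag _ hb u v
    rw [inner_sum_coord (b := b)] at h1
    exact h1
  · intro v hv
    have h1 : fderiv ℝ C.z (C.r P) v = 0 := by
      refine ext_coord (b := b) fun k => ?_
      rw [inner_zero_right]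
      exact congrFun hv k
    exact C.imm _ hb (by rw [h1, map_zero])
  · intro v
    obtain ⟨γ, g0, g1, g2, g3⟩ := along C hP v
    have hc := fun i => hasDerivAt_coord (b := b) g1 i
    have h2 := (hc 0).mul (hasDerivAt_conj (hc 0))
    have h3 := (hc 3).mul (hasDerivAt_conj (hc 3))
    have h4 := h3.congr_of_eventuallyEq (f₁ := fun t => inner ℂ (b 0) (C.z (γ t)) *
      (starRingEnd ℂ) (inner ℂ (b 0) (C.z (γ t)))) (by
        filter_upwards [g3] with t ht
        show _ = inner ℂ (b 3) (C.z (γ t)) * (starRingEnd ℂ) (inner ℂ (b 3) (C.z (γ t)))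
        rw [Complex.mul_conj, Complex.mul_conj, Complex.normSq_eq_norm_sq,
          Complex.normSq_eq_norm_sq, hC.eq03 _ ht.2.1 ht.2.2])
    have h5 := h2.unique h4
    rw [g0] at h5
    have h6 := congrArg Complex.re h5
    show ((starRingEnd ℂ) (inner ℂ (b 0) (C.z (C.r P))) *
        inner ℂ (b 0) (fderiv ℝ C.z (C.r P) v)).re =
      ((starRingEnd ℂ) (inner ℂ (b 3) (C.z (C.r P))) *
        inner ℂ (b 3) (fderiv ℝ C.z (C.r P) v)).re
    simp only [Complex.add_re, Complex.mul_re, Complex.conj_re, Complex.conj_im] at h6 ⊢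
    linarith
  · intro hz v hv
    obtain ⟨γ, g0, g1, g2, g3⟩ := along C hP v
    have hc := fun i => hasDerivAt_coord (b := b) g1 i
    have n03 := hC.eq03 _ hz0 hzL
    have hz' : inner ℂ (b 0) (C.z (C.r P)) = (0 : ℂ) := hz
    have hv' : inner ℂ (b 0) (fderiv ℝ C.z (C.r P) v) = (0 : ℂ) := hv
    have a3 : inner ℂ (b 3) (C.z (C.r P)) = (0 : ℂ) := by
      rw [hz', norm_zero] at n03
      exact norm_eq_zero.1 n03.symm
    have h1 := hc 0
    rw [hv'] at h1
    show inner ℂ (b 3) (fderiv ℝ C.z (C.r P) v) = (0 : ℂ)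
    refine deriv_zero_of_norm h1 (hc 3) ?_ ?_ ?_
    · show inner ℂ (b 0) (C.z (γ 0)) = 0
      rw [g0, hz']
    · show inner ℂ (b 3) (C.z (γ 0)) = 0
      rw [g0, a3]
    · filter_upwards [g3] with t ht
      exact hC.eq03 _ ht.2.1 ht.2.2

/-- The direction of the orbit. Proof: curve_deriv for g t = act b (t • wc) P, t0 = 0 (hasDerivAt_act, Circ.inv), and the
derivative of ent_rt at t = 0 (ent is real linear and continuous). -/
theorem orb_dir (hC : Circ b L) (C : LChart L) {P : Op 3} (hP : P ∈ L ∩ C.U) :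
    ∃ v0 : R 3, ∀ i j, ent b (fderiv ℝ C.p (C.r P) v0) i j =
      Complex.I * ((wc i - wc j : ℝ) : ℂ) * ent b P i j := by
  have h0 : rt b 0 P = P := rt_zero b P
  have hd := hasDerivAt_act b wc P 0
  obtain ⟨y, -, hy, -⟩ := curve_deriv C (g := fun t => rt b t P) (t0 := 0)
    (Filter.Eventually.of_forall fun t => hC.inv t P hP.1)
    (by show rt b 0 P ∈ C.U; rw [h0]; exact hP.2) hd
  refine ⟨y, fun i j => ?_⟩
  have e1 := hasDerivAt_ent (b := b) hd i j
  have h1 : C.r (rt b 0 P) = C.r P := by rw [h0]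
  rw [h1] at hy
  rw [hy] at e1
  have e2 : HasDerivAt (fun t : ℝ => Complex.exp ((((wc i - wc j) * t : ℝ) : ℂ) * Complex.I) *
      ent b P i j) (Complex.I * ((wc i - wc j : ℝ) : ℂ) * ent b P i j) 0 := by
    have f1 : HasDerivAt (fun t : ℝ => (((wc i - wc j) * t : ℝ) : ℂ)) ((wc i - wc j : ℝ) : ℂ) 0 := by
      have := ((hasDerivAt_id (0 : ℝ)).const_mul (wc i - wc j)).ofReal_comp
      simpa using this
    have f2 := (f1.mul_const Complex.I).cexp
    have f3 := f2.mul_const (ent b P i j)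
    refine f3.congr_deriv ?_
    simp only [mul_zero, Complex.ofReal_zero, zero_mul, Complex.exp_zero, one_mul]
    ring
  have e3 : HasDerivAt (fun t : ℝ => ent b (act b (t • wc) P) i j)
      (Complex.I * ((wc i - wc j : ℝ) : ℂ) * ent b P i j) 0 := by
    refine e2.congr_of_eventuallyEq (Filter.Eventually.of_forall fun t => ?_)
    exact ent_rt b t P i j
  exact e1.unique e3

end Pool.Agent.H11.CC
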