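import Pool.Agent.H11.CC.Defs

/-! Flat sections: gluing, local existence. -/

set_option autoImplicit false

open scoped Topology
open Topology

namespace Pool.Agent.H11.CC

variable {X Y : Type*} [TopologicalSpace X] [TopologicalSpace Y]

theorem Frame.mono {L A : Set X} {ψ : X → X → Circle} {f : X → Circle} (h : Frame L ψ f)
    (hA : A ⊆ L) : Frame A ψ f := fun P hP =>
  (h P (hA hP)).filter_mono (nhdsWithin_mono P hA)

theorem Frame.smul {L : Set X} {ψ : X → X → Circle} {f : X → Circle} (h : Frame L ψ f)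
    (c : Circle) : Frame L ψ (fun x => c * f x) := fun P hP =>
  (h P hP).mono fun Q hQ => by
    show c * f Q / (c * f P) = _
    rw [mul_div_mul_left_eq_div, hQ]

private theorem ratio_alg {a b c d : Circle} (h : a / b = c / d) : a / c = b / d := by
  rw [div_eq_div_iff_mul_eq_mul] at h ⊢
  rw [h, mul_comm]

/-- two flat sections differ by a locally constant factor -/
theorem Frame.ratio {L : Set X} {ψ : X → X → Circle} {f g : X → Circle} (hf : Frame L ψ f)
    (hg : Frame L ψ g) : ∀ P ∈ L, ∀ᶠ Q in 𝓝[L] P, f Q / g Q = f P / g P := by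
  intro P hP
  filter_upwards [hf P hP, hg P hP] with Q h1 h2
  exact ratio_alg (h1.trans h2.symm)

theorem Frame.ratio_const {L : Set X} {ψ : X → X → Circle} {f g : X → Circle}
    (hf : Frame L ψ f) (hg : Frame L ψ g) (hL : IsPreconnected L) :
    ∀ P ∈ L, ∀ Q ∈ L, f Q / g Q = f P / g P := by
  intro P hP Q hQ
  have hloc : IsLocallyConstant fun x : L => f x / g x := by
    rw [IsLocallyConstant.iff_eventually_eq]
    intro x
    exact (eventually_nhds_subtype_iff L x fun y => f y / g y = f x / g x).2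
      (Frame.ratio hf hg x x.2)
  have : PreconnectedSpace L := isPreconnected_iff_preconnectedSpace.1 hL
  exact hloc.apply_eq_of_preconnectedSpace ⟨Q, hQ⟩ ⟨P, hP⟩

private theorem Frame.congr {L : Set X} {ψ : X → X → Circle} {f g : X → Circle} (hf : Frame L ψ f)
    (h : ∀ x ∈ L, g x = f x) : Frame L ψ g := by
  intro P hP
  filter_upwards [hf P hP, self_mem_nhdsWithin] with Q h1 h2
  rw [h Q h2, h P hP, h1]

private theorem part {A B : Set X} (hB : IsClosed B) {ψ : X → X → Circle} {f : X → Circle}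
    (hA : Frame A ψ f) (hBf : Frame B ψ f) {P : X} (hP : P ∈ A) :
    ∀ᶠ Q in 𝓝[A ∪ B] P, f Q / f P = ψ P Q / ψ P P := by
  rw [nhdsWithin_union, Filter.eventually_sup]
  refine ⟨hA P hP, ?_⟩
  by_cases hPB : P ∈ B
  · exact hBf P hPB
  · rw [eventually_nhdsWithin_iff]
    filter_upwards [hB.isOpen_compl.mem_nhds hPB] with Q hQ hQB
    exact absurd hQB hQ

/-- Proof: if A ∩ B is empty take f on A, g elsewhere; otherwise multiply g by f p / g p, p in A ∩ B; the
ratio is constant on A ∩ B. -/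
theorem frame_glue {A B : Set X} (hA : IsClosed A) (hB : IsClosed B)
    (hAB : IsPreconnected (A ∩ B)) {ψ : X → X → Circle} {f g : X → Circle} (hf : Frame A ψ f)
    (hg : Frame B ψ g) : ∃ h, Frame (A ∪ B) ψ h := by
  classical
  obtain ⟨κ, hκ⟩ : ∃ κ : Circle, ∀ x ∈ A ∩ B, f x = κ * g x := by
    rcases (A ∩ B).eq_empty_or_nonempty with h | ⟨p, hp⟩
    · exact ⟨1, fun x hx => absurd hx (by rw [h]; exact Set.notMem_empty x)⟩
    · refine ⟨f p / g p, fun x hx => ?_⟩
      rw [← Frame.ratio_const (hf.mono Set.inter_subset_left) (hg.mono Set.inter_subset_right) hAB p hp x hx,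
        div_mul_cancel]
  have h1 : ∀ x ∈ A, (fun x => if x ∈ A then f x else κ * g x) x = f x := fun x hx => if_pos hx
  have h2 : ∀ x ∈ B, (fun x => if x ∈ A then f x else κ * g x) x = κ * g x := by
    intro x hx
    by_cases hxA : x ∈ A
    · show (if x ∈ A then f x else κ * g x) = κ * g x
      rw [if_pos hxA, hκ x ⟨hxA, hx⟩]
    · exact if_neg hxA
  have H1 := hf.congr h1
  have H2 := (hg.smul κ).congr h2
  refine ⟨fun x => if x ∈ A then f x else κ * g x, ?_⟩
  rintro P (hP | hP)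
  · exact part hB H1 H2 hP
  · rw [Set.union_comm]
    exact part hA H2 H1 hP

theorem Coc.mono {L A : Set X} {ψ : X → X → Circle} (h : Coc L ψ) (hA : A ⊆ L) : Coc A ψ :=
  fun P hP => ((h P (hA hP)).filter_mono (nhdsWithin_mono P hA)).mono fun Q hQ =>
    hQ.filter_mono (nhdsWithin_mono Q hA)

/-- pull back -/
theorem Coc.comp {L : Set X} {ψ : X → X → Circle} (h : Coc L ψ) {C : Set Y} {Φ : Y → X}
    (hΦ : ContinuousOn Φ C) (hm : Set.MapsTo Φ C L) :
    Coc C (fun a b => ψ (Φ a) (Φ b)) := by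
  intro a ha
  have h1 := ((hΦ a ha).tendsto_nhdsWithin hm).eventually (h (Φ a) (hm ha))
  filter_upwards [h1, self_mem_nhdsWithin] with b hb hbC
  exact ((hΦ b hbC).tendsto_nhdsWithin hm).eventually hb

theorem Frame.comp {L : Set X} {ψ : X → X → Circle} {f : X → Circle} (h : Frame L ψ f)
    {C : Set Y} {Φ : Y → X} (hΦ : ContinuousOn Φ C) (hm : Set.MapsTo Φ C L) :
    Frame C (fun a b => ψ (Φ a) (Φ b)) (fun a => f (Φ a)) := by
  intro a ha
  exact ((hΦ a ha).tendsto_nhdsWithin hm).eventually (h (Φ a) (hm ha))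

/-- near P the function ψ P is a flat section -/
theorem Coc.local {L : Set X} {ψ : X → X → Circle} (h : Coc L ψ) {P : X} (hP : P ∈ L) :
    ∃ U : Set X, IsOpen U ∧ P ∈ U ∧ Frame (L ∩ U) ψ (ψ P) := by
  obtain ⟨U, hU, hPU, hsub⟩ := mem_nhdsWithin.1 (h P hP)
  refine ⟨U, hU, hPU, ?_⟩
  rintro Q ⟨hQL, hQU⟩
  have h1 : ∀ᶠ S in 𝓝[L] Q, ψ Q S / ψ Q Q = ψ P S / ψ P Q := hsub ⟨hQU, hQL⟩
  exact (h1.filter_mono (nhdsWithin_mono Q Set.inter_subset_left)).mono fun S hS => hS.symm

theorem Coc.sq {L : Set X} {ψ : X → X → Circle} (h : Coc L ψ) :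
    Coc L (fun P Q => ψ P Q ^ 2) :=
  fun P hP => (h P hP).mono fun Q hQ => hQ.mono fun S hS => by
    show ψ Q S ^ 2 / ψ Q Q ^ 2 = ψ P S ^ 2 / ψ P Q ^ 2
    rw [← div_pow, hS, div_pow]

end Pool.Agent.H11.CC
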