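import Pool.Agent.H11.CC.FLa

/-! Flat sections on compact convex sets. -/

set_option autoImplicit false

open scoped Topology
open Topology

namespace Pool.Agent.H11.CC

private theorem slice_step {V : Type*} [NormedAddCommGroup V] [NormedSpace ℝ V]
    {C : Set V} (hC : IsCompact C) {ψ : V → V → Circle} (l : V →L[ℝ] ℝ) {h : ℝ} (hh : 0 < h)
    (Q : Set V → Prop) (hQ : ∀ D D' : Set V, D' ⊆ D → Q D → Q D')
    (H : ∀ D ⊆ C, IsClosed D → Convex ℝ D → (∀ x ∈ D, ∀ y ∈ D, |l x - l y| ≤ h) → Q D →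
      ∃ f, Frame D ψ f) :
    ∀ D ⊆ C, IsClosed D → Convex ℝ D → Q D → ∃ f, Frame D ψ f := by
  intro D hDC hDc hDv hDQ
  obtain ⟨a, ha⟩ : ∃ a, ∀ x ∈ C, a ≤ l x := by
    obtain ⟨a, ha⟩ := (hC.image l.continuous).bddBelow
    exact ⟨a, fun x hx => ha ⟨x, hx, rfl⟩⟩
  obtain ⟨b, hb⟩ : ∃ b, ∀ x ∈ C, l x ≤ b := by
    obtain ⟨b, hb⟩ := (hC.image l.continuous).bddAbove
    exact ⟨b, fun x hx => hb ⟨x, hx, rfl⟩⟩
  have hcl : ∀ t : ℝ, IsClosed {x : V | l x ≤ t} := fun t =>
    isClosed_le l.continuous continuous_const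
  have hcg : ∀ t : ℝ, IsClosed {x : V | t ≤ l x} := fun t =>
    isClosed_le continuous_const l.continuous
  have hvl : ∀ t : ℝ, Convex ℝ {x : V | l x ≤ t} := fun t =>
    convex_halfSpace_le l.toLinearMap.isLinear t
  have hvg : ∀ t : ℝ, Convex ℝ {x : V | t ≤ l x} := fun t =>
    convex_halfSpace_ge l.toLinearMap.isLinear t
  have key : ∀ k : ℕ, ∃ f, Frame (D ∩ {x | l x ≤ a + k * h}) ψ f := by
    intro k
    induction k with
    | zero =>
      refine H _ (Set.inter_subset_left.trans hDC) (hDc.inter (hcl _)) (hDv.inter (hvl _)) ?_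
        (hQ _ _ Set.inter_subset_left hDQ)
      rintro x ⟨hx, hx'⟩ y ⟨hy, hy'⟩
      have h1 := ha x (hDC hx)
      have h2 := ha y (hDC hy)
      simp only [Nat.cast_zero, zero_mul, add_zero, Set.mem_setOf_eq] at hx' hy'
      rw [abs_le]
      constructor <;> linarith
    | succ k ih =>
      obtain ⟨f, hf⟩ := ih
      obtain ⟨g, hg⟩ := H (D ∩ ({x | a + k * h ≤ l x} ∩ {x | l x ≤ a + (k + 1 : ℕ) * h}))
        (Set.inter_subset_left.trans hDC) (hDc.inter ((hcg _).inter (hcl _)))
        (hDv.inter ((hvg _).inter (hvl _))) (by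
          rintro x ⟨hx, hx1, hx2⟩ y ⟨hy, hy1, hy2⟩
          simp only [Nat.cast_add, Nat.cast_one, Set.mem_setOf_eq] at hx1 hx2 hy1 hy2
          rw [abs_le]
          constructor <;> linarith) (hQ _ _ Set.inter_subset_left hDQ)
      obtain ⟨F, hF⟩ := frame_glue (hDc.inter (hcl _)) (hDc.inter ((hcg _).inter (hcl _)))
        ((hDv.inter (hvl _)).inter (hDv.inter ((hvg _).inter (hvl _)))).isPreconnected hf hg
      refine ⟨F, hF.mono ?_⟩
      rintro x ⟨hx, hx'⟩
      rcases le_total (l x) (a + k * h) with h1 | h1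
      · exact Or.inl ⟨hx, h1⟩
      · exact Or.inr ⟨hx, h1, hx'⟩
  obtain ⟨k, hk⟩ := exists_nat_ge ((b - a) / h)
  obtain ⟨f, hf⟩ := key k
  refine ⟨f, hf.mono ?_⟩
  intro x hx
  refine ⟨hx, ?_⟩
  have h1 := hb x (hDC hx)
  rw [div_le_iff₀ hh] at hk
  simp only [Set.mem_setOf_eq]
  linarith

/-- Proof: coordinates l_1, .., l_n on V. By the Lebesgue number lemma and Coc.local there is δ > 0 such that
every subset of C of diameter < δ has a flat section. For i = n, .., 0 every set
C ∩ {l_j in J_j, j ≤ i}, J_j short closed intervals, has a flat section: for i - 1 the range of l_i on C is cut into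
short intervals [kh, (k+1)h] and the pieces are glued one after the other (frame_glue, the intersections
C ∩ .. ∩ {l_i = kh} are convex). -/
theorem frame_convex {V : Type*} [NormedAddCommGroup V] [NormedSpace ℝ V] [FiniteDimensional ℝ V]
    {C : Set V} (hC : IsCompact C) (hcv : Convex ℝ C) {ψ : V → V → Circle} (h : Coc C ψ) :
    ∃ f, Frame C ψ f := by
  have hloc : ∀ P : C, ∃ U : Set V, IsOpen U ∧ (P : V) ∈ U ∧ Frame (C ∩ U) ψ (ψ P) :=
    fun P => h.local P.2
  choose U hUo hPU hUf using hloc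
  obtain ⟨δ, hδ, hL⟩ := lebesgue_number_lemma_of_metric hC (c := U) hUo (by
    intro x hx
    exact Set.mem_iUnion.2 ⟨⟨x, hx⟩, hPU ⟨x, hx⟩⟩)
  set B := Module.finBasis ℝ V with hB
  set l : Fin (Module.finrank ℝ V) → V →L[ℝ] ℝ := fun j => LinearMap.toContinuousLinearMap (B.coord j)
    with hl
  set S : ℝ := ∑ j, ‖B j‖ with hS
  have hS0 : 0 ≤ S := Finset.sum_nonneg fun j _ => norm_nonneg _
  set e : ℝ := δ / (2 * (1 + S)) with he
  have he0 : 0 < e := by positivity
  have hsmall : ∀ x y : V, (∀ j, |l j x - l j y| ≤ e) → ‖x - y‖ < δ := by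
    intro x y hxy
    have h1 : x - y = ∑ j, (l j x - l j y) • B j := by
      have h2 : x - y = ∑ j, B.coord j (x - y) • B j := (B.sum_repr (x - y)).symm
      rw [h2]
      refine Finset.sum_congr rfl fun j _ => ?_
      rw [map_sub]
      rfl
    rw [h1]
    calc ‖∑ j, (l j x - l j y) • B j‖ ≤ ∑ j, ‖(l j x - l j y) • B j‖ := norm_sum_le _ _
      _ ≤ ∑ j, e * ‖B j‖ := by
        refine Finset.sum_le_sum fun j _ => ?_
        rw [norm_smul, Real.norm_eq_abs]
        exact mul_le_mul_of_nonneg_right (hxy j) (norm_nonneg _)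
      _ = e * S := by rw [← Finset.mul_sum]
      _ < δ := by
        rw [he, div_mul_eq_mul_div, div_lt_iff₀ (by positivity)]
        nlinarith
  have claim : ∀ i : ℕ, ∀ D ⊆ C, IsClosed D → Convex ℝ D →
      (∀ j : Fin (Module.finrank ℝ V), i ≤ (j : ℕ) → ∀ x ∈ D, ∀ y ∈ D, |l j x - l j y| ≤ e) →
      ∃ f, Frame D ψ f := by
    intro i
    induction i with
    | zero =>
      intro D hDC _ _ hD
      rcases D.eq_empty_or_nonempty with h0 | ⟨x, hx⟩
      · refine ⟨fun _ => 1, ?_⟩
        intro P hP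
        rw [h0] at hP
        exact absurd hP (Set.notMem_empty P)
      · obtain ⟨P, hP⟩ := hL x (hDC hx)
        refine ⟨ψ P, (hUf P).mono ?_⟩
        intro y hy
        refine ⟨hDC hy, hP ?_⟩
        rw [Metric.mem_ball, dist_eq_norm]
        exact hsmall y x fun j => hD j (Nat.zero_le _) y hy x hx
    | succ i ih =>
      intro D hDC hDc hDv hD
      by_cases hi : i < Module.finrank ℝ V
      · refine slice_step hC (l ⟨i, hi⟩) he0
          (fun D => ∀ j : Fin (Module.finrank ℝ V), i + 1 ≤ (j : ℕ) →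
            ∀ x ∈ D, ∀ y ∈ D, |l j x - l j y| ≤ e) ?_ ?_ D hDC hDc hDv hD
        · intro D D' hDD hQ j hj x hx y hy
          exact hQ j hj x (hDD hx) y (hDD hy)
        · intro D hDC hDc hDv hosc hQ
          refine ih D hDC hDc hDv ?_
          intro j hj x hx y hy
          rcases hj.eq_or_lt with h1 | h1
          · have : j = ⟨i, hi⟩ := Fin.ext h1.symm
            rw [this]
            exact hosc x hx y hy
          · exact hQ j h1 x hx y hy
      · refine ih D hDC hDc hDv ?_
        intro j hj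
        exact absurd (lt_of_le_of_lt hj j.2) hi
  exact claim (Module.finrank ℝ V) C subset_rfl hC.isClosed hcv fun j hj =>
    absurd j.2 (not_lt.2 hj)

end Pool.Agent.H11.CC
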