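import Pool.Agent.H11.CC.EntC

/-! The fibres of kc on L are the orbits. -/

set_option autoImplicit false

open scoped ContDiff Topology
open Topology

namespace Pool.Agent.H11.CC

open Pool.Agent.H66.SyL Pool.Agent.H11.ST Pool.Agent.H11.SO

variable {b : Bas} {L : Set (Op 3)}

private theorem exists_arg {x y : ℂ} (h : ‖x‖ = ‖y‖) :
    ∃ f : ℝ, y = Complex.exp ((f : ℂ) * Complex.I) * x := by
  by_cases hx : x = 0
  · refine ⟨0, ?_⟩
    rw [hx, norm_zero] at h
    rw [hx, mul_zero]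
    exact norm_eq_zero.1 h.symm
  · refine ⟨(y / x).arg, ?_⟩
    have hn : ‖y / x‖ = 1 := by
      rw [norm_div, ← h]
      exact div_self (norm_ne_zero_iff.2 hx)
    have h1 := Complex.norm_mul_exp_arg_mul_I (y / x)
    rw [hn, Complex.ofReal_one, one_mul] at h1
    rw [h1, div_mul_cancel₀ _ hx]

private theorem norm_exp_I (f : ℝ) : ‖Complex.exp ((f : ℂ) * Complex.I)‖ = 1 :=
  Complex.norm_exp_ofReal_mul_I f

private theorem conj_exp (f : ℝ) : (starRingEnd ℂ) (Complex.exp ((f : ℂ) * Complex.I)) =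
    Complex.exp (-((f : ℂ) * Complex.I)) := by
  rw [← Complex.exp_conj, map_mul, Complex.conj_ofReal, Complex.conj_I, mul_neg]

private theorem wc0 : wc 0 = 1 := rfl
private theorem wc1 : wc 1 = 0 := rfl
private theorem wc2 : wc 2 = 0 := rfl
private theorem wc3 : wc 3 = -1 := rfl

private theorem finish {z z' : E 3} {g t : ℝ}
    (h0 : inner ℂ (b 0) z' =
      Complex.exp ((g : ℂ) * Complex.I) * (Complex.exp ((t : ℂ) * Complex.I) * inner ℂ (b 0) z))
    (h1 : inner ℂ (b 1) z' = Complex.exp ((g : ℂ) * Complex.I) * inner ℂ (b 1) z)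
    (h2 : inner ℂ (b 2) z' = Complex.exp ((g : ℂ) * Complex.I) * inner ℂ (b 2) z)
    (h3 : inner ℂ (b 3) z' =
      Complex.exp ((g : ℂ) * Complex.I) *
        (Complex.exp (((-t : ℝ) : ℂ) * Complex.I) * inner ℂ (b 3) z)) :
    rt b t (pt z) = pt z' := by
  rw [rt_pt]
  refine (pt_eq_of_coord b (norm_exp_I g) ?_).symm
  intro i
  rw [coord_rt]
  match i with
  | 0 => rw [wc0, one_mul]; exact h0
  | 1 => rw [wc1, zero_mul, Complex.ofReal_zero, zero_mul, Complex.exp_zero, one_mul]; exact h1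
  | 2 => rw [wc2, zero_mul, Complex.ofReal_zero, zero_mul, Complex.exp_zero, one_mul]; exact h2
  | 3 => rw [wc3, neg_one_mul]; exact h3

private theorem tlem {z0 z3 zj w0 w3 wj : ℂ} {g : ℝ} (hj : zj ≠ 0)
    (ej : wj = Complex.exp ((g : ℂ) * Complex.I) * zj)
    (h : z0 * (starRingEnd ℂ) zj * (z3 * (starRingEnd ℂ) zj) =
      w0 * (starRingEnd ℂ) wj * (w3 * (starRingEnd ℂ) wj))
    (n0 : ‖z0‖ = ‖w0‖) (n3 : ‖z3‖ = ‖w3‖) (n03 : ‖z0‖ = ‖z3‖) :
    ∃ t : ℝ, w0 = Complex.exp ((g : ℂ) * Complex.I) * (Complex.exp ((t : ℂ) * Complex.I) * z0) ∧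
      w3 = Complex.exp ((g : ℂ) * Complex.I) *
        (Complex.exp (((-t : ℝ) : ℂ) * Complex.I) * z3) := by
  by_cases c0 : z0 = 0
  · have c3 : z3 = 0 := by
      rw [c0, norm_zero] at n03
      exact norm_eq_zero.1 n03.symm
    have d0 : w0 = 0 := by
      rw [c0, norm_zero] at n0
      exact norm_eq_zero.1 n0.symm
    have d3 : w3 = 0 := by
      rw [c3, norm_zero] at n3
      exact norm_eq_zero.1 n3.symm
    exact ⟨0, by rw [c0, d0, mul_zero, mul_zero], by rw [c3, d3, mul_zero, mul_zero]⟩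
  · obtain ⟨f, ef⟩ := exists_arg n0
    refine ⟨f - g, ?_, ?_⟩
    · rw [ef, ← mul_assoc, ← Complex.exp_add]
      congr 2
      push_cast
      ring
    · have hne : z0 * (starRingEnd ℂ) zj * (starRingEnd ℂ) zj ≠ 0 := by
        refine mul_ne_zero (mul_ne_zero c0 ?_) ?_
        · rwa [Ne, map_eq_zero]
        · rwa [Ne, map_eq_zero]
      have key : z3 = Complex.exp ((f : ℂ) * Complex.I) * Complex.exp (-((g : ℂ) * Complex.I)) *
          Complex.exp (-((g : ℂ) * Complex.I)) * w3 := by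
        apply mul_left_cancel₀ hne
        rw [ef, ej, map_mul, conj_exp] at h
        linear_combination h
      have hone : Complex.exp ((g : ℂ) * Complex.I) *
          Complex.exp (((-(f - g) : ℝ) : ℂ) * Complex.I) *
          (Complex.exp ((f : ℂ) * Complex.I) * Complex.exp (-((g : ℂ) * Complex.I)) *
          Complex.exp (-((g : ℂ) * Complex.I))) = 1 := by
        rw [← Complex.exp_add, ← Complex.exp_add, ← Complex.exp_add, ← Complex.exp_add]
        have h0 : (g : ℂ) * Complex.I + ((-(f - g) : ℝ) : ℂ) * Complex.I +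
            ((f : ℂ) * Complex.I + -((g : ℂ) * Complex.I) + -((g : ℂ) * Complex.I)) = 0 := by
          push_cast
          ring
        rw [h0, Complex.exp_zero]
      have h5 : Complex.exp ((g : ℂ) * Complex.I) *
          (Complex.exp (((-(f - g) : ℝ) : ℂ) * Complex.I) * z3) =
          (Complex.exp ((g : ℂ) * Complex.I) *
          Complex.exp (((-(f - g) : ℝ) : ℂ) * Complex.I) *
          (Complex.exp ((f : ℂ) * Complex.I) * Complex.exp (-((g : ℂ) * Complex.I)) *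
          Complex.exp (-((g : ℂ) * Complex.I)))) * w3 := by
        conv_lhs => rw [key]
        ring
      rw [h5, hone, one_mul]

/-- Compare ST/FibA.lean. Proof: P = pt z, Q = pt z', |z_0| = |z_3|, |z'_0| = |z'_3|; entries 0, 1, 2 of kc (and
ent 2 1 = conj ent 1 2) say z_i conj z_j = z'_i conj z'_j for i, j in {1, 2}. Case z_j ≠ 0 for j = 1 or 2: |z_j| = |z'_j|,
multiply z' by a phase (pt_eq_of_coord) so that z'_j = z_j; then z'_1 = z_1, z'_2 = z_2; |z_0|^2 + |z_3|^2 is the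
same (sum_sq), so |z'_0| = |z_0|, |z'_3| = |z_3|; z_0 z_3 conj (z_j)^2 = z'_0 z'_3 conj (z_j)^2 (entry 3 or 5 of kc) gives
z_0 z_3 = z'_0 z'_3, so z'_0 = exp (i t) z_0 and z'_3 = exp (-i t) z_3 (t = 0 if z_0 = 0, then z_3 = 0).
Case z_1 = z_2 = 0: z'_1 = z'_2 = 0 and |z_0| = |z_3| = |z'_0| = |z'_3| ≠ 0, z'_0 = exp (i α) z_0, z'_3 = exp (i β) z_3,
t = (α - β) / 2, common phase exp (i (α + β) / 2). -/
theorem fib_c (hC : Circ b L) : ∀ P ∈ L, ∀ Q ∈ L, kc b P = kc b Q → ∃ t, rt b t P = Q := by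
  intro P hP Q hQ hk
  obtain ⟨z, hz, rfl⟩ := hC.unit P hP
  obtain ⟨z', hz', rfl⟩ := hC.unit Q hQ
  have h03 := hC.eq03 z hz hP
  have h03' := hC.eq03 z' hz' hQ
  have k0 : ent b (pt z) 1 1 = ent b (pt z') 1 1 := congrFun hk 0
  have k1 : ent b (pt z) 1 2 = ent b (pt z') 1 2 := congrFun hk 1
  have k2 : ent b (pt z) 2 2 = ent b (pt z') 2 2 := congrFun hk 2
  have k3 : ent b (pt z) 0 1 * ent b (pt z) 3 1 = ent b (pt z') 0 1 * ent b (pt z') 3 1 :=
    congrFun hk 3
  have k5 : ent b (pt z) 0 2 * ent b (pt z) 3 2 = ent b (pt z') 0 2 * ent b (pt z') 3 2 :=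
    congrFun hk 5
  rw [ent_pt, ent_pt] at k0 k1 k2
  rw [ent_pt, ent_pt, ent_pt, ent_pt] at k3 k5
  have n1 : ‖inner ℂ (b 1) z‖ = ‖inner ℂ (b 1) z'‖ := by
    have h := congrArg norm k0
    rw [norm_mul, norm_mul, RCLike.norm_conj, RCLike.norm_conj] at h
    exact (mul_self_inj (norm_nonneg _) (norm_nonneg _)).1 h
  have n2 : ‖inner ℂ (b 2) z‖ = ‖inner ℂ (b 2) z'‖ := by
    have h := congrArg norm k2
    rw [norm_mul, norm_mul, RCLike.norm_conj, RCLike.norm_conj] at h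
    exact (mul_self_inj (norm_nonneg _) (norm_nonneg _)).1 h
  have s1 := sum_sq b hz
  have s2 := sum_sq b hz'
  have n0 : ‖inner ℂ (b 0) z‖ = ‖inner ℂ (b 0) z'‖ := by
    refine (sq_eq_sq₀ (norm_nonneg _) (norm_nonneg _)).1 ?_
    rw [← h03] at s1
    rw [← h03', ← n1, ← n2] at s2
    linarith
  have n3 : ‖inner ℂ (b 3) z‖ = ‖inner ℂ (b 3) z'‖ := by rw [← h03, ← h03', n0]
  by_cases c1 : inner ℂ (b 1) z = 0
  · have c1' : inner ℂ (b 1) z' = 0 := by
      rw [c1, norm_zero] at n1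
      exact norm_eq_zero.1 n1.symm
    by_cases c2 : inner ℂ (b 2) z = 0
    · have c2' : inner ℂ (b 2) z' = 0 := by
        rw [c2, norm_zero] at n2
        exact norm_eq_zero.1 n2.symm
      obtain ⟨f0, e0⟩ := exists_arg n0
      obtain ⟨f3, e3⟩ := exists_arg n3
      refine ⟨(f0 - f3) / 2, finish (g := (f0 + f3) / 2) ?_ ?_ ?_ ?_⟩
      · rw [e0, ← mul_assoc, ← Complex.exp_add]
        congr 2
        push_cast
        ring
      · rw [c1, c1', mul_zero]
      · rw [c2, c2', mul_zero]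
      · rw [e3, ← mul_assoc, ← Complex.exp_add]
        congr 2
        push_cast
        ring
    · obtain ⟨g, eg⟩ := exists_arg n2
      obtain ⟨t, t0, t3⟩ := tlem c2 eg k5 n0 n3 h03
      refine ⟨t, finish (g := g) t0 ?_ eg t3⟩
      rw [c1, c1', mul_zero]
  · obtain ⟨g, eg⟩ := exists_arg n1
    obtain ⟨t, t0, t3⟩ := tlem c1 eg k3 n0 n3 h03
    refine ⟨t, finish (g := g) t0 eg ?_ t3⟩
    have h6 : (starRingEnd ℂ) (inner ℂ (b 2) z) =
        Complex.exp ((g : ℂ) * Complex.I) * (starRingEnd ℂ) (inner ℂ (b 2) z') := by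
      apply mul_left_cancel₀ c1
      rw [k1, eg]
      ring
    have h7 := congrArg (starRingEnd ℂ) h6
    rw [map_mul, conj_exp, Complex.conj_conj, Complex.conj_conj] at h7
    rw [h7, ← mul_assoc, ← Complex.exp_add, add_neg_cancel, Complex.exp_zero, one_mul]

end Pool.Agent.H11.CC
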