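import Pool.Agent.H11.CC.Rpl
import Pool.Agent.H11.CC.App

/-! A section with finitely many zeros. -/

set_option autoImplicit false

open scoped Topology
open Topology

namespace Pool.Agent.H11.CC

private theorem ch_closed {X : Type*} [TopologicalSpace X] (ch : Ch X) : IsClosed ch.M := by
  rcases ch.hM with h | h
  · rw [h]; exact isClosed_univ
  · rw [h]; exact isClosed_le continuous_const Complex.continuous_im

private theorem ch_cpt {X : Type*} [TopologicalSpace X] (ch : Ch X) (r : ℝ) :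
    IsCompact (Metric.closedBall 0 r ∩ ch.M) :=
  (isCompact_closedBall 0 r).inter_right (ch_closed ch)

private theorem ch_img {X : Type*} [TopologicalSpace X] [T2Space X] (ch : Ch X) (r : ℝ) :
    IsClosed (ch.c '' (Metric.closedBall 0 r ∩ ch.M)) :=
  ((ch_cpt ch r).image_of_continuousOn (ch.cont.mono Set.inter_subset_right)).isClosed

private theorem ch_zero {X : Type*} [TopologicalSpace X] (ch : Ch X) : (0 : ℂ) ∈ ch.M := by
  rcases ch.hM with h | h
  · rw [h]; exact Set.mem_univ _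
  · rw [h]; show (0 : ℝ) ≤ (0 : ℂ).im; simp

/-- a gap in a finite set of radii -/
private theorem gap {N : Set ℝ} (hN : N.Finite) :
    ∃ r1 r2 : ℝ, 1 < r1 ∧ r1 < r2 ∧ r2 < 2 ∧ ∀ n ∈ N, ¬ (r1 ≤ n ∧ n ≤ r2) := by
  have h1 : IsClosed (N ∩ Set.Ioi 1) := (hN.subset Set.inter_subset_left).isClosed
  have h2 : (N ∩ Set.Ioi 1)ᶜ ∈ 𝓝 (1 : ℝ) :=
    h1.isOpen_compl.mem_nhds (fun h => lt_irrefl (1 : ℝ) h.2)
  obtain ⟨ε, hε, h3⟩ := Metric.mem_nhds_iff.1 h2
  have h4 : 0 < min ε 1 := lt_min hε one_pos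
  refine ⟨1 + min ε 1 / 3, 1 + 2 * min ε 1 / 3, by linarith, by linarith, ?_, ?_⟩
  · have := min_le_right ε 1
    linarith
  · rintro n hn ⟨h5, h6⟩
    have h7 : n ∈ Metric.ball (1 : ℝ) ε := by
      rw [Metric.mem_ball, Real.dist_eq, abs_of_pos (by linarith)]
      have := min_le_left ε 1
      linarith
    exact h3 h7 ⟨hn, by show (1 : ℝ) < n; linarith⟩

private theorem step {X : Type*} [TopologicalSpace X] [T2Space X] {ψ : X → X → Circle}
    (hψ : Coc Set.univ ψ) {s : X → ℂ} (hs : TC ψ s) (ch : Ch X) {Y : Set X} (hY : IsClosed Y)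
    (hf : {x | x ∈ Y ∧ s x = 0}.Finite) :
    ∃ s' : X → ℂ, TC ψ s' ∧
      {x | x ∈ ch.c '' (Metric.closedBall 0 1 ∩ ch.M) ∪ Y ∧ s' x = 0}.Finite := by
  obtain ⟨F, hF⟩ := chart_frame hψ ch
  have hu := tc_chart hψ hs ch hF
  set D := Metric.closedBall (0 : ℂ) 2 ∩ ch.M with hD
  have hDc : IsCompact D := ch_cpt ch 2
  have hFn : ∀ y, (F y : ℂ) ≠ 0 := fun y => Circle.coe_ne_zero _
  set u : ℂ → ℂ := fun y => s (ch.c y) / (F y : ℂ) with hudef
  have hinj : Set.InjOn ch.c D := ch.inj.mono Set.inter_subset_right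
  have hcD : ContinuousOn ch.c D := ch.cont.mono Set.inter_subset_right
  -- zeros of u in Y'
  have hZ : {y | y ∈ D ∧ ch.c y ∈ Y ∧ u y = 0}.Finite := by
    refine Set.Finite.of_injOn (f := ch.c) (t := {x | x ∈ Y ∧ s x = 0}) ?_ ?_ hf
    · rintro y ⟨h1, h2, h3⟩
      refine ⟨h2, ?_⟩
      have h4 : s (ch.c y) / (F y : ℂ) = 0 := h3
      rcases div_eq_zero_iff.1 h4 with h5 | h5
      · exact h5
      · exact absurd h5 (hFn y)
    · intro a ha b hb hab
      exact hinj ha.1 hb.1 hab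
  obtain ⟨r1, r2, h1, h12, h2, hgap⟩ := gap (hZ.image norm)
  -- the compact set K1
  have hYc : IsClosed (D ∩ ch.c ⁻¹' Y) := hcD.preimage_isClosed_of_isClosed hDc.isClosed hY
  have hK : IsCompact ((D ∩ ch.c ⁻¹' Y) ∩ {y | r1 ≤ ‖y‖ ∧ ‖y‖ ≤ r2}) := by
    refine hDc.of_isClosed_subset (hYc.inter ?_) (fun y hy => hy.1.1)
    exact (isClosed_le continuous_const continuous_norm).inter
      (isClosed_le continuous_norm continuous_const)
  obtain ⟨δ, hδ, hδu⟩ : ∃ δ : ℝ, 0 < δ ∧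
      ∀ y ∈ (D ∩ ch.c ⁻¹' Y) ∩ {y | r1 ≤ ‖y‖ ∧ ‖y‖ ≤ r2}, δ ≤ ‖u y‖ := by
    rcases ((D ∩ ch.c ⁻¹' Y) ∩ {y | r1 ≤ ‖y‖ ∧ ‖y‖ ≤ r2}).eq_empty_or_nonempty with he | hne
    · refine ⟨1, one_pos, fun y hy => ?_⟩
      rw [he] at hy
      exact absurd hy (Set.notMem_empty _)
    · obtain ⟨y0, hy0, hmin⟩ := hK.exists_isMinOn hne
        ((hu.mono (fun y hy => hy.1.1)).norm)
      refine ⟨‖u y0‖, ?_, fun y hy => hmin hy⟩
      rw [norm_pos_iff]
      intro h0
      exact hgap ‖y0‖ ⟨y0, ⟨hy0.1.1, hy0.1.2, h0⟩, rfl⟩ hy0.2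
  obtain ⟨q, hq, hqu, hqf⟩ := approx_fin hDc hu hδ
  -- the cut off
  have hr : 0 < r2 - r1 := by linarith
  set χ : ℂ → ℝ := fun y => max 0 (min 1 ((r2 - ‖y‖) / (r2 - r1))) with hχ
  have hχc : Continuous χ := by
    refine continuous_const.max (continuous_const.min ?_)
    exact (continuous_const.sub continuous_norm).div_const _
  have hχ0 : ∀ y, 0 ≤ χ y := fun y => le_max_left _ _
  have hχ1 : ∀ y, χ y ≤ 1 := fun y => max_le zero_le_one (min_le_left _ _)
  have hχi : ∀ y : ℂ, ‖y‖ ≤ r1 → χ y = 1 := by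
    intro y hy
    have h3 : 1 ≤ (r2 - ‖y‖) / (r2 - r1) := by
      rw [le_div_iff₀ hr]
      linarith
    show max 0 (min 1 ((r2 - ‖y‖) / (r2 - r1))) = 1
    rw [min_eq_left h3, max_eq_right zero_le_one]
  have hχo : ∀ y : ℂ, r2 ≤ ‖y‖ → χ y = 0 := by
    intro y hy
    have h3 : (r2 - ‖y‖) / (r2 - r1) ≤ 0 := div_nonpos_of_nonpos_of_nonneg (by linarith) hr.le
    show max 0 (min 1 ((r2 - ‖y‖) / (r2 - r1))) = 0
    exact max_eq_left ((min_le_right _ _).trans h3)
  set v : ℂ → ℂ := fun y => u y + (χ y : ℂ) * (q y - u y) with hv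
  have hvc : ContinuousOn v D :=
    hu.add (((Complex.continuous_ofReal.comp hχc).continuousOn).mul (hq.continuousOn.sub hu))
  have hve : ∀ y ∈ Metric.closedBall 0 2 ∩ ch.M, r2 ≤ ‖y‖ → v y * (F y : ℂ) = s (ch.c y) := by
    intro y _ hy
    show (u y + (χ y : ℂ) * (q y - u y)) * (F y : ℂ) = s (ch.c y)
    rw [hχo y hy, Complex.ofReal_zero, zero_mul, add_zero]
    exact div_mul_cancel₀ _ (hFn y)
  obtain ⟨s', hs', ho, hi⟩ := replace hψ hs ch hF h2 v hvc hve
  refine ⟨s', hs', (hf.union (hqf.image ch.c)).subset ?_⟩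
  rintro x ⟨hx, hx0⟩
  by_cases hxi : x ∈ ch.c '' (Metric.closedBall 0 r2 ∩ ch.M)
  · obtain ⟨y, ⟨hy2, hyM⟩, rfl⟩ := hxi
    have hyn : ‖y‖ ≤ r2 := by simpa using hy2
    have hyb : y ∈ Metric.ball (0 : ℂ) 2 ∩ ch.M :=
      ⟨by rw [mem_ball_zero_iff]; linarith, hyM⟩
    have hyD : y ∈ D := ⟨Metric.ball_subset_closedBall hyb.1, hyM⟩
    have hv0 : v y = 0 := by
      rw [hi y hyb] at hx0
      rcases mul_eq_zero.1 hx0 with h3 | h3
      · exact h3
      · exact absurd h3 (hFn y)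
    by_cases hyr : ‖y‖ ≤ r1
    · right
      refine ⟨y, ⟨hyD, ?_⟩, rfl⟩
      have h3 : u y + (χ y : ℂ) * (q y - u y) = 0 := hv0
      rw [hχi y hyr, Complex.ofReal_one, one_mul] at h3
      linear_combination h3
    · exfalso
      have hyr' : r1 < ‖y‖ := lt_of_not_ge hyr
      have hxY : ch.c y ∈ Y := by
        rcases hx with h3 | h3
        · obtain ⟨y', ⟨hy1, hyM'⟩, he⟩ := h3
          have h4 : y' = y := ch.inj hyM' hyM he
          rw [h4] at hy1
          have h5 : ‖y‖ ≤ 1 := by simpa using hy1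
          linarith
        · exact h3
      have h3 : δ ≤ ‖u y‖ := hδu y ⟨⟨hyD, hxY⟩, hyr'.le, hyn⟩
      have h4 : u y = -((χ y : ℂ) * (q y - u y)) := by
        have h5 : u y + (χ y : ℂ) * (q y - u y) = 0 := hv0
        linear_combination h5
      have h5 : ‖u y‖ = χ y * ‖q y - u y‖ := by
        conv_lhs => rw [h4]
        rw [norm_neg, norm_mul, Complex.norm_real, Real.norm_of_nonneg (hχ0 y)]
      have h6 := hqu y hyD
      have h7 : χ y * ‖q y - u y‖ ≤ ‖q y - u y‖ :=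
        mul_le_of_le_one_left (norm_nonneg _) (hχ1 y)
      linarith
  · left
    refine ⟨?_, ?_⟩
    · rcases hx with h3 | h3
      · exfalso
        apply hxi
        obtain ⟨y, ⟨hy1, hyM⟩, he⟩ := h3
        exact ⟨y, ⟨Metric.closedBall_subset_closedBall (by linarith) hy1, hyM⟩, he⟩
      · exact h3
    · rw [← ho x hxi]
      exact hx0

/-- Proof: finitely many charts with X = union of c '' (ball 0 1 ∩ M). For every list of charts there is a
section with finitely many zeros in Y = union of c '' (closedBall 0 1 ∩ M) over the list. Step (chart ch, section s):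
F from chart_frame, u = s o c / F (tc_chart) has finitely many zeros in Y' = {y in closedBall 0 2 ∩ M, c y in Y} (compact).
Choose 1 < r1 < r2 < 2 such that u has no zero in Y' ∩ {r1 ≤ |y| ≤ r2}, δ = min |u| there; q from approx_fin on
closedBall 0 2 ∩ M; χ = 1 for |y| ≤ r1, 0 for |y| ≥ r2, continuous, between 0 and 1; v = (1 - χ) u + χ q; replace with r = r2. -/
theorem fin_zeros {X : Type*} [TopologicalSpace X] [T2Space X] [CompactSpace X]
    (hX : ∀ x : X, DiscAt x ∨ HalfAt x) {ψ : X → X → Circle} (hψ : Coc Set.univ ψ) :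
    ∃ s : X → ℂ, TC ψ s ∧ {x | s x = 0}.Finite := by
  have hc : ∀ x : X, ∃ ch : Ch X, ch.c 0 = x := by
    intro x
    rcases hX x with ⟨ch, _, h⟩ | ⟨ch, _, h⟩
    · exact ⟨ch, h⟩
    · exact ⟨ch, h⟩
  choose ct hct using hc
  have hopen : ∀ x : X, IsOpen ((ct x).c '' (Metric.ball 0 1 ∩ (ct x).M)) :=
    fun x => (ct x).op _ Metric.isOpen_ball
  have hmem : ∀ x : X, x ∈ (ct x).c '' (Metric.ball 0 1 ∩ (ct x).M) :=
    fun x => ⟨0, ⟨Metric.mem_ball_self one_pos, ch_zero _⟩, hct x⟩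
  obtain ⟨t, ht⟩ := isCompact_univ.elim_finite_subcover
    (fun x : X => (ct x).c '' (Metric.ball 0 1 ∩ (ct x).M)) hopen
    (fun x _ => Set.mem_iUnion.2 ⟨x, hmem x⟩)
  have key : ∀ t : Finset X, ∃ s : X → ℂ, TC ψ s ∧
      {x | x ∈ (⋃ a ∈ t, (ct a).c '' (Metric.closedBall 0 1 ∩ (ct a).M)) ∧ s x = 0}.Finite := by
    classical
    intro t
    induction t using Finset.induction_on with
    | empty =>
      refine ⟨fun _ => 0, fun P => Filter.Eventually.of_forall fun Q => ?_, ?_⟩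
      · simp only [zero_div]
        exact continuousAt_const
      · simp
    | insert a t _ ih =>
      obtain ⟨s, hs, hf⟩ := ih
      have hY : IsClosed (⋃ a ∈ t, (ct a).c '' (Metric.closedBall 0 1 ∩ (ct a).M)) :=
        t.finite_toSet.isClosed_biUnion (fun b _ => ch_img (ct b) 1)
      obtain ⟨s', hs', hf'⟩ := step hψ hs (ct a) hY hf
      refine ⟨s', hs', ?_⟩
      rw [Finset.set_biUnion_insert]
      exact hf'
  obtain ⟨s, hs, hf⟩ := key t
  refine ⟨s, hs, hf.subset ?_⟩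
  intro x hx
  refine ⟨?_, hx⟩
  obtain ⟨a, ha, y, hy, he⟩ := Set.mem_iUnion₂.1 (ht (Set.mem_univ x))
  exact Set.mem_iUnion₂.2 ⟨a, ha, y, ⟨Metric.ball_subset_closedBall hy.1, hy.2⟩, he⟩

end Pool.Agent.H11.CC
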