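import Pool.Agent.H11.CC.Trs

/-! Parallel transport depends locally constantly on the point and the time. -/

set_option autoImplicit false

open scoped Topology
open Topology

namespace Pool.Agent.H11.CC

private theorem circ_id (a b c d : Circle) : a / b * c / d = (a / d) / (b / c) := by
  simp only [div_eq_mul_inv, mul_inv_rev, inv_inv]
  ac_rfl

/-- Proof: C = [min 0 u0 - 1, max 0 u0 + 1] x closedBall x0 (δ/2), compact convex, Φ (u, x) = φ u (p x) maps C to L,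
F a flat section of the pull back (frame_convex). For fixed x, F (u, x) / F (0, x) = T (p x) u (Trp.uniq).
F (0, x) / ψ P (p x) is locally constant at x0 and F (u, x) / ψ (φ u0 P) (φ u (p x)) is locally constant at
(u0, x0) (Coc.local, Frame.comp, Frame.ratio). x = r S for S in L near P. -/
theorem joint {X : Type*} [TopologicalSpace X] {L : Set X} {φ : ℝ → X → X}
    {ψ : X → X → Circle} (hφ : Flw L φ) (hψ : Coc L ψ) {T : X → ℝ → Circle} (hT : Trp L φ ψ T)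
    {V : Type*} [NormedAddCommGroup V] [NormedSpace ℝ V] [FiniteDimensional ℝ V]
    {P : X} (hP : P ∈ L) {p : V → X} {r : X → V} {x0 : V} {δ : ℝ} {U : Set X} (hδ : 0 < δ)
    (hU : IsOpen U) (hPU : P ∈ U) (hx0 : r P = x0) (hp : ContinuousOn p (Metric.ball x0 δ))
    (hpm : ∀ x ∈ Metric.ball x0 δ, p x ∈ L) (hr : ContinuousOn r (L ∩ U))
    (hpr : ∀ Q ∈ L ∩ U, r Q ∈ Metric.ball x0 δ ∧ p (r Q) = Q) (u0 : ℝ) :
    ∀ᶠ q : ℝ × X in 𝓝 u0 ×ˢ 𝓝[L] P, T q.2 q.1 * ψ P q.2 / ψ (φ u0 P) (φ q.1 q.2) =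
      T P u0 * ψ P P / ψ (φ u0 P) (φ u0 P) := by
  have hpP : p x0 = P := by
    rw [← hx0]
    exact (hpr P ⟨hP, hPU⟩).2
  set I : Set ℝ := Set.Icc (min 0 u0 - 1) (max 0 u0 + 1) with hI
  set C : Set (ℝ × V) := I ×ˢ Metric.closedBall x0 (δ / 2) with hC
  set Φ : ℝ × V → X := fun q => φ q.1 (p q.2) with hΦ
  have h0I : (0 : ℝ) ∈ I := by
    rw [hI, Set.mem_Icc]
    have h1 := min_le_left 0 u0
    have h2 := le_max_left 0 u0
    constructor <;> linarith
  have hsub : Metric.closedBall x0 (δ / 2) ⊆ Metric.ball x0 δ := by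
    intro x hx
    rw [Metric.mem_closedBall] at hx
    rw [Metric.mem_ball]
    linarith
  have hCc : IsCompact C := isCompact_Icc.prod (isCompact_closedBall x0 (δ / 2))
  have hCv : Convex ℝ C := (convex_Icc _ _).prod (convex_closedBall x0 (δ / 2))
  have hΦc : ContinuousOn Φ (Set.univ ×ˢ Metric.ball x0 δ) := by
    have h1 : ContinuousOn (fun q : ℝ × V => (q.1, p q.2)) (Set.univ ×ˢ Metric.ball x0 δ) := by
      refine continuousOn_fst.prodMk ?_
      exact hp.comp continuousOn_snd fun q hq => hq.2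
    exact hφ.cont.comp_continuousOn h1
  have hCsub : C ⊆ Set.univ ×ˢ Metric.ball x0 δ := fun q hq => ⟨Set.mem_univ _, hsub hq.2⟩
  have hΦC : ContinuousOn Φ C := hΦc.mono hCsub
  have hΦm : Set.MapsTo Φ C L := fun q hq => hφ.maps _ _ (hpm _ (hsub hq.2))
  obtain ⟨F, hF⟩ := frame_convex hCc hCv (hψ.comp hΦC hΦm)
  -- the transport
  have hT1 : ∀ x ∈ Metric.closedBall x0 (δ / 2), ∀ u ∈ I, T (p x) u = F (u, x) / F (0, x) := by
    intro x hx u hu
    have h1 : Frame I (fun t t' => ψ (φ t (p x)) (φ t' (p x))) (fun t => F (t, x)) := by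
      have h2 := hF.comp (C := I) (Φ := fun t : ℝ => (t, x))
        ((continuous_id.prodMk continuous_const).continuousOn) (fun t ht => ⟨ht, hx⟩)
      exact h2
    have h2 := hT.uniq hφ (hpm x (hsub hx)) isPreconnected_Icc h1 h0I hu
    rw [hT.zero _ (hpm x (hsub hx)), div_one] at h2
    exact h2.symm
  have hx0b : x0 ∈ Metric.closedBall x0 (δ / 2) := Metric.mem_closedBall_self (by linarith)
  have hball : Metric.closedBall x0 (δ / 2) ∈ 𝓝 x0 := Metric.closedBall_mem_nhds x0 (by linarith)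
  have hu0 : I ∈ 𝓝 u0 := by
    refine Icc_mem_nhds ?_ ?_
    · have := min_le_right 0 u0
      linarith
    · have := le_max_right 0 u0
      linarith
  have hpat : ContinuousAt p x0 := hp.continuousAt (Metric.ball_mem_nhds x0 hδ)
  have hΦat : ContinuousAt Φ (u0, x0) :=
    hΦc.continuousAt (prod_mem_nhds Filter.univ_mem (Metric.ball_mem_nhds x0 hδ))
  -- locally constant at time 0
  have hA : ∀ᶠ x in 𝓝 x0, F (0, x) / ψ P (p x) = F (0, x0) / ψ P (p x0) := by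
    obtain ⟨U1, hU1, hPU1, hf1⟩ := hψ.local hP
    set S : Set V := Metric.closedBall x0 (δ / 2) ∩ p ⁻¹' U1 with hS
    have hSn : S ∈ 𝓝 x0 := by
      refine Filter.inter_mem hball (hpat.preimage_mem_nhds ?_)
      rw [hpP]
      exact hU1.mem_nhds hPU1
    have g1 : Frame S (fun a b => ψ (p a) (p b)) (fun x => ψ P (p x)) :=
      hf1.comp (hp.mono fun x hx => hsub hx.1) fun x hx => ⟨hpm x (hsub hx.1), hx.2⟩
    have g2 : Frame S (fun a b => ψ (p a) (p b)) (fun x => F (0, x)) := by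
      have h2 := hF.comp (C := S) (Φ := fun x : V => ((0 : ℝ), x))
        ((continuous_const.prodMk continuous_id).continuousOn) (fun x hx => ⟨h0I, hx.1⟩)
      have h3 : (fun a b : V => ψ (Φ ((0 : ℝ), a)) (Φ ((0 : ℝ), b))) =
          fun a b : V => ψ (p a) (p b) := by
        funext a b
        simp only [hΦ, hφ.zero]
      rw [← h3]
      exact h2
    have h4 := g2.ratio g1 x0 (mem_of_mem_nhds hSn)
    rwa [nhdsWithin_eq_nhds.2 hSn] at h4
  -- locally constant at time u0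
  have hB : ∀ᶠ q in 𝓝 (u0, x0), F q / ψ (φ u0 P) (Φ q) =
      F (u0, x0) / ψ (φ u0 P) (Φ (u0, x0)) := by
    obtain ⟨U2, hU2, hPU2, hf2⟩ := hψ.local (hφ.maps u0 P hP)
    set S : Set (ℝ × V) := C ∩ Φ ⁻¹' U2 with hS
    have hSn : S ∈ 𝓝 (u0, x0) := by
      refine Filter.inter_mem (prod_mem_nhds hu0 hball) (hΦat.preimage_mem_nhds ?_)
      show U2 ∈ 𝓝 (φ u0 (p x0))
      rw [hpP]
      exact hU2.mem_nhds hPU2
    have g1 : Frame S (fun a b => ψ (Φ a) (Φ b)) (fun q => ψ (φ u0 P) (Φ q)) :=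
      hf2.comp (hΦC.mono fun x hx => hx.1) fun x hx => ⟨hΦm hx.1, hx.2⟩
    have g2 : Frame S (fun a b => ψ (Φ a) (Φ b)) F := hF.mono fun x hx => hx.1
    have h4 := g2.ratio g1 (u0, x0) (mem_of_mem_nhds hSn)
    rwa [nhdsWithin_eq_nhds.2 hSn] at h4
  -- the map r
  have hUn : 𝓝[L ∩ U] P = 𝓝[L] P :=
    nhdsWithin_inter_of_mem' (mem_nhdsWithin_of_mem_nhds (hU.mem_nhds hPU))
  have hrt : Filter.Tendsto r (𝓝[L] P) (𝓝 x0) := by
    have h1 := hr P ⟨hP, hPU⟩
    rw [ContinuousWithinAt, hUn, hx0] at h1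
    exact h1
  have hr2 : Filter.Tendsto (fun q : ℝ × X => r q.2) (𝓝 u0 ×ˢ 𝓝[L] P) (𝓝 x0) :=
    hrt.comp Filter.tendsto_snd
  have hr3 : Filter.Tendsto (fun q : ℝ × X => (q.1, r q.2)) (𝓝 u0 ×ˢ 𝓝[L] P) (𝓝 (u0, x0)) := by
    rw [nhds_prod_eq]
    exact Filter.tendsto_fst.prodMk hr2
  have e1 := hr2.eventually hA
  have e2 := hr3.eventually hB
  have e3 : ∀ᶠ q : ℝ × X in 𝓝 u0 ×ˢ 𝓝[L] P, q.2 ∈ L ∩ U := by
    have h1 : ∀ᶠ Q in 𝓝[L] P, Q ∈ L ∩ U := by
      rw [← hUn]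
      exact self_mem_nhdsWithin
    exact Filter.tendsto_snd.eventually h1
  have e4 : ∀ᶠ q : ℝ × X in 𝓝 u0 ×ˢ 𝓝[L] P, q.1 ∈ I := Filter.tendsto_fst.eventually hu0
  have e5 : ∀ᶠ q : ℝ × X in 𝓝 u0 ×ˢ 𝓝[L] P, r q.2 ∈ Metric.closedBall x0 (δ / 2) :=
    hr2.eventually hball
  filter_upwards [e1, e2, e3, e4, e5] with q q1 q2 q3 q4 q5
  have hq : p (r q.2) = q.2 := (hpr q.2 q3).2
  have t1 := hT1 (r q.2) q5 q.1 q4
  have t2 := hT1 x0 hx0b u0 (mem_of_mem_nhds hu0)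
  rw [hq] at t1 q1
  rw [hpP] at t2 q1
  have q2' : F (q.1, r q.2) / ψ (φ u0 P) (φ q.1 q.2) = F (u0, x0) / ψ (φ u0 P) (φ u0 P) := by
    have h1 : Φ (q.1, r q.2) = φ q.1 q.2 := by
      show φ q.1 (p (r q.2)) = φ q.1 q.2
      rw [hq]
    have h2 : Φ (u0, x0) = φ u0 P := by
      show φ u0 (p x0) = φ u0 P
      rw [hpP]
    rw [h1, h2] at q2
    exact q2
  rw [t1, t2, circ_id, circ_id, q1, q2']

end Pool.Agent.H11.CC
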