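import Pool.Agent.H11.CC.EntC
import Pool.Agent.H11.CC.Jnt
import Pool.Agent.H66.SyL.Lg

/-! The hypotheses of joint for L. -/

set_option autoImplicit false

open scoped ContDiff Topology
open Topology

namespace Pool.Agent.H11.CC

open Pool.Agent.H66.SyL Pool.Agent.H11.ST Pool.Agent.H11.SO

variable {b : Bas} {L : Set (Op 3)}

/-- Proof: chart C (exists_lchart); x0 = C.r P, δ with ball x0 δ in ball C.x0 C.δ, U = C.U ∩ C.r^(-1) (ball x0 δ) (open, C.r is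
continuous on C.U); joint with p = C.p, r = C.r. -/
theorem hj_l (hL : IsLagrangian L) (hC : Circ b L) (ψ : Op 3 → Op 3 → Circle)
    (T : Op 3 → ℝ → Circle) (hψ : Coc L ψ) (hT : Trp L (rt b) ψ T) :
    ∀ P ∈ L, ∀ u0 : ℝ, ∀ᶠ q : ℝ × Op 3 in 𝓝 u0 ×ˢ 𝓝[L] P,
      T q.2 q.1 * ψ P q.2 / ψ (rt b u0 P) (rt b q.1 q.2) =
        T P u0 * ψ P P / ψ (rt b u0 P) (rt b u0 P) := by
  intro P hP u0
  obtain ⟨C, hPC⟩ := exists_lchart hL hP
  have hx : C.r P ∈ Metric.ball C.x0 C.δ := C.r_mem P ⟨hP, hPC⟩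
  obtain ⟨δ, hδ, hsub⟩ := Metric.isOpen_iff.1 Metric.isOpen_ball (C.r P) hx
  have hrc : ContinuousOn C.r C.U := C.smooth_r.continuousOn
  have hU : IsOpen (C.U ∩ C.r ⁻¹' Metric.ball (C.r P) δ) :=
    hrc.isOpen_inter_preimage C.openU Metric.isOpen_ball
  exact joint (flw b hC) hψ hT hP hδ hU ⟨hPC, Metric.mem_ball_self hδ⟩ rfl
    (C.smooth_p.continuousOn.mono hsub) (fun x hx' => (C.p_mem x (hsub hx')).1)
    (hrc.mono fun Q hQ => hQ.2.1) (fun Q hQ => ⟨hQ.2.2, C.p_r Q ⟨hQ.1, hQ.2.1⟩⟩) u0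

end Pool.Agent.H11.CC
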