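import Pool.Agent.H11.CC.Trs

/-! The holonomy of the full period is trivial. -/

set_option autoImplicit false

open scoped Topology
open Topology

namespace Pool.Agent.H11.CC

/-- Proof (part of the proof of hol, Hol.lean): T P (2 pi) is locally constant on L by hj with u0 = 2 pi (per), L is
connected, and it is 1 at the fixed point (Trp.fixed). T P (2 pi k) = (T P (2 pi))^k (Trp.add, per). -/
theorem hol2 {X : Type*} [TopologicalSpace X] {L : Set X} {φ : ℝ → X → X}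
    {ψ : X → X → Circle} (hφ : Flw L φ) (hconn : IsConnected L) {T : X → ℝ → Circle}
    (hT : Trp L φ ψ T)
    (hj : ∀ P ∈ L, ∀ u0 : ℝ, ∀ᶠ q : ℝ × X in 𝓝 u0 ×ˢ 𝓝[L] P,
      T q.2 q.1 * ψ P q.2 / ψ (φ u0 P) (φ q.1 q.2) = T P u0 * ψ P P / ψ (φ u0 P) (φ u0 P))
    (hfix : ∃ P ∈ L, ∀ t, φ t P = P) :
    ∀ P ∈ L, ∀ k : ℤ, T P (2 * Real.pi * k) = 1 := by
  have hloc : ∀ P ∈ L, ∀ᶠ Q in 𝓝[L] P, T Q (2 * Real.pi) = T P (2 * Real.pi) := by
    intro P hP
    have h1 : Filter.Tendsto (fun Q : X => ((2 * Real.pi, Q) : ℝ × X)) (𝓝[L] P)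
        (𝓝 (2 * Real.pi) ×ˢ 𝓝[L] P) :=
      Filter.Tendsto.prodMk tendsto_const_nhds Filter.tendsto_id
    filter_upwards [h1.eventually (hj P hP (2 * Real.pi))] with Q hQ
    simp only [hφ.per] at hQ
    rw [mul_div_assoc, mul_div_assoc, div_self', div_self', mul_one, mul_one] at hQ
    exact hQ
  have hconst : ∀ P ∈ L, ∀ Q ∈ L, T P (2 * Real.pi) = T Q (2 * Real.pi) := by
    intro P hP Q hQ
    refine hconn.isPreconnected.induction₂ (fun x y => T x (2 * Real.pi) = T y (2 * Real.pi))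
      (fun x hx => ?_) (fun x y z _ _ _ h1 h2 => h1.trans h2) (fun x y _ _ h => h.symm) hP hQ
    filter_upwards [hloc x hx] with y hy
    exact hy.symm
  obtain ⟨P0, hP0, hf0⟩ := hfix
  have h1 : ∀ P ∈ L, T P (2 * Real.pi) = 1 := fun P hP => by
    rw [hconst P hP P0 hP0, Trp.fixed hφ hT hP0 hf0]
  intro P hP k
  have hper : Function.Periodic (T P) (2 * Real.pi) := by
    intro s
    rw [Trp.add hφ hT hP s (2 * Real.pi), hφ.per, h1 P hP, one_mul]
  have h3 : 2 * Real.pi * k = 0 + k * (2 * Real.pi) := by ring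
  rw [h3, hper.int_mul k 0, hT.zero P hP]

end Pool.Agent.H11.CC
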