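import Pool.Agent.H11.CC.Defs

/-! Definitions for the charts of the quotient of L. -/

set_option autoImplicit false

open scoped ContDiff Topology
open Topology

namespace Pool.Agent.H11.CC

open Pool.Agent.H66.SyL Pool.Agent.H11.ST Pool.Agent.H11.SO

/-- slice function: ent b Q 0 j is a positive multiple of ent b P 0 j -/
noncomputable def slC (b : Bas) (j : Fin (3 + 1)) (P Q : Op 3) : ℝ :=
  (ent b Q 0 j * (starRingEnd ℂ) (ent b P 0 j)).im

/-- f is a system of local coordinates of L at P with f P = 0: a homeomorphism of L ∩ O onto a ball,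
with the inverse σ -/
structure Crd {X : Type*} [TopologicalSpace X] (L : Set X) (f : X → ℂ × ℝ) (P : X) where
  δ : ℝ
  σ : ℂ × ℝ → X
  O : Set X
  δ_pos : 0 < δ
  openO : IsOpen O
  mem : P ∈ O
  cont : ContinuousOn σ (Metric.ball 0 δ)
  fwd : ∀ y ∈ Metric.ball (0 : ℂ × ℝ) δ, σ y ∈ L ∩ O ∧ f (σ y) = y
  bwd : ∀ Q ∈ L ∩ O, f Q ∈ Metric.ball (0 : ℂ × ℝ) δ ∧ σ (f Q) = Q

end Pool.Agent.H11.CC
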