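import Pool.Agent.H11.CC.Drv
import Pool.Agent.H11.CC.Lin

/-! Coordinates at a free point. -/

set_option autoImplicit false

open scoped ContDiff Topology
open Topology

namespace Pool.Agent.H11.CC

open Pool.Agent.H66.SyL Pool.Agent.H11.ST Pool.Agent.H11.SO

variable {b : Bas} {L : Set (Op 3)}

/-- the entry as a real linear map -/
private noncomputable def entSA (b : Bas) (i j : Fin (3 + 1)) : Op 3 →L[ℝ] ℂ :=
  (((innerSL ℂ (b i)).comp (ContinuousLinearMap.apply ℂ (E 3) (b j))).restrictScalars ℝ)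

private theorem entSA_apply (b : Bas) (i j : Fin (3 + 1)) (P : Op 3) :
    entSA b i j P = ent b P i j := rfl

private theorem injA (hC : Circ b L) (C : LChart L) {P : Op 3} (hP : P ∈ L ∩ C.U) :
    Function.Injective (fderiv ℝ C.p (C.r P)) := by
  obtain ⟨z, Y, h1, h2, h3, h4, h5, h6, h7, h8⟩ := drv hC C hP
  rw [injective_iff_map_eq_zero]
  intro v hv
  apply h6
  funext i
  have hz : ∀ j, Y v i * (starRingEnd ℂ) (z j) + z i * (starRingEnd ℂ) (Y v j) = 0 := by
    intro j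
    rw [← h3 v i j, hv]
    simp [ent]
  have hs : ∑ j, (Y v i * (starRingEnd ℂ) (z j) + z i * (starRingEnd ℂ) (Y v j)) * z j = 0 :=
    Finset.sum_eq_zero fun j _ => by rw [hz j, zero_mul]
  have e1 : ∑ j, (Y v i * (starRingEnd ℂ) (z j) + z i * (starRingEnd ℂ) (Y v j)) * z j
      = Y v i * ∑ j, (starRingEnd ℂ) (z j) * z j
        + z i * (starRingEnd ℂ) (∑ j, (starRingEnd ℂ) (z j) * Y v j) := by
    rw [map_sum, Finset.mul_sum, Finset.mul_sum, ← Finset.sum_add_distrib]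
    refine Finset.sum_congr rfl fun j _ => ?_
    rw [map_mul, Complex.conj_conj]
    ring
  have e2 : ∑ j, (starRingEnd ℂ) (z j) * z j = 1 := by
    have : ∀ j, (starRingEnd ℂ) (z j) * z j = ((‖z j‖ ^ 2 : ℝ) : ℂ) := by
      intro j
      rw [Complex.conj_mul']
      push_cast
      rfl
    rw [Finset.sum_congr rfl fun j _ => this j, ← Complex.ofReal_sum, h2, Complex.ofReal_one]
  rw [e1, e2, h4 v, map_zero, mul_zero, add_zero, mul_one] at hs
  simpa using hs

/-- Proof: D = fderiv C.p (C.r P) is injective: if D v = 0 then Y_i conj z_j + z_i conj Y_j = 0; times z_j, summed over j,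
gives Y_i = 0 (drv). The derivative of the map is v -> (ℓ (D v), Im (ent (D v) 0 j * conj (ent P 0 j))); compl_a with
σ v = Im (..), σ v0 = (wc 0 - wc j) |ent P 0 j|^2 for the v0 of orb_dir. -/
theorem sub_a (hC : Circ b L) (C : LChart L) {P : Op 3} (hP : P ∈ L ∩ C.U) {j : Fin (3 + 1)}
    (hj : j = 1 ∨ j = 2) (hne : ent b P 0 j ≠ 0) :
    ∃ ℓ : Op 3 →L[ℝ] ℂ, Function.Bijective
      (fderiv ℝ (fun x => ((ℓ (C.p x) - ℓ P, slC b j P (C.p x)) : ℂ × ℝ)) (C.r P)) := by
  have hfd : FiniteDimensional ℝ (Op 3) := FiniteDimensional.complexToReal (Op 3)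
  set A := fderiv ℝ C.p (C.r P) with hA
  have hdA : HasFDerivAt C.p A (C.r P) := by
    have hb := C.r_mem P hP
    exact ((C.smooth_p.contDiffAt (Metric.isOpen_ball.mem_nhds hb)).differentiableAt
      one_ne_zero).hasFDerivAt
  set τ : Op 3 →L[ℝ] ℝ :=
    Complex.imCLM.comp ((ContinuousLinearMap.mul ℝ ℂ).flip ((starRingEnd ℂ) (ent b P 0 j))
      |>.comp (entSA b 0 j)) with hτ
  have hτa : ∀ Q, τ Q = slC b j P Q := by
    intro Q
    simp [hτ, slC, entSA_apply]
    ring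
  obtain ⟨v0, hv0⟩ := orb_dir hC C hP
  have hσ : ∃ v, (τ.comp A) v ≠ 0 := by
    refine ⟨v0, ?_⟩
    rw [ContinuousLinearMap.comp_apply, hτa, slC, hA, hv0 0 j]
    have hw : wc 0 - wc j = 1 := by
      rcases hj with h | h <;> subst h <;> simp [wc]
    rw [hw]
    have : Complex.I * (((1 : ℝ)) : ℂ) * ent b P 0 j * (starRingEnd ℂ) (ent b P 0 j)
        = Complex.I * ((‖ent b P 0 j‖ ^ 2 : ℝ) : ℂ) := by
      rw [mul_assoc, Complex.mul_conj']
      push_cast
      ring
    rw [this, Complex.I_mul_im, Complex.ofReal_re]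
    positivity
  obtain ⟨ℓ, hℓ⟩ := compl_a A (injA hC C hP) (τ.comp A) hσ
  refine ⟨ℓ, ?_⟩
  have hd : HasFDerivAt (fun x => ((ℓ (C.p x) - ℓ P, slC b j P (C.p x)) : ℂ × ℝ))
      ((ℓ.comp A).prod (τ.comp A)) (C.r P) := by
    have h1 : HasFDerivAt (fun x => ℓ (C.p x) - ℓ P) (ℓ.comp A) (C.r P) :=
      (ℓ.hasFDerivAt.comp (C.r P) hdA).sub_const (ℓ P)
    have h2 : HasFDerivAt (fun x => slC b j P (C.p x)) (τ.comp A) (C.r P) := by
      have h3 : HasFDerivAt (fun x => τ (C.p x)) (τ.comp A) (C.r P) :=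
        τ.hasFDerivAt.comp (C.r P) hdA
      simpa only [hτa] using h3
    exact h1.prodMk h2
  rw [hd.fderiv]
  exact hℓ

end Pool.Agent.H11.CC
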