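import Pool.Agent.H11.CC.CrdE
import Pool.Agent.H11.CC.SbA
import Pool.Agent.H11.CC.SlcC
import Pool.Agent.H11.CC.RedC
import Pool.Agent.H11.CC.DFr

/-! Disc charts at free points. -/

set_option autoImplicit false

open scoped ContDiff Topology
open Topology

namespace Pool.Agent.H11.CC

open Pool.Agent.H66.SyL Pool.Agent.H11.ST Pool.Agent.H11.SO

variable {b : Bas} {L : Set (Op 3)}

/-- Compare SO/LocO.lean. Proof: chart C (exists_lchart), ℓ (sub_a), f Q = (ℓ Q - ℓ P, slC b j P Q), K from exists_crd with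
W = {0 < Re (ent b Q 0 j * conj (ent b P 0 j))}; disc_free with slc_inj, slc_rot, red_c. -/
theorem lc_a (hL : IsLagrangian L) (hc : IsCompact L) (hC : Circ b L) {P : Op 3} (hP : P ∈ L)
    {j : Fin (3 + 1)} (hj : j = 1 ∨ j = 2) (hne : ent b P 0 j ≠ 0) (w : kc b '' L)
    (hw : (w : Fin 6 → ℂ) = kc b P) : DiscAt w := by
  obtain ⟨C, hPC⟩ := exists_lchart hL hP
  obtain ⟨ℓ, hℓ⟩ := sub_a hC C ⟨hP, hPC⟩ hj hne
  have hj0 : j ≠ 0 := by
    rcases hj with h | h
    · rw [h]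
      decide
    · rw [h]
      decide
  set f : Op 3 → ℂ × ℝ := fun Q => (ℓ Q - ℓ P, slC b j P Q) with hfdef
  have hf : ContDiff ℝ 1 f :=
    (ℓ.contDiff.sub contDiff_const).prodMk (contDiff_slC b j P)
  have hf0 : f P = 0 := by
    show (ℓ P - ℓ P, slC b j P P) = 0
    rw [sub_self, slC_self]
    rfl
  have hW : {Q : Op 3 | 0 < (ent b Q 0 j * (starRingEnd ℂ) (ent b P 0 j)).re} ∈ 𝓝 P := by
    have ho : IsOpen {Q : Op 3 | 0 < (ent b Q 0 j * (starRingEnd ℂ) (ent b P 0 j)).re} :=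
      isOpen_lt continuous_const
        (Complex.continuous_re.comp ((continuous_ent b 0 j).mul continuous_const))
    refine ho.mem_nhds ?_
    show 0 < (ent b P 0 j * (starRingEnd ℂ) (ent b P 0 j)).re
    rw [Complex.mul_conj, Complex.ofReal_re]
    exact Complex.normSq_pos.2 hne
  obtain ⟨K, hK⟩ := exists_crd C ⟨hP, hPC⟩ f hf hf0 hℓ hW
  refine disc_free (red_c hc hC) hf.continuous hP hf0 K ?_ ?_ w hw
  · intro Q hQ Q' hQ' h0 h0' hk
    exact slc_inj hC hj hQ.1 hQ'.1 (hK hQ.2) (hK hQ'.2) h0 h0' hk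
  · intro R hR h0 V hV
    exact slc_rot hC hj0 hR.1 (hK hR.2) h0 hV

end Pool.Agent.H11.CC
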