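import Pool.Agent.H11.CC.EntC
import Pool.Agent.H11.ST.RedA
import Pool.Agent.H66.SyL.Main

/-! From a symmetry to a circle with a fixed point. -/

set_option autoImplicit false

open scoped ContDiff Topology
open Topology

namespace Pool.Agent.H11.CC

open Pool.Agent.H66.SyL Pool.Agent.H11.ST Pool.Agent.H11.SO

private theorem exists_two : ∀ i j : Fin (3 + 1), i ≠ j → ∃ k l : Fin (3 + 1), [i, k, l, j].Nodup := by
  decide

private theorem wc_eq (x : Fin (3 + 1)) : wc x = if x = 0 then 1 else if x = 3 then -1 else 0 := by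
  fin_cases x <;> simp [wc]

private theorem five_fin (i j k l m : Fin (3 + 1)) (a1 : i ≠ j) (a2 : k ≠ l) (h1 : i ≠ k) (h2 : i ≠ l)
    (h3 : j ≠ k) (h4 : j ≠ l) (h5 : m ≠ i) (h6 : m ≠ j) (h7 : m ≠ k) (h8 : m ≠ l) : False := by
  simp only [ne_eq, Fin.ext_iff] at *
  have := i.isLt; have := j.isLt; have := k.isLt; have := l.isLt; have := m.isLt
  omega

/-- Compare ST/Red.lean. Proof: dichotomy b hL hc hconn h1 hw. The third case (two eigenvalues above, two below the mean, four
different indices) contradicts hf: fixed point: no_fix; w k = mean w: no index is left. Second case: a permutation σ with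
σ i = 0, σ j = 3 (exists_perm), b' = b.reindex σ; wc o σ = (w - mean w) / (w i - mean w) is a symmetry (sym_reindex, sym_add,
sym_const); eq03 from mom_mean for wc (mean wc = 0); fix: the fixed point P = pt z of the second case, fixed_iff: (w k - mean) z_k = 0
(mom_mean), so z_i = 0 and ent b' P 0 0 = |z_i|^2 = 0. -/
theorem exists_circ {L : Set (Op 3)} (hL : IsLagrangian L) (hc : IsCompact L)
    (hconn : IsConnected L) (h1 : H1Zero L) (b : Bas) {w : Fin (3 + 1) → ℝ} (hw : Sym b L w)
    (hns : ∃ k, w k ≠ mean w)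
    (hf : (∃ P ∈ L, ∀ t : ℝ, act b (t • w) P = P) ∨ ∃ k, w k = mean w) :
    ∃ b' : Bas, Circ b' L := by
  rcases dichotomy b hL hc hconn h1 hw with h | ⟨i, j, hij, hi, hj, hk, P, hP, hPf⟩ | ⟨h2, h3⟩
  · obtain ⟨k, hk⟩ := hns
    exact (hk (h k)).elim
  · obtain ⟨k, l, hnd⟩ := exists_two i j hij
    obtain ⟨σ, s0, -, -, s3⟩ := exists_perm hnd
    have ha : 0 < w i - mean w := sub_pos.2 hi
    have hv : Sym b L (fun k => if k = i then 1 else if k = j then -1 else 0) := by
      have h4 := sym_add b hw (sym_const b (L := L) 1) (1 / (w i - mean w))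
        (-(mean w) / (w i - mean w))
      have h5 : (fun k => if k = i then (1 : ℝ) else if k = j then -1 else 0) =
          (1 / (w i - mean w)) • w + (-(mean w) / (w i - mean w)) • (fun _ => (1 : ℝ)) := by
        funext k
        rw [Pi.add_apply, Pi.smul_apply, Pi.smul_apply, smul_eq_mul, smul_eq_mul, mul_one,
          div_mul_eq_mul_div, one_mul, ← add_div, eq_div_iff ha.ne']
        by_cases h6 : k = i
        · rw [if_pos h6, h6]
          ring
        · rw [if_neg h6]
          by_cases h7 : k = j
          · rw [if_pos h7, h7]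
            linarith
          · rw [if_neg h7, hk k h6 h7]
            ring
      rw [h5]
      exact h4
    have hwc : (fun k => wc (σ k)) = fun k => if k = i then (1 : ℝ) else if k = j then -1 else 0 := by
      funext k
      have h6 : (σ k = 0) ↔ k = i := by
        rw [← s0]
        exact σ.apply_eq_iff_eq
      have h7 : (σ k = 3) ↔ k = j := by
        rw [← s3]
        exact σ.apply_eq_iff_eq
      rw [wc_eq]
      simp only [h6, h7]
    have e0 : (b.reindex σ) 0 = b i := by
      rw [OrthonormalBasis.reindex_apply, ← s0, Equiv.symm_apply_apply]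
    have e3 : (b.reindex σ) 3 = b j := by
      rw [OrthonormalBasis.reindex_apply, ← s3, Equiv.symm_apply_apply]
    refine ⟨b.reindex σ, ?_, fun P hP => (hL P hP).1, ?_, P, hP, ?_⟩
    · have h4 : Sym (b.reindex σ) L wc := by
        rw [sym_reindex, hwc]
        exact hv
      exact h4
    · intro z hz hzL
      rw [e0, e3]
      exact pair_norm b hL hc hconn h1 hij hv hz hzL
    · obtain ⟨z, hz, rfl⟩ := (hL P hP).1
      have h4 := (fixed_iff b (w := w) hz).1 hPf i
      rw [mom_mean b hL hc hconn h1 hw hz hP] at h4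
      have h5 : inner ℂ (b i) z = 0 :=
        norm_eq_zero.1 ((mul_eq_zero.1 h4).resolve_left ha.ne')
      rw [ent_pt, e0, h5, zero_mul]
  · exfalso
    rcases hf with ⟨P, hP, hPf⟩ | ⟨m, hm'⟩
    · obtain ⟨t, ht⟩ := no_fix b hL hc hconn h1 hw h2 h3 P hP
      exact ht (hPf t)
    · obtain ⟨i, j, hij, hi, hj⟩ := h2
      obtain ⟨k, l, hkl, hk, hl⟩ := h3
      have h1 : i ≠ k := by rintro rfl; linarith
      have h2 : i ≠ l := by rintro rfl; linarith
      have h3 : j ≠ k := by rintro rfl; linarith
      have h4 : j ≠ l := by rintro rfl; linarith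
      have h5 : m ≠ i := by rintro rfl; linarith
      have h6 : m ≠ j := by rintro rfl; linarith
      have h7 : m ≠ k := by rintro rfl; linarith
      have h8 : m ≠ l := by rintro rfl; linarith
      exact five_fin i j k l m hij hkl h1 h2 h3 h4 h5 h6 h7 h8

end Pool.Agent.H11.CC
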