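import Pool.Agent.H11.CC.Two
import Pool.Agent.H11.CC.Chts
import Pool.Agent.H11.CC.HjL
import Pool.Agent.H11.CC.RedB

/-! Assembly: Lagrangian rational homology spheres with a circle symmetry which has a fixed point. -/

set_option autoImplicit false

open scoped ContDiff Topology
open Topology

namespace Pool.Agent.H11.CC

open Pool.Agent.H66.SyL Pool.Agent.H11.ST Pool.Agent.H11.SO

theorem main {L : Set (Op 3)} (hL : IsLagrangian L) (hc : IsCompact L)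
    (hconn : IsConnected L) (h1 : H1Zero L) (b : Bas) {w : Fin (3 + 1) → ℝ} (hw : Sym b L w)
    (hns : ∃ k, w k ≠ mean w)
    (hf : (∃ P ∈ L, ∀ t : ℝ, act b (t • w) P = P) ∨ ∃ k, w k = mean w)
    {ψ1 ψ2 : Op 3 → Op 3 → Circle} (hψ1 : Coc L ψ1) (hψ2 : Coc L ψ2) :
    (∃ g, Frame L ψ1 g) ∨ (∃ g, Frame L ψ2 g) ∨
      ∃ g, Frame L (fun P Q => ψ1 P Q * ψ2 P Q) g := by
  obtain ⟨b', hC⟩ := exists_circ hL hc hconn h1 b hw hns hf
  obtain ⟨hX, hne⟩ := charts hL hc hC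
  obtain ⟨P, hP, h0⟩ := hC.fix
  exact circle_two hc hconn h1 (flw b' hC) (red_c hc hC) (fib_c hC) (hj_l hL hC)
    ⟨P, hP, fixed_of hC hP h0⟩ 0 (stab2 hC) hX hne hψ1 hψ2

end Pool.Agent.H11.CC
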