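import Pool.Agent.H11.CC.Tca

/-! Replacing a section in a chart. -/

set_option autoImplicit false

open scoped Topology
open Topology

namespace Pool.Agent.H11.CC

private lemma inv_c {X : Type*} [TopologicalSpace X] (ch : Ch X) {y : ℂ} (hy : y ∈ ch.M) :
    Function.invFunOn ch.c ch.M (ch.c y) = y :=
  ch.inj.leftInvOn_invFunOn hy

private lemma tendsto_inv {X : Type*} [TopologicalSpace X] (ch : Ch X) {y : ℂ} (hy : y ∈ ch.M) :
    Filter.Tendsto (Function.invFunOn ch.c ch.M) (𝓝 (ch.c y)) (𝓝[ch.M] y) := by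
  intro S hS
  rw [mem_nhdsWithin] at hS
  obtain ⟨V, hVo, hyV, hVS⟩ := hS
  rw [Filter.mem_map, mem_nhds_iff]
  refine ⟨ch.c '' (V ∩ ch.M), ?_, ch.op V hVo, ⟨y, ⟨hyV, hy⟩, rfl⟩⟩
  rintro x ⟨z, ⟨hzV, hzM⟩, rfl⟩
  show Function.invFunOn ch.c ch.M (ch.c z) ∈ S
  rw [inv_c ch hzM]
  exact hVS ⟨hzV, hzM⟩

private lemma M_closed {X : Type*} [TopologicalSpace X] (ch : Ch X) : IsClosed ch.M := by
  rcases ch.hM with h | h
  · rw [h]; exact isClosed_univ
  · rw [h]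
    exact isClosed_le continuous_const Complex.continuous_im

/-- Proof: s' (c y) = v y * F y for y in ball 0 2 ∩ M, s' = s elsewhere. c '' (closedBall 0 r ∩ M) is compact, so
closed; outside it s' = s. In c '' (ball 0 2 ∩ M), open, s' (c y) / F y = v y is continuous, and F is ψ P up to a
locally constant factor. -/
theorem replace {X : Type*} [TopologicalSpace X] [T2Space X] {ψ : X → X → Circle}
    (hψ : Coc Set.univ ψ) {s : X → ℂ} (hs : TC ψ s) (ch : Ch X) {F : ℂ → Circle}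
    (hF : Frame (Metric.closedBall 0 2 ∩ ch.M) (fun a b => ψ (ch.c a) (ch.c b)) F)
    {r : ℝ} (hr : r < 2) (v : ℂ → ℂ) (hv : ContinuousOn v (Metric.closedBall 0 2 ∩ ch.M))
    (hve : ∀ y ∈ Metric.closedBall 0 2 ∩ ch.M, r ≤ ‖y‖ → v y * (F y : ℂ) = s (ch.c y)) :
    ∃ s' : X → ℂ, TC ψ s' ∧ (∀ x, x ∉ ch.c '' (Metric.closedBall 0 r ∩ ch.M) → s' x = s x) ∧
      ∀ y ∈ Metric.ball 0 2 ∩ ch.M, s' (ch.c y) = v y * (F y : ℂ) := by
  classical
  set iv : X → ℂ := Function.invFunOn ch.c ch.M with hiv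
  set U : Set X := ch.c '' (Metric.ball 0 2 ∩ ch.M) with hU
  set K : Set X := ch.c '' (Metric.closedBall 0 r ∩ ch.M) with hK
  let s' : X → ℂ := fun x => if x ∈ U then v (iv x) * (F (iv x) : ℂ) else s x
  have hs'U : ∀ y ∈ Metric.ball (0 : ℂ) 2 ∩ ch.M, s' (ch.c y) = v y * (F y : ℂ) := by
    intro y hy
    have hmem : ch.c y ∈ U := ⟨y, hy, rfl⟩
    show (if ch.c y ∈ U then v (iv (ch.c y)) * (F (iv (ch.c y)) : ℂ) else s (ch.c y)) = _
    rw [if_pos hmem, hiv, inv_c ch hy.2]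
  have hs'K : ∀ x, x ∉ K → s' x = s x := by
    intro x hx
    by_cases hxU : x ∈ U
    · obtain ⟨y, hy, rfl⟩ := hxU
      rw [hs'U y hy]
      apply hve y ⟨Metric.ball_subset_closedBall hy.1, hy.2⟩
      by_contra hlt
      push Not at hlt
      apply hx
      refine ⟨y, ⟨?_, hy.2⟩, rfl⟩
      rw [mem_closedBall_zero_iff]
      exact hlt.le
    · show (if x ∈ U then v (iv x) * (F (iv x) : ℂ) else s x) = s x
      rw [if_neg hxU]
  have hKc : IsClosed K := by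
    have h1 : IsCompact (Metric.closedBall (0 : ℂ) r ∩ ch.M) :=
      (isCompact_closedBall (0 : ℂ) r).inter_right (M_closed ch)
    exact (h1.image_of_continuousOn (ch.cont.mono Set.inter_subset_right)).isClosed
  refine ⟨s', ?_, hs'K, hs'U⟩
  intro P
  by_cases hP : P ∈ K
  · obtain ⟨y0, hy0, rfl⟩ := hP
    have hy0b : y0 ∈ Metric.ball (0 : ℂ) 2 := by
      rw [mem_ball_zero_iff]
      have := mem_closedBall_zero_iff.1 hy0.1
      linarith
    have hfr := hF y0 ⟨Metric.ball_subset_closedBall hy0b, hy0.2⟩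
    rw [Filter.Eventually, mem_nhdsWithin] at hfr
    obtain ⟨V, hVo, hyV, hV⟩ := hfr
    have hW : ch.c '' ((V ∩ Metric.ball 0 2) ∩ ch.M) ∈ 𝓝 (ch.c y0) :=
      (ch.op _ (hVo.inter Metric.isOpen_ball)).mem_nhds ⟨y0, ⟨⟨hyV, hy0b⟩, hy0.2⟩, rfl⟩
    have hWo : IsOpen (ch.c '' ((V ∩ Metric.ball 0 2) ∩ ch.M)) :=
      ch.op _ (hVo.inter Metric.isOpen_ball)
    filter_upwards [hW] with Q hQ
    set κ : ℂ := ((F y0 / ψ (ch.c y0) (ch.c y0) : Circle) : ℂ) with hκ
    have heq : (fun S => s' S / (ψ (ch.c y0) S : ℂ)) =ᶠ[𝓝 Q] fun S => v (iv S) * κ := by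
      filter_upwards [hWo.mem_nhds hQ] with S hS
      obtain ⟨z, hz, rfl⟩ := hS
      rw [hs'U z ⟨hz.1.2, hz.2⟩, hiv, inv_c ch hz.2]
      have h1 : F z / F y0 = ψ (ch.c y0) (ch.c z) / ψ (ch.c y0) (ch.c y0) :=
        hV ⟨hz.1.1, Metric.ball_subset_closedBall hz.1.2, hz.2⟩
      have h2 : F z = ψ (ch.c y0) (ch.c z) * (F y0 / ψ (ch.c y0) (ch.c y0)) := by
        rw [div_eq_iff_eq_mul.1 h1]
        rw [div_mul_eq_mul_div, mul_div_assoc]
      rw [h2, Circle.coe_mul]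
      have hne : ((ψ (ch.c y0) (ch.c z) : Circle) : ℂ) ≠ 0 := Circle.coe_ne_zero _
      rw [← hκ]
      field_simp
    obtain ⟨y, hy, rfl⟩ := hQ
    have hcont : ContinuousAt (fun S => v (iv S) * κ) (ch.c y) := by
      apply ContinuousAt.mul _ continuousAt_const
      have ht := tendsto_inv ch hy.2
      have hvc : Filter.Tendsto v (𝓝[ch.M] y) (𝓝 (v y)) := by
        have h3 := hv y ⟨Metric.ball_subset_closedBall hy.1.2, hy.2⟩
        have h4 : 𝓝[ch.M] y ≤ 𝓝[Metric.closedBall 0 2 ∩ ch.M] y := by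
          have h5 : Metric.closedBall (0 : ℂ) 2 ∈ 𝓝 y :=
            Filter.mem_of_superset (Metric.isOpen_ball.mem_nhds hy.1.2)
              Metric.ball_subset_closedBall
          exact (nhdsWithin_inter_of_mem (mem_nhdsWithin_of_mem_nhds h5)).ge
        exact h3.mono_left h4
      show Filter.Tendsto (fun S => v (iv S)) (𝓝 (ch.c y)) (𝓝 (v (iv (ch.c y))))
      rw [hiv, inv_c ch hy.2]
      exact hvc.comp ht
    exact hcont.congr heq.symm
  · have hO : Kᶜ ∈ 𝓝 P := hKc.isOpen_compl.mem_nhds hP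
    filter_upwards [hs P, hO] with Q hQ hQK
    apply hQ.congr
    filter_upwards [hKc.isOpen_compl.mem_nhds hQK] with S hS
    rw [hs'K S hS]

end Pool.Agent.H11.CC
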