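import Pool.Agent.H11.CC.FLb

/-! Sections in a chart. -/

set_option autoImplicit false

open scoped Topology
open Topology

namespace Pool.Agent.H11.CC

variable {X : Type*} [TopologicalSpace X]

/-- a flat section over the compact piece of a chart -/
theorem chart_frame {ψ : X → X → Circle} (hψ : Coc Set.univ ψ) (ch : Ch X) :
    ∃ F : ℂ → Circle, Frame (Metric.closedBall 0 2 ∩ ch.M) (fun a b => ψ (ch.c a) (ch.c b)) F := by
  have hcl : IsClosed ch.M := by
    rcases ch.hM with h | h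
    · rw [h]
      exact isClosed_univ
    · rw [h]
      exact isClosed_le continuous_const Complex.continuous_im
  have hcv : Convex ℝ ch.M := by
    rcases ch.hM with h | h
    · rw [h]
      exact convex_univ
    · rw [h]
      exact convex_halfSpace_im_ge 0
  refine frame_convex ((isCompact_closedBall (0 : ℂ) 2).inter_right hcl)
    ((convex_closedBall (0 : ℂ) 2).inter hcv) ?_
  exact hψ.comp (ch.cont.mono Set.inter_subset_right) (fun _ _ => Set.mem_univ _)

/-- a section becomes a continuous function -/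
theorem tc_chart {ψ : X → X → Circle} (hψ : Coc Set.univ ψ) {s : X → ℂ} (hs : TC ψ s)
    (ch : Ch X) {F : ℂ → Circle}
    (hF : Frame (Metric.closedBall 0 2 ∩ ch.M) (fun a b => ψ (ch.c a) (ch.c b)) F) :
    ContinuousOn (fun y => s (ch.c y) / (F y : ℂ)) (Metric.closedBall 0 2 ∩ ch.M) := by
  intro y hy
  have h1 : ContinuousAt (fun S => s S / (ψ (ch.c y) S : ℂ)) (ch.c y) := (hs (ch.c y)).self_of_nhds
  have h2 : ContinuousWithinAt ch.c (Metric.closedBall 0 2 ∩ ch.M) y :=
    (ch.cont y hy.2).mono Set.inter_subset_right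
  have h3 : ContinuousWithinAt (fun z => s (ch.c z) / (ψ (ch.c y) (ch.c z) : ℂ))
      (Metric.closedBall 0 2 ∩ ch.M) y := ContinuousAt.comp_continuousWithinAt h1 h2
  have h4 : ContinuousWithinAt (fun z => s (ch.c z) / (ψ (ch.c y) (ch.c z) : ℂ) *
      ((ψ (ch.c y) (ch.c y) : ℂ) / (F y : ℂ))) (Metric.closedBall 0 2 ∩ ch.M) y :=
    h3.mul continuousWithinAt_const
  have h5 : ∀ᶠ z in 𝓝[Metric.closedBall 0 2 ∩ ch.M] y, s (ch.c z) / (F z : ℂ) =
      s (ch.c z) / (ψ (ch.c y) (ch.c z) : ℂ) * ((ψ (ch.c y) (ch.c y) : ℂ) / (F y : ℂ)) := by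
    filter_upwards [hF y hy] with z hz
    have h6 : F z = F y * (ψ (ch.c y) (ch.c z) / ψ (ch.c y) (ch.c y)) := by
      rw [← hz, mul_div_cancel]
    rw [h6]
    push_cast
    have a1 : (F y : ℂ) ≠ 0 := Circle.coe_ne_zero _
    have a2 : (ψ (ch.c y) (ch.c z) : ℂ) ≠ 0 := Circle.coe_ne_zero _
    have a3 : (ψ (ch.c y) (ch.c y) : ℂ) ≠ 0 := Circle.coe_ne_zero _
    field_simp
  exact h4.congr_of_eventuallyEq h5 (h5.self_of_nhdsWithin hy)

end Pool.Agent.H11.CC
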