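import Pool.Agent.H11.CC.FLb

/-! Parallel transport along the flow. -/

set_option autoImplicit false

open scoped Topology
open Topology

namespace Pool.Agent.H11.CC

variable {X : Type*} [TopologicalSpace X] {L : Set X} {φ : ℝ → X → X} {ψ : X → X → Circle}

private theorem orbit_coc (hφ : Flw L φ) (hψ : Coc L ψ) {P : X} (hP : P ∈ L) (C : Set ℝ) :
    Coc C (fun t t' => ψ (φ t P) (φ t' P)) := by
  refine hψ.comp (Φ := fun t => φ t P) ?_ ?_
  · have h : Continuous fun t : ℝ => φ t P :=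
      hφ.cont.comp (Continuous.prodMk continuous_id continuous_const)
    exact h.continuousOn
  · intro t _
    exact hφ.maps t P hP

/-- Proof: frame_convex on [-n, n] for the pull back of ψ along t -> φ t P, normalised at 0; they agree
(Frame.ratio_const). -/
theorem exists_trp (hφ : Flw L φ) (hψ : Coc L ψ) : ∃ T, Trp L φ ψ T := by
  classical
  have key : ∀ P ∈ L, ∃ T : ℝ → Circle, T 0 = 1 ∧
      Frame Set.univ (fun t t' => ψ (φ t P) (φ t' P)) T := by
    intro P hP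
    have h1 : ∀ n : ℕ, ∃ f : ℝ → Circle,
        Frame (Set.Icc (-(n : ℝ)) n) (fun t t' => ψ (φ t P) (φ t' P)) f :=
      fun n => frame_convex isCompact_Icc (convex_Icc _ _) (orbit_coc hφ hψ hP _)
    choose f hf using h1
    have h0 : ∀ n : ℕ, (0 : ℝ) ∈ Set.Icc (-(n : ℝ)) n := fun n =>
      ⟨by have := Nat.cast_nonneg (α := ℝ) n; linarith, Nat.cast_nonneg n⟩
    have hmn : ∀ m n : ℕ, m ≤ n → ∀ t ∈ Set.Icc (-(m : ℝ)) m,
        f m t / f m 0 = f n t / f n 0 := by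
      intro m n hle t ht
      have hc : (m : ℝ) ≤ n := Nat.cast_le.2 hle
      have hsub : Set.Icc (-(m : ℝ)) m ⊆ Set.Icc (-(n : ℝ)) n :=
        Set.Icc_subset_Icc (by linarith) hc
      have h2 := (hf m).ratio_const ((hf n).mono hsub) (convex_Icc _ _).isPreconnected 0 (h0 m)
        t ht
      rw [div_eq_div_iff_mul_eq_mul] at h2 ⊢
      rw [h2, mul_comm]
    refine ⟨fun t => f ⌈|t|⌉₊ t / f ⌈|t|⌉₊ 0, div_self' _, ?_⟩
    have hT : ∀ n : ℕ, ∀ t ∈ Set.Icc (-(n : ℝ)) n,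
        f ⌈|t|⌉₊ t / f ⌈|t|⌉₊ 0 = f n t / f n 0 := by
      intro n t ht
      refine hmn _ _ (Nat.ceil_le.2 (abs_le.2 ht)) t ?_
      exact abs_le.1 (Nat.le_ceil _)
    intro t _
    rw [nhdsWithin_univ]
    obtain ⟨n, hn⟩ := exists_nat_gt |t|
    have hI : Set.Icc (-(n : ℝ)) n ∈ 𝓝 t := Icc_mem_nhds (abs_lt.1 hn).1 (abs_lt.1 hn).2
    have ht : t ∈ Set.Icc (-(n : ℝ)) n := abs_le.1 hn.le
    have h3 := hf n t ht
    rw [nhdsWithin_eq_nhds.2 hI] at h3
    filter_upwards [h3, hI] with t' h4 h5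
    show f ⌈|t'|⌉₊ t' / f ⌈|t'|⌉₊ 0 / (f ⌈|t|⌉₊ t / f ⌈|t|⌉₊ 0) = _
    rw [hT n t' h5, hT n t ht, div_div_div_cancel_right, h4]
  choose! T hT using key
  exact ⟨T, ⟨fun P hP => (hT P hP).1, fun P hP => (hT P hP).2⟩⟩

/-- uniqueness: a flat section along a piece of the orbit is T up to a constant -/
theorem Trp.uniq (hφ : Flw L φ) {T : X → ℝ → Circle} (hT : Trp L φ ψ T) {P : X} (hP : P ∈ L)
    {I : Set ℝ} (hI : IsPreconnected I) {f : ℝ → Circle}
    (hf : Frame I (fun t t' => ψ (φ t P) (φ t' P)) f) {s t : ℝ} (hs : s ∈ I) (ht : t ∈ I) :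
    f t / f s = T P t / T P s := by
  have h := hf.ratio_const ((hT.fr P hP).mono (Set.subset_univ I)) hI s hs t ht
  rw [div_eq_div_iff_mul_eq_mul] at h ⊢
  rw [h, mul_comm]

theorem Trp.add (hφ : Flw L φ) {T : X → ℝ → Circle} (hT : Trp L φ ψ T) {P : X} (hP : P ∈ L)
    (s t : ℝ) : T P (s + t) = T P t * T (φ t P) s := by
  have h1 : Frame Set.univ (fun a b => ψ (φ (a + t) P) (φ (b + t) P)) (fun a => T P (a + t)) :=
    (hT.fr P hP).comp (Φ := fun a : ℝ => a + t) (continuous_id.add continuous_const).continuousOn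
      (fun _ _ => Set.mem_univ _)
  have h2 : Frame Set.univ (fun a b => ψ (φ a (φ t P)) (φ b (φ t P))) (fun a => T P (a + t)) := by
    simpa only [hφ.add] using h1
  have h3 := hT.uniq hφ (hφ.maps t P hP) isPreconnected_univ h2 (Set.mem_univ 0) (Set.mem_univ s)
  rw [hT.zero _ (hφ.maps t P hP), div_one, zero_add, div_eq_iff_eq_mul] at h3
  rw [h3, mul_comm]

theorem Trp.fixed (hφ : Flw L φ) {T : X → ℝ → Circle} (hT : Trp L φ ψ T) {P : X} (hP : P ∈ L)
    (hfix : ∀ t, φ t P = P) (t : ℝ) : T P t = 1 := by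
  have h1 : Frame Set.univ (fun a b => ψ (φ a P) (φ b P)) (fun _ => (1 : Circle)) := by
    intro a _
    refine Filter.Eventually.of_forall fun b => ?_
    show (1 : Circle) / 1 = ψ (φ a P) (φ b P) / ψ (φ a P) (φ a P)
    rw [hfix a, hfix b, div_self', div_self']
  have h2 := hT.uniq hφ hP isPreconnected_univ h1 (Set.mem_univ 0) (Set.mem_univ t)
  rw [hT.zero P hP, div_one, div_one] at h2
  exact h2.symm

theorem Trp.sq {T : X → ℝ → Circle} (hT : Trp L φ ψ T) :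
    Trp L φ (fun P Q => ψ P Q ^ 2) (fun P t => T P t ^ 2) := by
  refine ⟨fun P hP => by simp [hT.zero P hP], fun P hP t ht => ?_⟩
  filter_upwards [hT.fr P hP t ht] with t' h
  show T P t' ^ 2 / T P t ^ 2 = ψ (φ t P) (φ t' P) ^ 2 / ψ (φ t P) (φ t P) ^ 2
  rw [← div_pow, ← div_pow]
  exact congrArg (fun x => x ^ 2) h

end Pool.Agent.H11.CC
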