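import Pool.Agent.H11.CC.Abs
import Pool.Agent.H11.CC.Hol2

/-! Abstract form, stronger: of two cocycles one, or their product, is trivial. -/

set_option autoImplicit false

open scoped Topology
open Topology

namespace Pool.Agent.H11.CC

open Pool.Agent.H66.SyL Pool.Agent.H11.SO

section

variable {X : Type*} [TopologicalSpace X] {L : Set X} {φ : ℝ → X → X} {ψ : X → X → Circle}

private theorem coc_mul {ψ1 ψ2 : X → X → Circle} (h1 : Coc L ψ1) (h2 : Coc L ψ2) :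
    Coc L (fun P Q => ψ1 P Q * ψ2 P Q) := by
  intro P hP
  filter_upwards [h1 P hP, h2 P hP] with Q hQ1 hQ2
  filter_upwards [hQ1, hQ2] with S hS1 hS2
  rw [mul_div_mul_comm, mul_div_mul_comm, hS1, hS2]

private theorem trp_mul {ψ1 ψ2 : X → X → Circle} {T1 T2 : X → ℝ → Circle}
    (h1 : Trp L φ ψ1 T1) (h2 : Trp L φ ψ2 T2) :
    Trp L φ (fun P Q => ψ1 P Q * ψ2 P Q) (fun P t => T1 P t * T2 P t) := by
  refine ⟨fun P hP => by rw [h1.zero P hP, h2.zero P hP, one_mul], fun P hP t ht => ?_⟩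
  filter_upwards [h1.fr P hP t ht, h2.fr P hP t ht] with s hs1 hs2
  rw [mul_div_mul_comm, mul_div_mul_comm, hs1, hs2]

private theorem trp_pi (hφ : Flw L φ) {T : X → ℝ → Circle} (hT : Trp L φ ψ T) {P : X}
    (hP : P ∈ L) (hπ : φ Real.pi P = P) (h1 : T P Real.pi = 1) (k : ℤ) :
    T P (Real.pi * k) = 1 := by
  have hstep : ∀ s : ℝ, T P (s + Real.pi) = T P s := by
    intro s
    rw [hT.add hφ hP s Real.pi, h1, hπ, one_mul]
  induction k using Int.induction_on with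
  | zero => rw [Int.cast_zero, mul_zero]; exact hT.zero P hP
  | succ n ih =>
    have e : Real.pi * (((n : ℤ) + 1 : ℤ) : ℝ) = Real.pi * ((n : ℤ) : ℝ) + Real.pi := by
      push_cast
      ring
    rw [e, hstep]
    exact ih
  | pred n ih =>
    have e : Real.pi * ((-(n : ℤ) : ℤ) : ℝ) = Real.pi * ((-(n : ℤ) - 1 : ℤ) : ℝ) + Real.pi := by
      push_cast
      ring
    rw [e, hstep] at ih
    exact ih

private theorem trp_move (hφ : Flw L φ) {T : X → ℝ → Circle} (hT : Trp L φ ψ T) {P Q : X}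
    (hP : P ∈ L) (hπ : φ Real.pi P = P) {s : ℝ} (hs : φ s P = Q) :
    T Q Real.pi = T P Real.pi := by
  have e1 := hT.add hφ hP s Real.pi
  have e2 := hT.add hφ hP Real.pi s
  rw [hπ] at e1
  rw [add_comm, e1, hs, mul_comm] at e2
  exact (mul_left_cancel e2).symm

private theorem pi_even (hφ : Flw L φ) {P : X} (m : ℤ) : φ (2 * Real.pi * m) P = P := by
  induction m using Int.induction_on with
  | zero => rw [Int.cast_zero, mul_zero]; exact hφ.zero P
  | succ n ih =>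
    have e : 2 * Real.pi * (((n : ℤ) + 1 : ℤ) : ℝ) =
        2 * Real.pi * ((n : ℤ) : ℝ) + 2 * Real.pi := by
      push_cast
      ring
    rw [e, hφ.add, hφ.per]
    exact ih
  | pred n ih =>
    have e : 2 * Real.pi * ((-(n : ℤ) : ℤ) : ℝ) =
        2 * Real.pi * ((-(n : ℤ) - 1 : ℤ) : ℝ) + 2 * Real.pi := by
      push_cast
      ring
    rw [e, hφ.add, hφ.per] at ih
    exact ih

private theorem mul_one_of {a b : Circle} (h : a ^ 2 = 1) (h1 : a ≠ 1) (h' : b ^ 2 = 1)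
    (h1' : b ≠ 1) : a * b = 1 := by
  have key : ∀ c : Circle, c ^ 2 = 1 → c ≠ 1 → (c : ℂ) = -1 := by
    intro c hc hc1
    have h2 : (c : ℂ) ^ 2 = 1 := by
      have := congrArg (fun c : Circle => (c : ℂ)) hc
      simpa using this
    rcases sq_eq_one_iff.mp h2 with h3 | h3
    · exact absurd (Circle.ext (by rw [h3, Circle.coe_one])) hc1
    · exact h3
  refine Circle.ext ?_
  rw [Circle.coe_mul, key a h h1, key b h' h1', Circle.coe_one]
  norm_num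

/-- trivial half holonomy on the exceptional orbits gives trivial holonomy -/
private theorem hst_of (hφ : Flw L φ) {T : X → ℝ → Circle} (hT : Trp L φ ψ T)
    (h2 : ∀ P ∈ L, ∀ k : ℤ, T P (2 * Real.pi * k) = 1)
    (hstab : ∀ P ∈ L, ∀ u : ℝ, φ u P = P → (∀ t, φ t P = P) ∨ ∃ k : ℤ, 2 * u = 2 * Real.pi * k)
    (hgood : ∀ P ∈ L, φ Real.pi P = P → T P Real.pi = 1) :
    ∀ P ∈ L, ∀ u : ℝ, φ u P = P → T P u = 1 := by
  intro P hP u hu
  rcases hstab P hP u hu with hfix | ⟨k, hk⟩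
  · exact hT.fixed hφ hP hfix u
  · have hu' : u = Real.pi * k := by linarith
    rcases Int.even_or_odd' k with ⟨m, hm | hm⟩
    · have e : u = 2 * Real.pi * m := by
        rw [hu', hm]
        push_cast
        ring
      rw [e]
      exact h2 P hP m
    · have e : u = Real.pi + 2 * Real.pi * m := by
        rw [hu', hm]
        push_cast
        ring
      have hπ : φ Real.pi P = P := by
        rw [e, hφ.add, pi_even hφ] at hu
        exact hu
      rw [hu']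
      exact trp_pi hφ hT hP hπ (hgood P hP hπ) k

end

theorem circle_two {X Y : Type*} [TopologicalSpace X] [T2Space X] [TopologicalSpace Y]
    [T2Space Y] {L : Set X} (hc : IsCompact L) (hconn : IsConnected L) (h1 : H1Zero L)
    {φ : ℝ → X → X} (hφ : Flw L φ) {κ : X → Y} (hR : RedMap L κ)
    (hfib : ∀ P ∈ L, ∀ Q ∈ L, κ P = κ Q → ∃ t, φ t P = Q)
    (hj : ∀ (ψ : X → X → Circle) (T : X → ℝ → Circle), Coc L ψ → Trp L φ ψ T →
      ∀ P ∈ L, ∀ u0 : ℝ, ∀ᶠ q : ℝ × X in 𝓝 u0 ×ˢ 𝓝[L] P,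
      T q.2 q.1 * ψ P q.2 / ψ (φ u0 P) (φ q.1 q.2) = T P u0 * ψ P P / ψ (φ u0 P) (φ u0 P))
    (hfix : ∃ P ∈ L, ∀ t, φ t P = P) (y0 : Y)
    (hstab : ∀ P ∈ L, ∀ u : ℝ, φ u P = P → (∀ t, φ t P = P) ∨
      (∃ k : ℤ, u = 2 * Real.pi * k) ∨ (κ P = y0 ∧ ∃ k : ℤ, 2 * u = 2 * Real.pi * k))
    (hX : ∀ x : κ '' L, DiscAt x ∨ HalfAt x) (hne : ∃ x : κ '' L, HalfAt x)
    {ψ1 ψ2 : X → X → Circle} (hψ1 : Coc L ψ1) (hψ2 : Coc L ψ2) :
    (∃ g, Frame L ψ1 g) ∨ (∃ g, Frame L ψ2 g) ∨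
      ∃ g, Frame L (fun P Q => ψ1 P Q * ψ2 P Q) g := by
  haveI : CompactSpace (κ '' L) := isCompact_iff_compactSpace.mp (hc.image_of_continuousOn hR.cont)
  haveI : ConnectedSpace (κ '' L) :=
    isConnected_iff_connectedSpace.mp (hconn.image _ hR.cont)
  have hstab' : ∀ P ∈ L, ∀ u : ℝ, φ u P = P →
      (∀ t, φ t P = P) ∨ ∃ k : ℤ, 2 * u = 2 * Real.pi * k := by
    intro P hP u hu
    rcases hstab P hP u hu with h | ⟨k, hk⟩ | ⟨-, h⟩
    · exact Or.inl h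
    · refine Or.inr ⟨2 * k, ?_⟩
      rw [hk]
      push_cast
      ring
    · exact Or.inr h
  have main : ∀ (ψ : X → X → Circle) (T : X → ℝ → Circle), Coc L ψ → Trp L φ ψ T →
      (∀ P ∈ L, φ Real.pi P = P → T P Real.pi = 1) → ∃ g, Frame L ψ g := by
    intro ψ T hψ hT hgood
    have hst := hst_of hφ hT (hol2 hφ hconn hT (hj ψ T hψ hT) hfix) hstab' hgood
    refine descent hR (fun P hP => ?_) (fun ψB hB => ?_)
    · exact tube hφ hψ hT (hj _ _ hψ hT) hst hR hfib hP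
    · obtain ⟨s, hs, h0⟩ := no_zeros hX hne hB
      exact real_step (h1_red hR h1) hB hs h0
  obtain ⟨T1, hT1⟩ := exists_trp hφ hψ1
  obtain ⟨T2, hT2⟩ := exists_trp hφ hψ2
  by_cases g1 : ∀ P ∈ L, φ Real.pi P = P → T1 P Real.pi = 1
  · exact Or.inl (main ψ1 T1 hψ1 hT1 g1)
  by_cases g2 : ∀ P ∈ L, φ Real.pi P = P → T2 P Real.pi = 1
  · exact Or.inr (Or.inl (main ψ2 T2 hψ2 hT2 g2))
  refine Or.inr (Or.inr (main _ _ (coc_mul hψ1 hψ2) (trp_mul hT1 hT2) ?_))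
  push Not at g1 g2
  obtain ⟨P1, hP1, hf1, hn1⟩ := g1
  obtain ⟨P2, hP2, hf2, hn2⟩ := g2
  have hpi : ∀ k : ℤ, Real.pi ≠ 2 * Real.pi * k := by
    intro k hk
    have h3 : Real.pi * (2 * (k : ℝ) - 1) = 0 := by linarith
    rcases mul_eq_zero.mp h3 with h | h
    · exact Real.pi_ne_zero h
    · have h4 : ((2 * k : ℤ) : ℝ) = ((1 : ℤ) : ℝ) := by
        push_cast
        linarith
      have h5 : 2 * k = 1 := by exact_mod_cast h4
      omega
  have hexc : ∀ (ψ : X → X → Circle) (T : X → ℝ → Circle), Trp L φ ψ T → ∀ P ∈ L,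
      φ Real.pi P = P → T P Real.pi ≠ 1 → κ P = y0 := by
    intro ψ T hT P hP hf hn
    rcases hstab P hP _ hf with h | ⟨k, hk⟩ | ⟨h, -⟩
    · exact absurd (hT.fixed hφ hP h _) hn
    · exact absurd hk (hpi k)
    · exact h
  have k1 := hexc ψ1 T1 hT1 P1 hP1 hf1 hn1
  have k2 := hexc ψ2 T2 hT2 P2 hP2 hf2 hn2
  intro P hP hπ
  rcases hstab P hP _ hπ with h | ⟨k, hk⟩ | ⟨h, -⟩
  · show T1 P Real.pi * T2 P Real.pi = 1
    rw [hT1.fixed hφ hP h, hT2.fixed hφ hP h, one_mul]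
  · exact absurd hk (hpi k)
  · obtain ⟨s1, hs1⟩ := hfib P1 hP1 P hP (k1.trans h.symm)
    obtain ⟨s2, hs2⟩ := hfib P2 hP2 P hP (k2.trans h.symm)
    show T1 P Real.pi * T2 P Real.pi = 1
    rw [trp_move hφ hT1 hP1 hf1 hs1, trp_move hφ hT2 hP2 hf2 hs2]
    exact mul_one_of (hol hφ hconn hT1 (hj ψ1 T1 hψ1 hT1) hfix hstab' P1 hP1 _ hf1) hn1
      (hol hφ hconn hT2 (hj ψ2 T2 hψ2 hT2) hfix hstab' P2 hP2 _ hf2) hn2

end Pool.Agent.H11.CC
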